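import Pool.Agent.T2H87.CR.Stm

/-!
# Package ASY: the asymptotic induction
-/

set_option autoImplicit false

open Finset

namespace Pool.Agent.T2H87.CR

namespace PkgASY

theorem Vec_mono {V : Type} [Fintype V] {G : SimpleGraph V} {t t' : ℝ} (h : Vec G t) (ht : t ≤ t') :
    Vec G t' := by
  obtain ⟨M, h1, h2, h3, h4⟩ := h
  exact ⟨M, h1, h2, fun x => (h3 x).trans ht, h4⟩

theorem Good_mono {n : ℕ} {t t' : ℝ} (h : Good n t) (ht : t ≤ t') : Good n t' := by
  obtain ⟨G, h1, h2⟩ := h
  exact ⟨G, Vec_mono h1 ht, Vec_mono h2 ht⟩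

/-- the numerical inequality; `r = x^(1/4)` -/
theorem num {x n p h' e' D r : ℝ} (hr : 21 ≤ r) (hx : x = r ^ 4) (hn1 : 5 * x ≤ n) 
    (hD0 : 0 ≤ D) (hD : D ≤ 15 * r)
    (hp : x - 12 * r ≤ p) (hh1 : x - 12 * r ≤ h') (hh2 : h' ≤ x + 12 * r)
    (he0 : 0 ≤ e') (hs : |h' + e' - p| ≤ D) :
    (Real.sqrt (h' + e') - Real.sqrt p) ^ 2 ≤ 110 / Real.sqrt h' - 110 / Real.sqrt n := by
  have hr0 : 0 < r := by linarith
  have hr3 : (9261 : ℝ) ≤ r ^ 3 := by
    have : (21 : ℝ) ^ 3 ≤ r ^ 3 := pow_le_pow_left₀ (by norm_num) hr 3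
    linarith
  have h12 : 12 * r ≤ 0.002 * r ^ 4 := by nlinarith
  have hlow : 0.998 * r ^ 4 ≤ x - 12 * r := by rw [hx]; linarith
  have hr4 : 0 < r ^ 4 := by positivity
  have hp0 : 0 < p := by linarith
  have hh0 : 0 < h' := by linarith
  have hn0 : 0 < n := by rw [hx] at hn1; linarith
  set w := Real.sqrt p with hw
  set w' := Real.sqrt (h' + e') with hw'
  have hwsq : w ^ 2 = p := Real.sq_sqrt hp0.le
  have hw'sq : w' ^ 2 = h' + e' := Real.sq_sqrt (by linarith)
  have hwl : 0.998 * r ^ 2 ≤ w := by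
    apply Real.le_sqrt_of_sq_le
    nlinarith
  have hw'l : 0.998 * r ^ 2 ≤ w' := by
    apply Real.le_sqrt_of_sq_le
    nlinarith
  have hsum : 1.996 * r ^ 2 ≤ w + w' := by linarith
  have hr2 : 0 < r ^ 2 := by positivity
  have hsum0 : 0 < w + w' := by nlinarith
  have hprod : (w' - w) * (w + w') = h' + e' - p := by nlinarith
  have habs : |w' - w| * (w + w') ≤ D := by
    have h0 : |w' - w| * (w + w') = |(w' - w) * (w + w')| := by
      rw [abs_mul, abs_of_pos hsum0]
    rw [h0, hprod]
    exact hs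
  have h1 : |w' - w| * (1.996 * r ^ 2) ≤ 15 * r :=
    (mul_le_mul_of_nonneg_left hsum (abs_nonneg _)).trans (habs.trans hD)
  have h2 : |w' - w| * r ≤ 15 / 1.996 := by
    rw [le_div_iff₀ (by norm_num)]
    have : |w' - w| * r * 1.996 * r ≤ 15 * r := by nlinarith
    exact le_of_mul_le_mul_right this hr0
  have h3 : (w' - w) ^ 2 * r ^ 2 ≤ 56.6 := by
    have h4 : (w' - w) ^ 2 * r ^ 2 = (|w' - w| * r) ^ 2 := by
      rw [mul_pow, sq_abs]
    rw [h4]
    have h5 : (|w' - w| * r) ^ 2 ≤ (15 / 1.996) ^ 2 :=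
      pow_le_pow_left₀ (mul_nonneg (abs_nonneg _) hr0.le) h2 2
    have h6 : ((15 : ℝ) / 1.996) ^ 2 ≤ 56.6 := by norm_num
    linarith
  -- the right side
  have h7 : Real.sqrt h' ≤ 1.001 * r ^ 2 := by
    apply Real.sqrt_le_iff.2
    refine ⟨by positivity, ?_⟩
    nlinarith
  have h8 : 2.236 * r ^ 2 ≤ Real.sqrt n := by
    apply Real.le_sqrt_of_sq_le
    nlinarith
  have hsh : 0 < Real.sqrt h' := Real.sqrt_pos.2 hh0
  have hsn : 0 < Real.sqrt n := Real.sqrt_pos.2 hn0
  have h9 : 110 / (1.001 * r ^ 2) ≤ 110 / Real.sqrt h' :=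
    div_le_div_of_nonneg_left (by norm_num) hsh h7
  have h10 : 110 / Real.sqrt n ≤ 110 / (2.236 * r ^ 2) :=
    div_le_div_of_nonneg_left (by norm_num) (by positivity) h8
  have h11 : (w' - w) ^ 2 ≤ 56.6 / r ^ 2 := by
    rw [le_div_iff₀ hr2]
    exact h3
  have h12 : 56.6 / r ^ 2 ≤ 110 / (1.001 * r ^ 2) - 110 / (2.236 * r ^ 2) := by
    have e1 : 110 / (1.001 * r ^ 2) = (110 / 1.001) / r ^ 2 := by field_simp
    have e2 : 110 / (2.236 * r ^ 2) = (110 / 2.236) / r ^ 2 := by field_simp
    rw [e1, e2, ← sub_div]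
    apply div_le_div_of_nonneg_right _ hr2.le
    norm_num
  linarith

theorem sqrt_big {n : ℝ} (h : 195000 ≤ n) : 441 ≤ Real.sqrt n := by
  apply Real.le_sqrt_of_sq_le
  norm_num
  linarith

end PkgASY

open PkgASY in
theorem pASY (hC5 : S_C5) (hSUM2 : S_SUM2) (hGAP : S_GAP) (hMID : S_MID) : S_ASY := by
  have claim : ∀ n : ℕ, 195000 ≤ n →
      Good n (Real.sqrt (n + 49 / 50 - 110 / Real.sqrt n)) := by
    intro n
    induction n using Nat.strong_induction_on with
    | _ n ih =>
    intro hn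
    by_cases hn6 : n < 1000000
    · refine Good_mono (hMID n (by omega) hn6) (Real.sqrt_le_sqrt ?_)
      have h1 : (195000 : ℝ) ≤ n := by exact_mod_cast hn
      have h2 := sqrt_big h1
      have h3 : 110 / Real.sqrt n ≤ 1 / 4 := by
        rw [div_le_iff₀ (by linarith)]
        linarith
      linarith
    · push Not at hn6
      set x : ℕ := n / 5 with hx
      have hx1 : 5 * x ≤ n := Nat.mul_div_le n 5
      have hx2 : n < 5 * x + 5 := by omega
      have hx3 : 200000 ≤ x := by omega
      obtain ⟨a, b, hab, hD⟩ := hGAP x hx3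
      set p : ℕ := a ^ 2 + b ^ 2 with hp
      have hx1R : 5 * (x : ℝ) ≤ n := by exact_mod_cast hx1
      have hx2R : (n : ℝ) ≤ 5 * x + 4 := by
        have : n ≤ 5 * x + 4 := by omega
        exact_mod_cast this
      have hx3R : (200000 : ℝ) ≤ x := by exact_mod_cast hx3
      -- `r = x^(1/4)`
      set r : ℝ := Real.sqrt (Real.sqrt x) with hr
      have hr2 : r ^ 2 = Real.sqrt x := Real.sq_sqrt (Real.sqrt_nonneg _)
      have hr4 : (x : ℝ) = r ^ 4 := by
        have : r ^ 4 = (r ^ 2) ^ 2 := by ring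
        rw [this, hr2, Real.sq_sqrt (by linarith)]
      have hr0 : 0 ≤ r := Real.sqrt_nonneg _
      have hr21 : 21 ≤ r := by
        apply Real.le_sqrt_of_sq_le
        apply Real.le_sqrt_of_sq_le
        norm_num
        linarith
      set D : ℝ := 5 * |(x : ℝ) - (p : ℝ)| + 5 with hDdef
      have hD0 : 0 ≤ D := by positivity
      have hD15 : D ≤ 15 * r := by
        apply le_of_sq_le_sq _ (by positivity)
        rw [mul_pow, hr2]
        norm_num
        exact hD
      have hd1 : |(x : ℝ) - (p : ℝ)| ≤ 3 * r - 1 := by linarith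
      obtain ⟨hd2, hd3⟩ := abs_le.1 hd1
      have h12 : 12 * r ≤ 0.002 * r ^ 4 := by
        have hr3 : (9261 : ℝ) ≤ r ^ 3 := by
          have : (21 : ℝ) ^ 3 ≤ r ^ 3 := pow_le_pow_left₀ (by norm_num) hr21 3
          linarith
        nlinarith
      have h4p : 4 * p ≤ n := by
        have : (4 : ℝ) * p ≤ n := by
          rw [← hr4] at h12
          linarith
        exact_mod_cast this
      set h' : ℕ := n - 4 * p with hh'
      have hh'R : (h' : ℝ) = n - 4 * p := by
        rw [hh', Nat.cast_sub h4p]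
        push_cast
        ring
      have hpR : (x : ℝ) - 12 * r ≤ p := by linarith
      have hh1 : (x : ℝ) - 12 * r ≤ h' := by rw [hh'R]; linarith
      have hh2 : (h' : ℝ) ≤ x + 12 * r := by rw [hh'R]; linarith
      have hp1 : 1 ≤ p := by
        have : (0 : ℝ) < p := by
          rw [← hr4] at h12
          linarith
        have : 0 < p := by exact_mod_cast this
        omega
      have hh'195 : 195000 ≤ h' := by
        have : (195000 : ℝ) ≤ h' := by
          rw [← hr4] at h12
          linarith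
        exact_mod_cast this
      have hlt : h' < n := by omega
      have hG' := ih h' hlt hh'195
      have hG : Good p (Real.sqrt p) := by
        have := hSUM2 1 a b one_pos hab
        simpa [hp] using this
      have hh'R2 : (195000 : ℝ) ≤ h' := by exact_mod_cast hh'195
      set e' : ℝ := 49 / 50 - 110 / Real.sqrt h' with he'
      have hsq := sqrt_big hh'R2
      have he0 : 0 ≤ e' := by
        have h3 : 110 / Real.sqrt h' ≤ 1 / 4 := by
          rw [div_le_iff₀ (by linarith)]
          linarith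
        linarith
      have he1 : e' ≤ 1 := by
        have : 0 ≤ 110 / Real.sqrt h' := by positivity
        linarith
      have hG'' : Good h' (Real.sqrt (h' + e')) := by
        have e : (h' : ℝ) + 49 / 50 - 110 / Real.sqrt h' = h' + e' := by rw [he']; ring
        rw [← e]
        exact hG'
      have hpp : (0 : ℝ) < p := by exact_mod_cast hp1
      have hC := hC5 p h' (Real.sqrt p) (Real.sqrt (h' + e')) (Real.sqrt_pos.2 hpp)
        (Real.sqrt_pos.2 (by linarith)) hG hG''
      have en : 4 * p + h' = n := by omega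
      rw [en] at hC
      refine Good_mono hC (Real.sqrt_le_sqrt ?_)
      rw [Real.sq_sqrt hpp.le, Real.sq_sqrt (by linarith)]
      have hs : |(h' : ℝ) + e' - p| ≤ D := by
        have e1 : (h' : ℝ) + e' - p = (n - 5 * x + e') + 5 * (x - p) := by rw [hh'R]; ring
        rw [e1]
        refine (abs_add_le _ _).trans ?_
        rw [abs_mul, abs_of_nonneg (show (0 : ℝ) ≤ 5 by norm_num),
          abs_of_nonneg (show (0 : ℝ) ≤ n - 5 * x + e' by linarith), hDdef]
        linarith
      have hnum := num hr21 hr4 hx1R hD0 hD15 hpR hh1 hh2 he0 hs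
      rw [hh'R] at hnum ⊢
      rw [hh'R] at he'
      linarith
  intro n hn
  by_cases hn6 : n < 1000000
  · refine Good_mono (hMID n hn hn6) (Real.sqrt_le_sqrt ?_)
    linarith
  · refine Good_mono (claim n (by omega)) (Real.sqrt_le_sqrt ?_)
    have : 0 ≤ 110 / Real.sqrt n := by positivity
    linarith

end Pool.Agent.T2H87.CR
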