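import Pool.Agent.T2H87.CR.Stm

/-! package C5 of project CR: substitution in the pentagon with weights `(w', w, w, w, w)` -/

set_option autoImplicit false

open Finset

namespace Pool.Agent.T2H87.CR

open Pool.Agent.H866R4.VD (Cert Gram Q)

namespace PkgC5

/-- the pentagon -/
def pent : SimpleGraph (Fin 5) where
  Adj i j := i = j + 1 ∨ j = i + 1
  symm := ⟨fun _ _ h => h.symm⟩
  loopless := ⟨fun i h => by revert i; decide⟩

theorem compl_adj' : ∀ x y : Fin 5, pentᶜ.Adj x y → x = y + 2 ∨ y = x + 2 := by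
  intro x y h
  rw [SimpleGraph.compl_adj] at h
  have h2 : x ≠ y ∧ ¬ (x = y + 1 ∨ y = x + 1) := h
  clear h
  revert x y
  decide

theorem quad (a b z : Fin 5 → ℝ) :
    (∑ x, z x) ^ 2 ≤ ∑ x, ∑ y, (1 + a x * a y + b x * b y) * z x * z y := by
  have h : ∑ x, ∑ y, (1 + a x * a y + b x * b y) * z x * z y =
      (∑ x, z x) ^ 2 + (∑ x, a x * z x) ^ 2 + (∑ x, b x * z x) ^ 2 := by
    simp only [sq, Finset.sum_mul_sum, ← Finset.sum_add_distrib]
    refine Finset.sum_congr rfl fun x _ => Finset.sum_congr rfl fun y _ => ?_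
    ring
  rw [h]
  nlinarith [sq_nonneg (∑ x, a x * z x), sq_nonneg (∑ x, b x * z x)]

/-- the value of `U` -/
theorem exU (r : ℝ) (hr : 0 < r) : ∃ U : ℝ, 0 < U ∧
    2 * U * (2 * U + 3) ^ 2 = r * (4 * U ^ 2 + 12 * U + 1) := by
  have hc : ContinuousOn (fun U : ℝ => 2 * U * (2 * U + 3) ^ 2 - r * (4 * U ^ 2 + 12 * U + 1))
      (Set.Icc 0 r) := by fun_prop
  have hiv := intermediate_value_Icc hr.le hc
  have h0 : (0 : ℝ) ∈ Set.Icc ((fun U : ℝ => 2 * U * (2 * U + 3) ^ 2 -
      r * (4 * U ^ 2 + 12 * U + 1)) 0) ((fun U : ℝ => 2 * U * (2 * U + 3) ^ 2 -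
      r * (4 * U ^ 2 + 12 * U + 1)) r) := by
    constructor
    · norm_num
      exact hr.le
    · have : (0 : ℝ) ≤ 2 * r * (2 * r + 3) ^ 2 - r * (4 * r ^ 2 + 12 * r + 1) := by
        have : 2 * r * (2 * r + 3) ^ 2 - r * (4 * r ^ 2 + 12 * r + 1) =
          r * (4 * r ^ 2 + 12 * r + 17) := by ring
        rw [this]
        positivity
      exact this
  obtain ⟨U, hU, hUe⟩ := hiv h0
  have hUe' : 2 * U * (2 * U + 3) ^ 2 - r * (4 * U ^ 2 + 12 * U + 1) = 0 := hUe
  refine ⟨U, lt_of_le_of_ne hU.1 ?_, by linarith⟩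
  rintro rfl
  norm_num at hUe'
  linarith

theorem key (U w w' : ℝ) (hU : 0 < U) (hw : 0 < w)
    (h : 2 * U * (2 * U + 3) ^ 2 = w' / w * (4 * U ^ 2 + 12 * U + 1)) :
    (2 * w * (U + 1)) ^ 2 ≤ 4 * w ^ 2 + w' ^ 2 + (w' - w) ^ 2 := by
  have hD : 0 < 4 * U ^ 2 + 12 * U + 1 := by positivity
  have hr : w' = w * (2 * U * (2 * U + 3) ^ 2 / (4 * U ^ 2 + 12 * U + 1)) := by
    field_simp
    field_simp at h
    linarith
  have h1 : 4 * w ^ 2 + w' ^ 2 + (w' - w) ^ 2 - (2 * w * (U + 1)) ^ 2 =
      ((2 * U - 1) / (2 * U + 1)) ^ 2 * (w' - w) ^ 2 := by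
    rw [hr]
    have h2 : (2 * U + 1) ≠ 0 := by positivity
    field_simp
    ring
  have h3 : 0 ≤ ((2 * U - 1) / (2 * U + 1)) ^ 2 * (w' - w) ^ 2 := by positivity
  linarith

end PkgC5

open PkgC5 in
theorem pC5 (hS : S_SUB) : S_C5 := by
  intro h h' w w' hw hw' hG hG'
  obtain ⟨U, hU, hUe⟩ := exU (w' / w) (by positivity)
  have hkey := key U w w' hU hw hUe
  set t : ℝ := Real.sqrt (4 * w ^ 2 + w' ^ 2 + (w' - w) ^ 2) with ht
  have htU : 2 * w * (U + 1) ≤ t := Real.le_sqrt_of_sq_le hkey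
  set u : ℝ := Real.sqrt U with hu
  have hu0 : 0 < u := Real.sqrt_pos.2 hU
  have huu : u * u = U := Real.mul_self_sqrt hU.le
  set v : ℝ := Real.sqrt (U + 1) with hv
  have hv0 : 0 < v := Real.sqrt_pos.2 (by linarith)
  have hvv : v * v = U + 1 := Real.mul_self_sqrt (by linarith)
  -- `s = 1 / p`
  set s : ℝ := u * (2 * U + 3) / (2 * U + 1) with hs
  have hs0 : 0 < s := by positivity
  set p : ℝ := 1 / s with hp
  have hps : p * s = 1 := by rw [hp]; field_simp
  set q : ℝ := (1 - u * s) / v with hq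
  have hqv : q * v = 1 - u * s := by rw [hq]; field_simp
  have hD : 0 < 4 * U ^ 2 + 12 * U + 1 := by positivity
  have hss : s * s * (2 * U + 1) ^ 2 = U * (2 * U + 3) ^ 2 := by
    rw [hs, ← huu]
    field_simp
  have hus : u * s * (2 * U + 1) = U * (2 * U + 3) := by
    rw [hs]
    field_simp
    linear_combination huu
  have hqq : q * q * (2 * U + 1) ^ 2 = (1 - 2 * U) ^ 2 * (1 + U) := by
    have h1 : q * q * (U + 1) * (2 * U + 1) ^ 2 = ((1 - u * s) * (2 * U + 1)) ^ 2 := by
      rw [← hvv, ← hqv]; ring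
    have h2 : (1 - u * s) * (2 * U + 1) = (1 - 2 * U) * (1 + U) := by
      linear_combination - hus
    rw [h2] at h1
    have h3 : (U + 1) ≠ 0 := by positivity
    apply mul_left_cancel₀ h3
    linear_combination h1
  -- diagonal entries
  have hd1 : 1 + s * s + q * q = 2 + 2 * U := by
    have h3 : (2 * U + 1) ^ 2 ≠ 0 := by positivity
    apply mul_right_cancel₀ h3
    linear_combination hss + hqq
  have hd0 : (1 + p * p) * w' = 2 * w * (U + 1) := by
    have h1 : p * p * (U * (2 * U + 3) ^ 2) = (2 * U + 1) ^ 2 := by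
      rw [← hss]
      linear_combination (p * s + 1) * (2 * U + 1) ^ 2 * hps
    have h2 : (1 + p * p) * (U * (2 * U + 3) ^ 2) = (U + 1) * (4 * U ^ 2 + 12 * U + 1) := by
      linear_combination h1
    have h3 : w' * (4 * U ^ 2 + 12 * U + 1) = 2 * U * (2 * U + 3) ^ 2 * w := by
      rw [hUe]; field_simp
    have h4 : U * (2 * U + 3) ^ 2 ≠ 0 := by positivity
    have h5 : (4 * U ^ 2 + 12 * U + 1) ≠ 0 := hD.ne'
    apply mul_right_cancel₀ h4
    linear_combination w' * h2 + (U + 1) * h3
  have hsum : ∑ i, (![h', h, h, h, h] : Fin 5 → ℕ) i = 4 * h + h' := by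
    simp [Fin.sum_univ_succ]
    ring
  rw [← hsum]
  refine hS 5 pent ![h', h, h, h, h] ![w', w, w, w, w] t ?_ ?_ ?_ ?_
  · intro i
    fin_cases i <;> simp <;> assumption
  · refine ⟨fun x y => 1 + (![p, -s, u, u, -s] : Fin 5 → ℝ) x * (![p, -s, u, u, -s] : Fin 5 → ℝ) y +
      (![0, q, -v, v, -q] : Fin 5 → ℝ) x * (![0, q, -v, v, -q] : Fin 5 → ℝ) y, ?_, ?_, ?_, ?_⟩
    · intro x y; ring
    · intro z; exact quad _ _ z
    · intro x
      fin_cases x
      · simp
        linarith
      · simp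
        nlinarith [mul_comm w (1 + s * s + q * q)]
      · simp
        nlinarith
      · simp
        nlinarith
      · simp
        nlinarith
    · have hA : ∀ j : Fin 5, 1 + (![p, -s, u, u, -s] : Fin 5 → ℝ) (j + 1) *
          (![p, -s, u, u, -s] : Fin 5 → ℝ) j +
          (![0, q, -v, v, -q] : Fin 5 → ℝ) (j + 1) * (![0, q, -v, v, -q] : Fin 5 → ℝ) j = 0 := by
        intro j
        fin_cases j
        · simp
          linarith
        · simp
          linarith
        · simp
          linarith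
        · simp
          linarith
        · simp
          linarith
      rintro x y (rfl | rfl)
      · exact hA y
      · have := hA x
        dsimp only
        linarith
  · refine ⟨fun x y => 1 + (![p, u, -s, -s, u] : Fin 5 → ℝ) x * (![p, u, -s, -s, u] : Fin 5 → ℝ) y +
      (![0, v, q, -q, -v] : Fin 5 → ℝ) x * (![0, v, q, -q, -v] : Fin 5 → ℝ) y, ?_, ?_, ?_, ?_⟩
    · intro x y; ring
    · intro z; exact quad _ _ z
    · intro x
      fin_cases x
      · simp
        linarith
      · simp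
        nlinarith
      · simp
        nlinarith
      · simp
        nlinarith
      · simp
        nlinarith
    · have hA : ∀ j : Fin 5, 1 + (![p, u, -s, -s, u] : Fin 5 → ℝ) (j + 2) *
          (![p, u, -s, -s, u] : Fin 5 → ℝ) j +
          (![0, v, q, -q, -v] : Fin 5 → ℝ) (j + 2) * (![0, v, q, -q, -v] : Fin 5 → ℝ) j = 0 := by
        intro j
        fin_cases j
        · simp
          linarith
        · simp
          linarith
        · simp
          linarith
        · simp
          linarith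
        · simp
          linarith
      intro x y hxy
      rcases compl_adj' x y hxy with rfl | rfl
      · exact hA y
      · have := hA x
        dsimp only
        linarith
  · intro i
    fin_cases i <;> simp <;> assumption

end Pool.Agent.T2H87.CR
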