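import Pool.Agent.T2H87.CR.Stm

/-! # Project CR, package C5G: substitution in the pentagon with weights `(w0, w1, w2, w2, w1)` -/

set_option autoImplicit false

open Finset

namespace Pool.Agent.T2H87.CR

namespace PkgC5G

/-- the pentagon -/
def Pent : SimpleGraph (Fin 5) where
  Adj i j := j = i + 1 ∨ i = j + 1
  symm := ⟨fun _ _ h => h.symm⟩
  loopless := ⟨by intro i h; revert h; revert i; decide⟩

theorem vecW_of (G : SimpleGraph (Fin 5)) (w : Fin 5 → ℝ) (t : ℝ) (a b : Fin 5 → ℝ)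
    (hd : ∀ i, (1 + a i * a i + b i * b i) * w i ≤ t)
    (he : ∀ i j, G.Adj i j → 1 + a i * a j + b i * b j = 0) : VecW G w t := by
  refine ⟨fun i j => 1 + a i * a j + b i * b j, ?_, ?_, hd, he⟩
  · intro x y; ring
  · intro z
    simp only [Fin.sum_univ_five]
    nlinarith [sq_nonneg (a 0 * z 0 + a 1 * z 1 + a 2 * z 2 + a 3 * z 3 + a 4 * z 4),
      sq_nonneg (b 0 * z 0 + b 1 * z 1 + b 2 * z 2 + b 3 * z 3 + b 4 * z 4)]

theorem exists_vecs (w0 w1 w2 t : ℝ) (h0 : 0 < w0) (h1 : 0 < w1) (h2 : 0 < w2) (h0t : w0 < t)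
    (h2t : 2 * w2 < t) (hS : Star w0 w1 w2 t) :
    ∃ p r u v q : ℝ, (1 + p * p) * w0 ≤ t ∧ (1 + r * r + q * q) * w1 ≤ t ∧ (1 + u * u + v * v) * w2 ≤ t ∧
      1 - p * r = 0 ∧ 1 - r * u - q * v = 0 ∧ 1 + u * u - v * v = 0 := by
  have ht : 0 < t := h0.trans h0t
  have hp2 : 0 < t / w0 - 1 := by
    rw [sub_pos, one_lt_div h0]; exact h0t
  have hu2 : 0 < t / (2 * w2) - 1 := by
    rw [sub_pos, one_lt_div (by positivity)]; exact h2t
  set p := Real.sqrt (t / w0 - 1) with hp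
  set u := Real.sqrt (t / (2 * w2) - 1) with hu
  set v := Real.sqrt (t / (2 * w2)) with hv
  have hpp : p * p = t / w0 - 1 := Real.mul_self_sqrt hp2.le
  have huu : u * u = t / (2 * w2) - 1 := Real.mul_self_sqrt hu2.le
  have hvv : v * v = t / (2 * w2) := Real.mul_self_sqrt (by positivity)
  have hp0 : 0 < p := Real.sqrt_pos.2 hp2
  have hu0 : 0 < u := Real.sqrt_pos.2 hu2
  have hv0 : 0 < v := Real.sqrt_pos.2 (by positivity)
  have hd : 0 < t - w0 := by linarith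
  have hrr : 1 / p * (1 / p) = w0 / (t - w0) := by
    have : 1 / p * (1 / p) = 1 / (p * p) := by field_simp
    rw [this, hpp]; field_simp
  -- the main quantity
  have hB : 0 ≤ 4 * w1 * w2 * (t - w0) * (u / p) := by positivity
  have hB2 : (4 * w1 * w2 * (t - w0) * (u / p)) ^ 2 = 8 * w0 * w1 ^ 2 * w2 * (t - 2 * w2) * (t - w0) := by
    have e1 : (4 * w1 * w2 * (t - w0) * (u / p)) ^ 2 =
        16 * w1 ^ 2 * w2 ^ 2 * (t - w0) ^ 2 * ((u * u) * (1 / p * (1 / p))) := by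
      field_simp; ring
    rw [e1, huu, hrr]; field_simp; ring
  have hA : 2 * w0 * w1 * (t - w2) + w1 * (t + 2 * w2) * (t - w0) - t ^ 2 * (t - w0) ≤
      4 * w1 * w2 * (t - w0) * (u / p) := by
    rcases hS with h | h
    · exact h.trans hB
    · rw [← hB2] at h
      exact le_of_abs_le (abs_le_of_sq_le_sq h hB)
  refine ⟨p, 1 / p, u, v, (1 - u / p) / v, ?_, ?_, ?_, ?_, ?_, ?_⟩
  · rw [hpp]
    have : (1 + (t / w0 - 1)) * w0 = t := by field_simp; ring
    exact this.le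
  · have hqq : (1 - u / p) / v * ((1 - u / p) / v) =
        (1 - 2 * (u / p) + (u * u) * (1 / p * (1 / p))) / (v * v) := by
      field_simp; ring
    rw [hqq, huu, hvv, hrr]
    have key : t - (1 + w0 / (t - w0) +
        (1 - 2 * (u / p) + (t / (2 * w2) - 1) * (w0 / (t - w0))) / (t / (2 * w2))) * w1 =
        (4 * w1 * w2 * (t - w0) * (u / p) -
          (2 * w0 * w1 * (t - w2) + w1 * (t + 2 * w2) * (t - w0) - t ^ 2 * (t - w0))) /
          (t * (t - w0)) := by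
      field_simp
      ring
    have : 0 ≤ (4 * w1 * w2 * (t - w0) * (u / p) -
          (2 * w0 * w1 * (t - w2) + w1 * (t + 2 * w2) * (t - w0) - t ^ 2 * (t - w0))) /
          (t * (t - w0)) := div_nonneg (by linarith) (by positivity)
    linarith
  · rw [huu, hvv]
    have : (1 + (t / (2 * w2) - 1) + t / (2 * w2)) * w2 = t := by field_simp; ring
    exact this.le
  · field_simp; ring
  · field_simp; ring
  · rw [huu, hvv]; ring

theorem pent_vecW (w0 w1 w2 t : ℝ) (h0 : 0 < w0) (h1 : 0 < w1) (h2 : 0 < w2) (h0t : w0 < t)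
    (h2t : 2 * w2 < t) (hS : Star w0 w1 w2 t) : VecW Pent ![w0, w1, w2, w2, w1] t := by
  obtain ⟨p, r, u, v, q, e1, e2, e3, e4, e5, e6⟩ := exists_vecs w0 w1 w2 t h0 h1 h2 h0t h2t hS
  refine vecW_of _ _ _ ![p, -r, u, u, -r] ![0, q, -v, v, -q] ?_ ?_
  · intro i
    fin_cases i <;> simp <;> nlinarith
  · intro i j hij
    rcases hij with h | h
    · subst h
      fin_cases i <;> simp <;> nlinarith
    · subst h
      fin_cases j <;> simp <;> nlinarith

theorem compl_adj (i j : Fin 5) (h : Pentᶜ.Adj i j) : Pent.Adj (3 * i) (3 * j) := by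
  rw [SimpleGraph.compl_adj] at h
  obtain ⟨h1, h2⟩ := h
  have h3 : ¬ (j = i + 1 ∨ i = j + 1) := h2
  show 3 * j = 3 * i + 1 ∨ 3 * i = 3 * j + 1
  clear h2
  revert i j
  decide

theorem compl_vecW (w0 w1 w2 t : ℝ) (h : VecW Pent ![w0, w2, w1, w1, w2] t) :
    VecW Pentᶜ ![w0, w1, w2, w2, w1] t := by
  obtain ⟨M, m1, m2, m3, m4⟩ := h
  refine ⟨fun i j => M (3 * i) (3 * j), fun _ _ => m1 _ _, ?_, ?_, ?_⟩
  · intro z
    have := m2 (fun i => z (2 * i))
    simp only [Fin.sum_univ_five] at this ⊢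
    have e1 : (2 : Fin 5) * 0 = 0 := by decide
    have e2 : (2 : Fin 5) * 1 = 2 := by decide
    have e3 : (2 : Fin 5) * 2 = 4 := by decide
    have e4 : (2 : Fin 5) * 3 = 1 := by decide
    have e5 : (2 : Fin 5) * 4 = 3 := by decide
    have f1 : (3 : Fin 5) * 0 = 0 := by decide
    have f2 : (3 : Fin 5) * 1 = 3 := by decide
    have f3 : (3 : Fin 5) * 2 = 1 := by decide
    have f4 : (3 : Fin 5) * 3 = 4 := by decide
    have f5 : (3 : Fin 5) * 4 = 2 := by decide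
    simp only [e1, e2, e3, e4, e5, f1, f2, f3, f4, f5] at this ⊢
    nlinarith [this]
  · intro i
    have := m3 (3 * i)
    fin_cases i <;> simpa using this
  · intro i j hij
    exact m4 _ _ (compl_adj i j hij)

end PkgC5G

open PkgC5G in
theorem pC5G (hSUB : S_SUB) : S_C5G := by
  intro h0 h1 h2 w0 w1 w2 t p0 p1 p2 l0 l1 l2 s1 s2 g0 g1 g2
  have a := pent_vecW w0 w1 w2 t p0 p1 p2 l0 l2 s1
  have b := compl_vecW w0 w1 w2 t (pent_vecW w0 w2 w1 t p0 p2 p1 l0 l1 s2)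
  have c := hSUB 5 Pent ![h0, h1, h2, h2, h1] ![w0, w1, w2, w2, w1] t
    (by intro i; fin_cases i <;> simp [p0, p1, p2]) a b
    (by intro i; fin_cases i <;> simp [g0, g1, g2])
  have e : ∑ i, (![h0, h1, h2, h2, h1] : Fin 5 → ℕ) i = h0 + 2 * h1 + 2 * h2 := by
    simp [Fin.sum_univ_five]; ring
  rwa [e] at c

end Pool.Agent.T2H87.CR
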