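import Pool.Agent.T2H87.CR.Stm

set_option autoImplicit false

open Finset

namespace Pool.Agent.T2H87.CR

namespace PkgCIRC

lemma core {X : Type} [Fintype X] [DecidableEq X] [AddCommGroup X] (e : X → ℝ) (S : X → Bool)
    (he : ∀ d, e (-d) = e d) (hS : ∀ d, S (-d) = S d)
    (hpsd : ∀ z : X → ℝ, 0 ≤ ∑ i, ∑ j, e (j - i) * z i * z j) (t : ℝ)
    (ht : 1 + e 0 + ∑ d, (if d ≠ 0 ∧ S d = true then |1 + e d| else 0) ≤ t)
    (G : SimpleGraph X) (hG : ∀ i j, G.Adj i j → i ≠ j ∧ S (j - i) = true) : Vec G t := by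
  classical
  set a : X → ℝ := fun d => if d ≠ 0 ∧ S d = true then 1 + e d else 0 with ha
  have habs : ∀ d, (if d ≠ 0 ∧ S d = true then |1 + e d| else 0) = |a d| := by
    intro d
    simp only [ha]
    split_ifs <;> simp
  simp only [habs] at ht
  set E := ∑ d, |a d| with hE
  have ha0 : a 0 = 0 := by simp [ha]
  have hneg : ∀ d, a (-d) = a d := by
    intro d
    simp only [ha, hS, he, neg_ne_zero]
  refine ⟨fun i j => 1 + e (j - i) - a (j - i) + (if i = j then E else 0), ?_, ?_, ?_, ?_⟩
  · intro x y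
    have h1 : e (y - x) = e (x - y) := by rw [← he (x - y), neg_sub]
    have h2 : a (y - x) = a (x - y) := by rw [← hneg (x - y), neg_sub]
    have h3 : (if x = y then E else 0) = if y = x then E else 0 := by
      by_cases h : x = y
      · simp [h]
      · rw [if_neg h, if_neg (Ne.symm h)]
    change 1 + e (y - x) - a (y - x) + (if x = y then E else 0) =
      1 + e (x - y) - a (x - y) + (if y = x then E else 0)
    rw [h1, h2, h3]
  · intro z
    have e1 : ∑ x, ∑ y, (1 + e (y - x) - a (y - x) + (if x = y then E else 0)) * z x * z y =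
        (∑ x, z x) ^ 2 + ∑ x, ∑ y, e (y - x) * z x * z y - ∑ x, ∑ y, a (y - x) * z x * z y +
          E * ∑ x, z x ^ 2 := by
      have f1 : (∑ x, z x) ^ 2 = ∑ x, ∑ y, z x * z y := by
        rw [sq, Finset.sum_mul_sum]
      have f2 : E * ∑ x, z x ^ 2 = ∑ x, ∑ y, (if x = y then E else 0) * z x * z y := by
        rw [Finset.mul_sum]
        refine Finset.sum_congr rfl fun x _ => ?_
        rw [Finset.sum_eq_single x]
        · simp; ring
        · intro y _ hy
          simp [Ne.symm hy]
        · simp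
      rw [f1, f2, ← Finset.sum_add_distrib, ← Finset.sum_sub_distrib, ← Finset.sum_add_distrib]
      refine Finset.sum_congr rfl fun x _ => ?_
      rw [← Finset.sum_add_distrib, ← Finset.sum_sub_distrib, ← Finset.sum_add_distrib]
      refine Finset.sum_congr rfl fun y _ => ?_
      ring
    have e2 : ∑ x, ∑ y, a (y - x) * z x * z y ≤ E * ∑ x, z x ^ 2 := by
      have g1 : ∑ x, ∑ y, a (y - x) * z x * z y = ∑ d, ∑ x, a d * z x * z (d + x) := by
        rw [Finset.sum_comm]
        rw [Finset.sum_comm]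
        have : ∀ x, ∑ y, a (y - x) * z x * z y = ∑ d, a d * z x * z (d + x) := by
          intro x
          rw [← Equiv.sum_comp (Equiv.addRight x)]
          refine Finset.sum_congr rfl fun d _ => ?_
          simp
        rw [Finset.sum_congr rfl fun x _ => this x, Finset.sum_comm]
      rw [g1, hE, Finset.sum_mul]
      refine Finset.sum_le_sum fun d _ => ?_
      have g2 : ∑ x, z (d + x) ^ 2 = ∑ x, z x ^ 2 :=
        Equiv.sum_comp (Equiv.addLeft d) fun x => z x ^ 2
      have g3 : ∀ x, a d * z x * z (d + x) ≤ |a d| * (z x ^ 2 + z (d + x) ^ 2) / 2 := by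
        intro x
        have h1 : a d * z x * z (d + x) ≤ |a d * (z x * z (d + x))| := by
          rw [mul_assoc]; exact le_abs_self _
        rw [abs_mul] at h1
        have h2 : |z x * z (d + x)| ≤ (z x ^ 2 + z (d + x) ^ 2) / 2 := by
          rw [abs_le]
          constructor <;> nlinarith [sq_nonneg (z x - z (d + x)), sq_nonneg (z x + z (d + x))]
        have h3 := mul_le_mul_of_nonneg_left h2 (abs_nonneg (a d))
        linarith
      refine (Finset.sum_le_sum fun x _ => g3 x).trans (le_of_eq ?_)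
      rw [← Finset.sum_div, ← Finset.mul_sum, Finset.sum_add_distrib, g2]
      ring
    have e3 := hpsd z
    rw [e1]
    linarith
  · intro x
    simp only [sub_self, ha0, if_true]
    linarith
  · intro x y hxy
    obtain ⟨h1, h2⟩ := hG x y hxy
    have h3 : y - x ≠ 0 := sub_ne_zero.2 (Ne.symm h1)
    simp [ha, h1, h2, h3]

variable {m : ℕ}

/-- the list as a function on `Fin (m + 1)` -/
def gz (g : List ℤ) (x : Fin (m + 1)) : ℤ := g.getD x.val 0

lemma ac_eq (g : List ℤ) (hg : g.length = m + 1) (d : Fin (m + 1)) :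
    ac g d.val = ∑ k : Fin (m + 1), gz g k * gz g (k + d) := by
  unfold ac
  have : List.zipWith (fun a b => a * b) g (g.rotate d.val) =
      List.ofFn (fun k : Fin (m + 1) => gz g k * gz g (k + d)) := by
    apply List.ext_getElem
    · simp [hg]
    · intro i h1 h2
      have hi : i < m + 1 := by simpa using h2
      rw [List.getElem_zipWith, List.getElem_ofFn, List.getElem_rotate]
      unfold gz
      rw [List.getD_eq_getElem _ _ (by simpa [hg] using hi)]
      rw [List.getD_eq_getElem _ _ (by rw [hg]; exact Fin.isLt _)]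
      simp only [Fin.val_add, hg]
  rw [this, List.sum_ofFn]

lemma ac_shift (g : List ℤ) (i j : Fin (m + 1)) :
    ∑ k : Fin (m + 1), gz g k * gz g (k + (j - i)) = ∑ k : Fin (m + 1), gz g (k + i) * gz g (k + j) := by
  rw [← Equiv.sum_comp (Equiv.addRight i)]
  refine Finset.sum_congr rfl fun k _ => ?_
  simp only [Equiv.coe_addRight]
  congr 2
  abel

lemma half (n D W : ℕ) (s : List Bool) (g : List ℤ) (hn : n = m + 1) (hD : 0 < D)
    (h : circOK n D W s g = true) (G : SimpleGraph (Fin (m + 1)))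
    (hG : ∀ i j, G.Adj i j → i ≠ j ∧ s.getD (j - i).val false = true) :
    Vec G ((W : ℝ) / 10 ^ 8) := by
  subst hn
  unfold circOK at h
  simp only [Bool.and_eq_true, decide_eq_true_eq, List.all_eq_true, List.mem_range,
    Bool.or_eq_true, beq_iff_eq] at h
  obtain ⟨⟨⟨hgl, hsl⟩, hsym⟩, hineq⟩ := h
  have hD0 : (0 : ℝ) < (D : ℝ) ^ 2 := by positivity
  refine core (fun d => (ac g d.val : ℝ) / (D : ℝ) ^ 2) (fun d => s.getD d.val false) ?_ ?_ ?_ _ ?_ G hG
  · intro d
    have : ac g (-d).val = ac g d.val := by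
      rw [ac_eq g hgl, ac_eq g hgl]
      have h1 := ac_shift g d 0
      have h2 := ac_shift g 0 d
      rw [zero_sub] at h1
      rw [sub_zero] at h2
      rw [h1, h2]
      exact Finset.sum_congr rfl fun k _ => mul_comm _ _
    simp only [this]
  · intro d
    by_cases hd : d = 0
    · simp [hd]
    · have hdv : d.val ≠ 0 := fun h => hd (Fin.ext (by simpa using h))
      have h1 : (-d).val = m + 1 - d.val := by
        rw [Fin.val_neg']
        exact Nat.mod_eq_of_lt (by omega)
      have h2 := (hsym d.val d.isLt).resolve_left hdv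
      simp only [h1]
      exact h2.symm
  · intro z
    have : ∑ i, ∑ j, (ac g (j - i).val : ℝ) / (D : ℝ) ^ 2 * z i * z j =
        (∑ k, (∑ i, (gz g (k + i) : ℝ) * z i) ^ 2) / (D : ℝ) ^ 2 := by
      have h1 : ∀ i j : Fin (m + 1), (ac g (j - i).val : ℝ) =
          ∑ k, (gz g (k + i) : ℝ) * (gz g (k + j) : ℝ) := by
        intro i j
        rw [ac_eq g hgl, ac_shift]
        push_cast
        rfl
      simp only [h1]
      rw [Finset.sum_div]
      have h2 : ∀ k, (∑ i, (gz g (k + i) : ℝ) * z i) ^ 2 / (D : ℝ) ^ 2 =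
          ∑ i, ∑ j, (gz g (k + i) : ℝ) * (gz g (k + j) : ℝ) / (D : ℝ) ^ 2 * z i * z j := by
        intro k
        rw [sq, Finset.sum_mul_sum, Finset.sum_div]
        refine Finset.sum_congr rfl fun i _ => ?_
        rw [Finset.sum_div]
        refine Finset.sum_congr rfl fun j _ => ?_
        ring
      rw [Finset.sum_congr rfl fun k _ => h2 k]
      refine Eq.trans ?_ Finset.sum_comm
      refine Finset.sum_congr rfl fun i _ => ?_
      refine Eq.trans ?_ Finset.sum_comm
      refine Finset.sum_congr rfl fun j _ => ?_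
      rw [Finset.sum_div, Finset.sum_mul, Finset.sum_mul]
    rw [this]
    positivity
  · have hsum : ((List.range (m + 1)).map fun d =>
        if d ≠ 0 ∧ s.getD d false = true then |(D : ℤ) ^ 2 + ac g d| else 0).sum =
        ∑ d : Fin (m + 1), if d ≠ 0 ∧ s.getD d.val false = true then
          |(D : ℤ) ^ 2 + ac g d.val| else 0 := by
      have h0 : ∀ F : ℕ → ℤ, ((List.range (m + 1)).map F).sum = ∑ d : Fin (m + 1), F d.val := by
        intro F
        rw [← Finset.sum_range]
        rfl
      rw [h0]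
      refine Finset.sum_congr rfl fun d _ => ?_
      have : (d.val ≠ 0) ↔ (d ≠ 0) := by
        rw [ne_eq, ne_eq, Fin.ext_iff]
        simp
      simp only [this]
    rw [hsum] at hineq
    have hreal : (((D : ℝ) ^ 2 + (ac g 0 : ℝ) + ∑ d : Fin (m + 1),
        if d ≠ 0 ∧ s.getD d.val false = true then |(D : ℝ) ^ 2 + (ac g d.val : ℝ)| else 0)) * 10 ^ 8 ≤
        W * (D : ℝ) ^ 2 := by
      have := (Int.cast_le (R := ℝ)).2 hineq
      push_cast at this
      have h5 : ((10 : ℝ) ^ 8) = 100000000 := by norm_num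
      rw [h5]
      exact this
    have hsum2 : ∑ d : Fin (m + 1), (if d ≠ 0 ∧ s.getD d.val false = true then
        |1 + (ac g d.val : ℝ) / (D : ℝ) ^ 2| else 0) =
        (∑ d : Fin (m + 1), if d ≠ 0 ∧ s.getD d.val false = true then
          |(D : ℝ) ^ 2 + (ac g d.val : ℝ)| else 0) / (D : ℝ) ^ 2 := by
      rw [Finset.sum_div]
      refine Finset.sum_congr rfl fun d _ => ?_
      split_ifs
      · rw [← abs_of_pos hD0, ← abs_div, abs_of_pos hD0]
        congr 1
        field_simp
      · simp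
    change 1 + (ac g (0 : Fin (m + 1)).val : ℝ) / (D : ℝ) ^ 2 + _ ≤ _
    rw [hsum2, Fin.val_zero]
    rw [le_div_iff₀ (by positivity)]
    have h3 : (1 + (ac g 0 : ℝ) / (D : ℝ) ^ 2 + (∑ d : Fin (m + 1),
        if d ≠ 0 ∧ s.getD d.val false = true then |(D : ℝ) ^ 2 + (ac g d.val : ℝ)| else 0) /
          (D : ℝ) ^ 2) * 10 ^ 8 = (((D : ℝ) ^ 2 + (ac g 0 : ℝ) + ∑ d : Fin (m + 1),
        if d ≠ 0 ∧ s.getD d.val false = true then |(D : ℝ) ^ 2 + (ac g d.val : ℝ)| else 0) * 10 ^ 8) /
          (D : ℝ) ^ 2 := by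
      field_simp
    rw [h3, div_le_iff₀ hD0]
    exact hreal

end PkgCIRC

open PkgCIRC in
theorem pCIRC : S_CIRC := by
  intro n D W s g g' hn hD h h'
  obtain ⟨m, rfl⟩ : ∃ m, n = m + 1 := ⟨n - 1, by omega⟩
  have hs : s.length = m + 1 ∧ ∀ d < m + 1, d = 0 ∨ s.getD d false = s.getD (m + 1 - d) false := by
    unfold circOK at h
    simp only [Bool.and_eq_true, decide_eq_true_eq, List.all_eq_true, List.mem_range,
      Bool.or_eq_true, beq_iff_eq] at h
    exact ⟨h.1.1.2, h.1.2⟩
  obtain ⟨hsl, hsym⟩ := hs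
  have hneg : ∀ d : Fin (m + 1), s.getD (-d).val false = s.getD d.val false := by
    intro d
    by_cases hd : d = 0
    · simp [hd]
    · have hdv : d.val ≠ 0 := fun h => hd (Fin.ext (by simpa using h))
      have h1 : (-d).val = m + 1 - d.val := by
        rw [Fin.val_neg']
        exact Nat.mod_eq_of_lt (by omega)
      rw [h1]
      exact ((hsym d.val d.isLt).resolve_left hdv).symm
  set G : SimpleGraph (Fin (m + 1)) :=
    ⟨fun i j => i ≠ j ∧ s.getD (j - i).val false = true,
      ⟨fun i j hij => ⟨hij.1.symm, by rw [← neg_sub, hneg]; exact hij.2⟩⟩,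
      ⟨fun i hi => hi.1 rfl⟩⟩ with hG
  refine ⟨G, half (m + 1) D W s g rfl hD h G fun i j hij => hij, ?_⟩
  refine half (m + 1) D W _ g' rfl hD h' Gᶜ fun i j hij => ?_
  rw [SimpleGraph.compl_adj] at hij
  refine ⟨hij.1, ?_⟩
  have h1 : ¬ (i ≠ j ∧ s.getD (j - i).val false = true) := hij.2
  have h2 : s.getD (j - i).val false = false := by
    rw [Bool.eq_false_iff]
    intro h3
    exact h1 ⟨hij.1, h3⟩
  have hlt : (j - i).val < s.length := by rw [hsl]; exact Fin.isLt _
  rw [List.getD_eq_getElem _ _ hlt] at h2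
  rw [List.getD_eq_getElem _ _ (by simpa using hlt), List.getElem_map, h2]
  rfl

end Pool.Agent.T2H87.CR
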