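import Pool.Agent.T2H87.CR.Stm

set_option autoImplicit false

open Finset

namespace Pool.Agent.T2H87.CR

namespace PkgGAP

lemma par {a b : ℕ} (h : (a + b) % 2 = 1) : (a ^ 2 + b ^ 2) % 2 = 1 := by
  rcases Nat.mod_two_eq_zero_or_one a with ha | ha <;>
  rcases Nat.mod_two_eq_zero_or_one b with hb | hb <;>
  simp [Nat.add_mod, Nat.pow_mod, ha, hb] at h ⊢

/-- the nearest square of the right parity -/
lemma near (a r : ℕ) (hr : r ≤ 2 * a) (ha : 447 ≤ a) : ∃ b d : ℕ, (a + b) % 2 = 1 ∧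
    |(r : ℤ) - (b : ℤ) ^ 2| ≤ d ∧ (5 * d + 5) ^ 2 ≤ 225 * a := by
  have key : ∀ b0 : ℕ, (a + b0) % 2 = 1 → b0 * b0 ≤ r → r < (b0 + 2) * (b0 + 2) →
      ∃ b d : ℕ, (a + b) % 2 = 1 ∧ |(r : ℤ) - (b : ℤ) ^ 2| ≤ d ∧ (5 * d + 5) ^ 2 ≤ 225 * a := by
    intro b0 hp h1 h2
    have h3 : 12 * b0 + 9 ≤ a := by
      by_contra hcon
      have h4 : 37 ≤ b0 := by omega
      have h5 : 37 * b0 ≤ b0 * b0 := Nat.mul_le_mul_right _ h4
      omega
    have h4 : (5 * (2 * b0 + 2) + 5) ^ 2 ≤ 225 * a := by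
      have : (5 * (2 * b0 + 2) + 5) ^ 2 = 100 * (b0 * b0) + 300 * b0 + 225 := by ring
      rw [this]
      omega
    have h1' : (b0 : ℤ) * b0 ≤ r := by exact_mod_cast h1
    have h2' : (r : ℤ) < (b0 + 2) * (b0 + 2) := by exact_mod_cast h2
    by_cases hc : (r : ℤ) - b0 * b0 ≤ 2 * b0 + 2
    · refine ⟨b0, 2 * b0 + 2, hp, ?_, h4⟩
      rw [abs_of_nonneg (by nlinarith)]
      push_cast
      nlinarith
    · refine ⟨b0 + 2, 2 * b0 + 2, by omega, ?_, h4⟩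
      push_cast
      rw [abs_of_nonpos (by nlinarith)]
      nlinarith
  have hs1 := Nat.sqrt_le r
  have hs2 := Nat.lt_succ_sqrt r
  simp only [Nat.succ_eq_add_one] at hs2
  by_cases hp : (a + Nat.sqrt r) % 2 = 1
  · exact key (Nat.sqrt r) hp hs1 (lt_of_lt_of_le hs2 (Nat.mul_le_mul (by omega) (by omega)))
  · rcases Nat.eq_zero_or_pos (Nat.sqrt r) with h0 | h0
    · have hr0 : r = 0 := by
        rw [h0] at hs2
        omega
      rw [h0] at hp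
      refine ⟨1, 1, by omega, ?_, by omega⟩
      rw [hr0]
      norm_num
    · obtain ⟨s, hs⟩ : ∃ s, Nat.sqrt r = s + 1 := ⟨Nat.sqrt r - 1, by omega⟩
      rw [hs] at hs1 hs2 hp
      refine key s (by omega) (le_trans (Nat.mul_le_mul (by omega) (by omega)) hs1) ?_
      exact hs2

end PkgGAP

open PkgGAP in
theorem pGAP : S_GAP := by
  intro x hx
  have h1 := Nat.sqrt_le x
  have h2 := Nat.lt_succ_sqrt x
  simp only [Nat.succ_eq_add_one] at h2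
  have ha : 447 ≤ Nat.sqrt x := by
    by_contra hcon
    have : (Nat.sqrt x + 1) * (Nat.sqrt x + 1) ≤ 447 * 447 :=
      Nat.mul_le_mul (by omega) (by omega)
    omega
  set a := Nat.sqrt x with hadef
  obtain ⟨b, d, hp, hd, hb⟩ := near a (x - a * a) (by
    have : (a + 1) * (a + 1) = a * a + 2 * a + 1 := by ring
    omega) ha
  refine ⟨a, b, par hp, ?_⟩
  have e1 : ((x - a * a : ℕ) : ℤ) = (x : ℤ) - a * a := by
    rw [Nat.cast_sub h1]; push_cast; rfl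
  rw [e1] at hd
  have hd' : |(x : ℝ) - ((a ^ 2 + b ^ 2 : ℕ) : ℝ)| ≤ d := by
    have h3 : |(x : ℤ) - ((a ^ 2 + b ^ 2 : ℕ) : ℤ)| ≤ d := by
      have : (x : ℤ) - ((a ^ 2 + b ^ 2 : ℕ) : ℤ) = (x : ℤ) - a * a - (b : ℤ) ^ 2 := by
        push_cast; ring
      rw [this]
      exact hd
    have h4 : ((|(x : ℤ) - ((a ^ 2 + b ^ 2 : ℕ) : ℤ)| : ℤ) : ℝ) ≤ ((d : ℤ) : ℝ) := by
      exact_mod_cast h3
    rw [Int.cast_abs] at h4
    push_cast at h4 ⊢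
    exact h4
  have hb' : ((5 : ℝ) * d + 5) ^ 2 ≤ 225 * a := by exact_mod_cast hb
  have hs : (a : ℝ) ≤ Real.sqrt x := Real.nat_sqrt_le_real_sqrt
  have h0 : 0 ≤ |(x : ℝ) - ((a ^ 2 + b ^ 2 : ℕ) : ℝ)| := abs_nonneg _
  have h5 : (5 * |(x : ℝ) - ((a ^ 2 + b ^ 2 : ℕ) : ℝ)| + 5) ^ 2 ≤ (5 * (d : ℝ) + 5) ^ 2 := by
    apply pow_le_pow_left₀ (by positivity)
    linarith
  linarith

end Pool.Agent.T2H87.CR
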