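import Pool.Agent.T2H87.CR.Stm

set_option autoImplicit false

open Finset

namespace Pool.Agent.T2H87.CR

namespace PkgMAT

lemma sum_range_list {M : Type} [AddCommMonoid M] (f : ℕ → M) (n : ℕ) :
    ((List.range n).map f).sum = ∑ i ∈ Finset.range n, f i := by
  induction n with
  | zero => simp
  | succ n ih => simp [List.range_succ, Finset.sum_range_succ, ih]

lemma dotL_eq : ∀ (a b : List ℤ) (L : ℕ), a.length ≤ L →
    dotL a b = ∑ k ∈ Finset.range L, a.getD k 0 * b.getD k 0
  | [], b, L, _ => by simp [dotL]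
  | x :: a, [], L, _ => by simp [dotL]
  | x :: a, y :: b, 0, h => by simp at h
  | x :: a, y :: b, L + 1, h => by
    have ih := dotL_eq a b L (by simpa using h)
    rw [Finset.sum_range_succ']
    simp only [List.getD_cons_succ, List.getD_cons_zero]
    rw [← ih]
    simp [dotL, add_comm]

/-- the graph -/
def gr (n : ℕ) (s : ℕ → ℕ → Bool) (hs : ∀ i j : ℕ, i < n → j < n → s i j = s j i) :
    SimpleGraph (Fin n) where
  Adj i j := i ≠ j ∧ s i j = true
  symm := ⟨fun i j h => ⟨h.1.symm, by rw [hs j i j.2 i.2]; exact h.2⟩⟩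
  loopless := ⟨fun _ h => h.1 rfl⟩

lemma vec_of (n D W : ℕ) (s : ℕ → ℕ → Bool) (G : List (List ℤ)) (hD : 0 < D)
    (hs : ∀ i j : ℕ, i < n → j < n → s i j = s j i)
    (h : ∀ i < n, ((D : ℤ) ^ 2 + dotL (G.getD i []) (G.getD i []) +
    ((List.range n).map fun j =>
      if j ≠ i ∧ s i j = true then |(D : ℤ) ^ 2 + dotL (G.getD i []) (G.getD j [])| else 0).sum)
        * 10 ^ 8 ≤ W * D ^ 2) : Vec (gr n s hs) ((W : ℝ) / 10 ^ 8) := by
  classical
  have hDR : (0 : ℝ) < (D : ℝ) ^ 2 := by positivity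
  -- Gram coefficients
  let L : ℕ := ∑ i ∈ Finset.range n, (G.getD i []).length
  have hL : ∀ i < n, (G.getD i []).length ≤ L := fun i hi =>
    Finset.single_le_sum (f := fun i => (G.getD i []).length) (fun _ _ => Nat.zero_le _)
      (Finset.mem_range.2 hi)
  let g : Fin n → ℕ → ℝ := fun i k => (((G.getD i []).getD k 0 : ℤ) : ℝ)
  let c : Fin n → Fin n → ℝ := fun i j => ((dotL (G.getD i []) (G.getD j []) : ℤ) : ℝ)
  have hc : ∀ i j, c i j = ∑ k ∈ Finset.range L, g i k * g j k := by
    intro i j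
    show ((dotL (G.getD i []) (G.getD j []) : ℤ) : ℝ) = _
    rw [dotL_eq _ _ L (hL i i.2)]
    push_cast
    rfl
  have hcs : ∀ i j, c i j = c j i := by
    intro i j
    rw [hc, hc]
    exact Finset.sum_congr rfl fun k _ => mul_comm _ _
  -- edge weights
  let e : Fin n → Fin n → ℝ := fun i j =>
    if j ≠ i ∧ s i j = true then ((D : ℝ) ^ 2 + c i j) / (D : ℝ) ^ 2 else 0
  have hes : ∀ i j, e i j = e j i := by
    intro i j
    show (if _ then _ else _) = (if _ then _ else _)
    rw [hs i j i.2 j.2, hcs i j]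
    simp only [ne_comm]
  let M : Fin n → Fin n → ℝ := fun i j =>
    1 + c i j / (D : ℝ) ^ 2 - e i j + if i = j then ∑ k, |e i k| else 0
  refine ⟨M, ?_, ?_, ?_, ?_⟩
  · intro i j
    show 1 + c i j / (D : ℝ) ^ 2 - e i j + _ = 1 + c j i / (D : ℝ) ^ 2 - e j i + _
    rw [hcs i j, hes i j]
    by_cases hij : i = j
    · rw [hij]
    · rw [if_neg hij, if_neg (Ne.symm hij)]
  · intro z
    -- expand
    have hJ : ∑ x, ∑ y, z x * z y = (∑ x, z x) ^ 2 := by
      rw [sq, Finset.sum_mul_sum]
    have hC : 0 ≤ ∑ x, ∑ y, c x y * z x * z y := by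
      have : ∑ x, ∑ y, c x y * z x * z y = ∑ k ∈ Finset.range L, (∑ x, g x k * z x) ^ 2 := by
        calc ∑ x, ∑ y, c x y * z x * z y
            = ∑ x, ∑ y, ∑ k ∈ Finset.range L, (g x k * z x) * (g y k * z y) := by
              refine Finset.sum_congr rfl fun x _ => Finset.sum_congr rfl fun y _ => ?_
              rw [hc, Finset.sum_mul, Finset.sum_mul]
              exact Finset.sum_congr rfl fun k _ => by ring
          _ = ∑ x, ∑ k ∈ Finset.range L, ∑ y, (g x k * z x) * (g y k * z y) :=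
              Finset.sum_congr rfl fun x _ => Finset.sum_comm
          _ = ∑ k ∈ Finset.range L, ∑ x, ∑ y, (g x k * z x) * (g y k * z y) := Finset.sum_comm
          _ = _ := by
              refine Finset.sum_congr rfl fun k _ => ?_
              rw [sq, Finset.sum_mul_sum]
      rw [this]
      exact Finset.sum_nonneg fun k _ => sq_nonneg _
    have hE : ∑ x, ∑ y, e x y * z x * z y ≤ ∑ x, (∑ k, |e x k|) * z x ^ 2 := by
      have h1 : ∑ x, ∑ y, e x y * z x * z y ≤
          ∑ x, ∑ y, (|e x y| * z x ^ 2 / 2 + |e x y| * z y ^ 2 / 2) := by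
        refine Finset.sum_le_sum fun x _ => Finset.sum_le_sum fun y _ => ?_
        have h2 : e x y * z x * z y ≤ |e x y| * |z x| * |z y| := by
          rw [← abs_mul, ← abs_mul]; exact le_abs_self _
        have h3 : |e x y| * |z x| * |z y| ≤ |e x y| * ((|z x| ^ 2 + |z y| ^ 2) / 2) := by
          rw [mul_assoc]
          refine mul_le_mul_of_nonneg_left ?_ (abs_nonneg _)
          nlinarith [sq_nonneg (|z x| - |z y|)]
        rw [sq_abs, sq_abs] at h3
        linarith
      have h4 : ∑ x, ∑ y, |e x y| * z y ^ 2 / 2 = ∑ x, ∑ y, |e x y| * z x ^ 2 / 2 := by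
        rw [Finset.sum_comm]
        refine Finset.sum_congr rfl fun x _ => Finset.sum_congr rfl fun y _ => ?_
        rw [hes y x]
      have h5 : ∑ x, ∑ y, (|e x y| * z x ^ 2 / 2 + |e x y| * z y ^ 2 / 2) =
          ∑ x, (∑ k, |e x k|) * z x ^ 2 := by
        simp only [Finset.sum_add_distrib]
        rw [h4, ← Finset.sum_add_distrib]
        refine Finset.sum_congr rfl fun x _ => ?_
        rw [← Finset.sum_add_distrib, Finset.sum_mul]
        refine Finset.sum_congr rfl fun y _ => ?_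
        ring
      rw [← h5]
      exact h1
    have hdiag : ∑ x, ∑ y, (if x = y then ∑ k, |e x k| else 0) * z x * z y =
        ∑ x, (∑ k, |e x k|) * z x ^ 2 := by
      refine Finset.sum_congr rfl fun x _ => ?_
      rw [Finset.sum_eq_single x]
      · rw [if_pos rfl]; ring
      · intro y _ hy
        rw [if_neg (Ne.symm hy)]; ring
      · intro hx; exact absurd (Finset.mem_univ x) hx
    have hM : ∑ x, ∑ y, M x y * z x * z y = ∑ x, ∑ y, z x * z y +
        (∑ x, ∑ y, c x y * z x * z y) / (D : ℝ) ^ 2 - ∑ x, ∑ y, e x y * z x * z y +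
        ∑ x, ∑ y, (if x = y then ∑ k, |e x k| else 0) * z x * z y := by
      rw [Finset.sum_div, ← Finset.sum_add_distrib, ← Finset.sum_sub_distrib,
        ← Finset.sum_add_distrib]
      refine Finset.sum_congr rfl fun x _ => ?_
      rw [Finset.sum_div, ← Finset.sum_add_distrib, ← Finset.sum_sub_distrib,
        ← Finset.sum_add_distrib]
      refine Finset.sum_congr rfl fun y _ => ?_
      show (1 + c x y / (D : ℝ) ^ 2 - e x y + if x = y then ∑ k, |e x k| else 0) * z x * z y = _
      ring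
    rw [hM, hJ, hdiag]
    have : 0 ≤ (∑ x, ∑ y, c x y * z x * z y) / (D : ℝ) ^ 2 := div_nonneg hC hDR.le
    linarith
  · intro x
    have hx := h x x.2
    have exx : e x x = 0 := by
      show (if _ then _ else _) = _
      rw [if_neg]
      simp
    have hsum : ∑ k, |e x k| = ((((List.range n).map fun j =>
        if j ≠ (x : ℕ) ∧ s x j = true then |(D : ℤ) ^ 2 + dotL (G.getD x []) (G.getD j [])|
          else 0).sum : ℤ) : ℝ) / (D : ℝ) ^ 2 := by
      rw [sum_range_list, Finset.sum_range, Int.cast_sum, Finset.sum_div]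
      refine Finset.sum_congr rfl fun k _ => ?_
      show |if _ then _ else _| = _
      by_cases hk : k ≠ x ∧ s x k = true
      · rw [if_pos hk, if_pos ⟨fun h => hk.1 (Fin.ext h), hk.2⟩, abs_div, abs_of_pos hDR]
        push_cast
        rfl
      · rw [if_neg hk, if_neg (fun h => hk ⟨fun h' => h.1 (by rw [h']), h.2⟩)]
        simp
    show 1 + c x x / (D : ℝ) ^ 2 - e x x + (if x = x then ∑ k, |e x k| else 0) ≤ _
    rw [exx, if_pos rfl, hsum]
    have h2 : (((D : ℤ) ^ 2 + dotL (G.getD x []) (G.getD x []) +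
    ((List.range n).map fun j =>
      if j ≠ (x : ℕ) ∧ s x j = true then |(D : ℤ) ^ 2 + dotL (G.getD x []) (G.getD j [])| else 0).sum : ℤ)
        : ℝ) * 10 ^ 8 ≤ W * D ^ 2 := by exact_mod_cast hx
    rw [Int.cast_add, Int.cast_add, Int.cast_pow, Int.cast_natCast] at h2
    rw [le_div_iff₀ (by positivity : (0 : ℝ) < 10 ^ 8)]
    have h3 : (1 + c x x / (D : ℝ) ^ 2 - 0 + ((((List.range n).map fun j =>
        if j ≠ (x : ℕ) ∧ s x j = true then |(D : ℤ) ^ 2 + dotL (G.getD x []) (G.getD j [])|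
          else 0).sum : ℤ) : ℝ) / (D : ℝ) ^ 2) * 10 ^ 8 =
        ((D : ℝ) ^ 2 + c x x + ((((List.range n).map fun j =>
        if j ≠ (x : ℕ) ∧ s x j = true then |(D : ℤ) ^ 2 + dotL (G.getD x []) (G.getD j [])|
          else 0).sum : ℤ) : ℝ)) * 10 ^ 8 / (D : ℝ) ^ 2 := by
      field_simp
      ring
    rw [h3, div_le_iff₀ hDR]
    exact h2
  · intro x y hxy
    obtain ⟨h1, h2⟩ := hxy
    show 1 + c x y / (D : ℝ) ^ 2 - (if _ then _ else _) + (if x = y then ∑ k, |e x k| else 0) = 0
    rw [if_pos ⟨h1.symm, h2⟩, if_neg h1]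
    field_simp
    ring

end PkgMAT

open PkgMAT in
theorem pMAT : S_MAT := by
  intro n D W s G G' hn hD _ _ h h'
  unfold matOK at h h'
  simp only [Bool.and_eq_true, List.all_eq_true, List.mem_range, decide_eq_true_eq,
    beq_iff_eq] at h h'
  have hs : ∀ i j : ℕ, i < n → j < n → s i j = s j i := fun i j hi hj => h.1 i hi j hj
  have hs' : ∀ i j : ℕ, i < n → j < n → (fun i j => !(s i j)) i j = (fun i j => !(s i j)) j i :=
    fun i j hi hj => h'.1 i hi j hj
  refine ⟨gr n s hs, vec_of n D W s G hD hs h.2, ?_⟩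
  have hc : (gr n s hs)ᶜ = gr n (fun i j => !(s i j)) hs' := by
    ext i j
    simp only [SimpleGraph.compl_adj, gr]
    constructor
    · rintro ⟨h1, h2⟩
      refine ⟨h1, ?_⟩
      by_contra h3
      exact h2 ⟨h1, by simpa using h3⟩
    · rintro ⟨h1, h2⟩
      refine ⟨h1, fun h3 => ?_⟩
      simp [h3.2] at h2
  rw [hc]
  exact vec_of n D W _ G' hD hs' h'.2

end Pool.Agent.T2H87.CR
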