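import Pool.Agent.T2H87.CR.Stm

set_option autoImplicit false

namespace Pool.Agent.T2H87.CR

namespace PkgMID

lemma vec_mono {V : Type} [Fintype V] {G : SimpleGraph V} {t t' : ℝ} (h : Vec G t) (htt : t ≤ t') :
    Vec G t' := by
  obtain ⟨M, h1, h2, h3, h4⟩ := h
  exact ⟨M, h1, h2, fun x => (h3 x).trans htt, h4⟩

lemma good_mono {n : ℕ} {t t' : ℝ} (h : Good n t) (htt : t ≤ t') : Good n t' := by
  obtain ⟨G, h1, h2⟩ := h
  exact ⟨G, vec_mono h1 htt, vec_mono h2 htt⟩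

/-- The difference of two square roots. -/
lemma sqrt_diff (s s' K D : ℝ) (hK : 0 < K) (hs : K ≤ s) (hs' : K ≤ s') (hD : |s' - s| ≤ D)
    (hDK : D ^ 2 ≤ 14 / 25 * K) : (Real.sqrt s' - Real.sqrt s) ^ 2 ≤ 7 / 50 := by
  have h1 : Real.sqrt K ≤ Real.sqrt s := Real.sqrt_le_sqrt hs
  have h2 : Real.sqrt K ≤ Real.sqrt s' := Real.sqrt_le_sqrt hs'
  have h3 : Real.sqrt K ^ 2 = K := Real.sq_sqrt hK.le
  have h4 : Real.sqrt s ^ 2 = s := Real.sq_sqrt (hK.le.trans hs)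
  have h5 : Real.sqrt s' ^ 2 = s' := Real.sq_sqrt (hK.le.trans hs')
  have h0 : 0 < Real.sqrt K := Real.sqrt_pos.2 hK
  have h6 : 4 * K ≤ (Real.sqrt s' + Real.sqrt s) ^ 2 := by
    rw [← h3]
    nlinarith
  have h7 : (Real.sqrt s' - Real.sqrt s) ^ 2 * (Real.sqrt s' + Real.sqrt s) ^ 2 = (s' - s) ^ 2 := by
    rw [← mul_pow]
    congr 1
    rw [← h4, ← h5]
    simp only [Real.sqrt_sq (Real.sqrt_nonneg _)]
    ring
  have h8 : (s' - s) ^ 2 ≤ D ^ 2 := by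
    rw [← sq_abs]
    exact pow_le_pow_left₀ (abs_nonneg _) hD 2
  have h9 : (Real.sqrt s' - Real.sqrt s) ^ 2 * (4 * K) ≤ 14 / 25 * K := by
    calc (Real.sqrt s' - Real.sqrt s) ^ 2 * (4 * K)
        ≤ (Real.sqrt s' - Real.sqrt s) ^ 2 * (Real.sqrt s' + Real.sqrt s) ^ 2 :=
          mul_le_mul_of_nonneg_left h6 (sq_nonneg _)
      _ = (s' - s) ^ 2 := h7
      _ ≤ D ^ 2 := h8
      _ ≤ _ := hDK
  by_contra hc
  rw [not_le] at hc
  have : 7 / 50 * (4 * K) < (Real.sqrt s' - Real.sqrt s) ^ 2 * (4 * K) :=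
    mul_lt_mul_of_pos_right hc (by linarith)
  linarith

/-- One step. `n = 5 x + r`, `h' = n - 4 p`. -/
lemma step (hC5 : S_C5) (E : ℝ) (hE0 : 0 ≤ E) (hE1 : E ≤ 1) (n x p h' : ℕ) (hn : 4 * p + h' = n)
    (hx : 5 * x ≤ n) (hx' : n ≤ 5 * x + 4) (L : ℕ) (hL : |(x : ℤ) - (p : ℤ)| ≤ L)
    (hLx : 5000 * L ≤ 22 * x) (hx1 : 1 ≤ x)
    (hS : 20 * (5 * |(x : ℤ) - (p : ℤ)| + 5) ^ 2 ≤ 11 * x)
    (hp : Good p (Real.sqrt p)) (hh' : Good h' (Real.sqrt (h' + E))) :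
    Good n (Real.sqrt (n + (E + 7 / 50))) := by
  have hxR : (1 : ℝ) ≤ x := by exact_mod_cast hx1
  have hnR : 4 * (p : ℝ) + h' = n := by exact_mod_cast hn
  have hx5 : 5 * (x : ℝ) ≤ n := by exact_mod_cast hx
  have hx5' : (n : ℝ) ≤ 5 * x + 4 := by exact_mod_cast hx'
  have hLR : |(x : ℝ) - p| ≤ L := by exact_mod_cast hL
  have hLxR : 5000 * (L : ℝ) ≤ 22 * x := by exact_mod_cast hLx
  have hSR : 20 * (5 * |(x : ℝ) - (p : ℝ)| + 5) ^ 2 ≤ 11 * x := by exact_mod_cast hS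
  have ha := abs_le.1 hLR
  have hb := abs_le.1 (le_refl |(x : ℝ) - p|)
  set D : ℝ := 5 * |(x : ℝ) - p| + 5 with hD
  have hKp : (0 : ℝ) < x - 4 * L := by
    linarith
  have hL0 : (0 : ℝ) ≤ L := Nat.cast_nonneg L
  have key := sqrt_diff (p : ℝ) (h' + E) (x - 4 * L) D hKp (by linarith) (by linarith) (by
    rw [abs_le]
    constructor <;> linarith [hb.1, hb.2]) (by
    have : D ^ 2 ≤ 11 / 20 * x := by linarith
    linarith)
  have hpp : 0 < Real.sqrt (p : ℝ) := Real.sqrt_pos.2 (by linarith)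
  have hhp : 0 < Real.sqrt ((h' : ℝ) + E) := Real.sqrt_pos.2 (by linarith)
  have h := hC5 p h' _ _ hpp hhp hp hh'
  rw [hn] at h
  refine good_mono h (Real.sqrt_le_sqrt ?_)
  rw [Real.sq_sqrt (by linarith), Real.sq_sqrt (by linarith)]
  linarith

theorem partA (hC5 : S_C5) (hSUM2 : S_SUM2) (hLIST : S_LIST) (hTAB : S_TAB) :
    ∀ n : ℕ, 41000 ≤ n → n < 201000 → Good n (Real.sqrt (n + 59 / 100)) := by
  intro n h1 h2
  obtain ⟨m, a, b, hm, hodd, hS⟩ := hLIST (n / 5) (by omega) (by omega)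
  set x := n / 5 with hx
  set p := m ^ 2 * (a ^ 2 + b ^ 2) with hp
  have hL : |(x : ℤ) - (p : ℤ)| ≤ 28 := by
    by_contra hc
    rw [not_le] at hc
    have hc' : (29 : ℤ) ≤ |(x : ℤ) - (p : ℤ)| := hc
    have h3 : (150 : ℤ) ^ 2 ≤ (5 * |(x : ℤ) - (p : ℤ)| + 5) ^ 2 :=
      pow_le_pow_left₀ (by norm_num) (by linarith) 2
    have h4 : (x : ℤ) < 40200 := by
      have : x < 40200 := by omega
      exact_mod_cast this
    linarith
  have hL' := abs_le.1 hL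
  have hx1 : 8200 ≤ x := by omega
  have hx2 : x < 40200 := by omega
  have hpn : 4 * p ≤ n := by omega
  have hG := hSUM2 m a b hm hodd
  rw [← hp] at hG
  have hh := hTAB.2 (n - 4 * p) (by omega) (by omega)
  have := step hC5 (9 / 20) (by norm_num) (by norm_num) n x p (n - 4 * p) (by omega) (by omega)
    (by omega) 28 (by exact_mod_cast hL) (by omega) (by omega) hS hG hh
  refine good_mono this (Real.sqrt_le_sqrt ?_)
  linarith

end PkgMID

open PkgMID in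
theorem pMID (hC5 : S_C5) (hSUM2 : S_SUM2) (hLIST : S_LIST) (hTAB : S_TAB) : S_MID := by
  intro n h1 h2
  rcases lt_or_ge n 201000 with h3 | h3
  · refine good_mono (partA hC5 hSUM2 hLIST hTAB n h1 h3) (Real.sqrt_le_sqrt ?_)
    linarith
  obtain ⟨m, a, b, hm, hodd, hS⟩ := hLIST (n / 5) (by omega) (by omega)
  set x := n / 5 with hx
  set p := m ^ 2 * (a ^ 2 + b ^ 2) with hp
  have hL : |(x : ℤ) - (p : ℤ)| ≤ 65 := by
    by_contra hc
    rw [not_le] at hc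
    have hc' : (66 : ℤ) ≤ |(x : ℤ) - (p : ℤ)| := hc
    have h3 : (335 : ℤ) ^ 2 ≤ (5 * |(x : ℤ) - (p : ℤ)| + 5) ^ 2 :=
      pow_le_pow_left₀ (by norm_num) (by linarith) 2
    have h4 : (x : ℤ) < 200000 := by
      have : x < 200000 := by omega
      exact_mod_cast this
    linarith
  have hL' := abs_le.1 hL
  have hx1 : 40200 ≤ x := by omega
  have hx2 : x < 200000 := by omega
  have hpn : 4 * p ≤ n := by omega
  have hG := hSUM2 m a b hm hodd
  rw [← hp] at hG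
  have hh : Good (n - 4 * p) (Real.sqrt ((n - 4 * p : ℕ) + 59 / 100)) := by
    rcases lt_or_ge (n - 4 * p) 41000 with h4 | h4
    · refine good_mono (hTAB.2 (n - 4 * p) (by omega) h4) (Real.sqrt_le_sqrt ?_)
      linarith
    · exact partA hC5 hSUM2 hLIST hTAB (n - 4 * p) h4 (by omega)
  have := step hC5 (59 / 100) (by norm_num) (by norm_num) n x p (n - 4 * p) (by omega) (by omega)
    (by omega) 65 (by exact_mod_cast hL) (by omega) (by omega) hS hG hh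
  refine good_mono this (Real.sqrt_le_sqrt ?_)
  linarith

end Pool.Agent.T2H87.CR
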