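import Pool.Agent.T2H87.CR.Stm

/-!
# CR package PAL: Paley graphs
-/

set_option autoImplicit false

open Finset

namespace Pool.Agent.T2H87.CR

namespace PkgPAL

lemma good_of {V : Type} [Fintype V] {n : ℕ} (e : V ≃ Fin n) (G : SimpleGraph V) (t : ℝ)
    (h1 : Vec G t) (h2 : Vec Gᶜ t) : Good n t := by
  refine ⟨G.comap e.symm, ?_, ?_⟩
  · obtain ⟨M, hs, hp, hd, ha⟩ := h1
    refine ⟨fun x y => M (e.symm x) (e.symm y), fun x y => hs _ _, fun z => ?_, fun x => hd _,
      fun x y hxy => ha _ _ hxy⟩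
    have h := hp (fun v => z (e v))
    rw [← Equiv.sum_comp e z, ← Equiv.sum_comp e]
    refine le_trans h (le_of_eq ?_)
    refine Finset.sum_congr rfl fun x _ => ?_
    rw [← Equiv.sum_comp e]
    refine Finset.sum_congr rfl fun y _ => ?_
    simp only [Equiv.symm_apply_apply]
  · obtain ⟨M, hs, hp, hd, ha⟩ := h2
    refine ⟨fun x y => M (e.symm x) (e.symm y), fun x y => hs _ _, fun z => ?_, fun x => hd _,
      fun x y hxy => ha _ _ ?_⟩
    · have h := hp (fun v => z (e v))
      rw [← Equiv.sum_comp e z, ← Equiv.sum_comp e]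
      refine le_trans h (le_of_eq ?_)
      refine Finset.sum_congr rfl fun x _ => ?_
      rw [← Equiv.sum_comp e]
      refine Finset.sum_congr rfl fun y _ => ?_
      simp only [Equiv.symm_apply_apply]
    · rw [SimpleGraph.compl_adj] at hxy ⊢
      exact ⟨fun h => hxy.1 (e.symm.injective h), hxy.2⟩

section

variable (p : ℕ) [Fact p.Prime]

lemma ring_ne (h4 : p % 4 = 1) : ringChar (ZMod p) ≠ 2 := by
  rw [ZMod.ringChar_zmod_n]
  omega

lemma chi_neg_one (h4 : p % 4 = 1) : quadraticChar (ZMod p) (-1) = 1 := by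
  rw [quadraticChar_one_iff_isSquare (neg_ne_zero.2 one_ne_zero)]
  exact ZMod.exists_sq_eq_neg_one_iff.2 (by omega)

lemma chi_neg (h4 : p % 4 = 1) (a : ZMod p) :
    quadraticChar (ZMod p) (-a) = quadraticChar (ZMod p) a := by
  rw [neg_eq_neg_one_mul, map_mul, chi_neg_one p h4, one_mul]

/-- Jacobsthal -/
lemma jac (h4 : p % 4 = 1) (c : ZMod p) (hc : c ≠ 0) :
    ∑ u : ZMod p, quadraticChar (ZMod p) u * quadraticChar (ZMod p) (u + c) = -1 := by
  have hsum := quadraticChar_sum_zero (ring_ne p h4)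
  -- restrict to `u ≠ 0`
  have h1 : ∑ u : ZMod p, quadraticChar (ZMod p) u * quadraticChar (ZMod p) (u + c) =
      ∑ u ∈ univ.erase (0 : ZMod p), quadraticChar (ZMod p) (1 + c * u⁻¹) := by
    rw [← Finset.add_sum_erase univ _ (mem_univ (0 : ZMod p)), quadraticChar_zero, zero_mul,
      zero_add]
    refine Finset.sum_congr rfl fun u hu => ?_
    have hu0 : u ≠ 0 := (Finset.mem_erase.1 hu).1
    have h2 : u + c = u * (1 + c * u⁻¹) := by
      field_simp
    rw [h2, map_mul, ← mul_assoc, ← sq, quadraticChar_sq_one hu0, one_mul]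
  rw [h1]
  have h2 : ∑ u ∈ univ.erase (0 : ZMod p), quadraticChar (ZMod p) (1 + c * u⁻¹) =
      ∑ v ∈ univ.erase (1 : ZMod p), quadraticChar (ZMod p) v := by
    refine Finset.sum_nbij' (fun u => 1 + c * u⁻¹) (fun v => c * (v - 1)⁻¹) ?_ ?_ ?_ ?_ ?_
    · intro u hu
      have hu0 : u ≠ 0 := (Finset.mem_erase.1 hu).1
      rw [Finset.mem_erase]
      refine ⟨fun h => ?_, mem_univ _⟩
      have h3 : c * u⁻¹ = 0 := by
        linear_combination h
      rcases mul_eq_zero.1 h3 with h5 | h5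
      · exact hc h5
      · exact hu0 (inv_eq_zero.1 h5)
    · intro v hv
      have hv1 : v ≠ 1 := (Finset.mem_erase.1 hv).1
      rw [Finset.mem_erase]
      refine ⟨fun h => ?_, mem_univ _⟩
      rcases mul_eq_zero.1 h with h5 | h5
      · exact hc h5
      · exact hv1 (sub_eq_zero.1 (inv_eq_zero.1 h5))
    · intro u hu
      have hu0 : u ≠ 0 := (Finset.mem_erase.1 hu).1
      simp only [add_sub_cancel_left]
      field_simp
    · intro v hv
      have hv1 : v - 1 ≠ 0 := sub_ne_zero.2 (Finset.mem_erase.1 hv).1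
      simp only [mul_inv, inv_inv]
      rw [← mul_assoc, mul_inv_cancel₀ hc, one_mul]
      ring
    · intro u hu
      rfl
  rw [h2]
  have h3 := Finset.add_sum_erase univ (fun v => quadraticChar (ZMod p) v) (mem_univ (1 : ZMod p))
  rw [hsum, map_one] at h3
  linarith

/-- The matrix `S`. -/
noncomputable def S (ε : ℝ) (x y : ZMod p) : ℝ := ε * ((quadraticChar (ZMod p) (y - x) : ℤ) : ℝ)

lemma S_row (h4 : p % 4 = 1) (ε : ℝ) (y : ZMod p) : ∑ x : ZMod p, S p ε x y = 0 := by
  have hsum := quadraticChar_sum_zero (ring_ne p h4)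
  unfold S
  rw [← Finset.mul_sum]
  have h1 : ∑ x : ZMod p, ((quadraticChar (ZMod p) (y - x) : ℤ) : ℝ) =
      ∑ x : ZMod p, ((quadraticChar (ZMod p) x : ℤ) : ℝ) :=
    Equiv.sum_comp (Equiv.subLeft y) (fun x => ((quadraticChar (ZMod p) x : ℤ) : ℝ))
  rw [h1]
  have h2 : ∑ x : ZMod p, ((quadraticChar (ZMod p) x : ℤ) : ℝ) = 0 := by
    exact_mod_cast hsum
  rw [h2, mul_zero]

lemma S_prod (h4 : p % 4 = 1) (ε : ℝ) (hε : ε ^ 2 = 1) (y y' : ZMod p) :
    ∑ x : ZMod p, S p ε x y * S p ε x y' = (if y = y' then (p : ℝ) else 0) - 1 := by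
  unfold S
  have h0 : ∀ x : ZMod p, ε * ((quadraticChar (ZMod p) (y - x) : ℤ) : ℝ) *
      (ε * ((quadraticChar (ZMod p) (y' - x) : ℤ) : ℝ)) =
      ((quadraticChar (ZMod p) (y - x) * quadraticChar (ZMod p) (y' - x) : ℤ) : ℝ) := by
    intro x
    push_cast
    linear_combination ((quadraticChar (ZMod p) (y - x) : ℤ) : ℝ) *
      ((quadraticChar (ZMod p) (y' - x) : ℤ) : ℝ) * hε
  rw [Finset.sum_congr rfl fun x _ => h0 x]
  rw [← Int.cast_sum]
  have h1 : ∑ x : ZMod p, quadraticChar (ZMod p) (y - x) * quadraticChar (ZMod p) (y' - x) =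
      ∑ u : ZMod p, quadraticChar (ZMod p) u * quadraticChar (ZMod p) (u + (y' - y)) := by
    rw [← Equiv.sum_comp (Equiv.subLeft y)
      (fun u => quadraticChar (ZMod p) u * quadraticChar (ZMod p) (u + (y' - y)))]
    refine Finset.sum_congr rfl fun x _ => ?_
    simp only [Equiv.subLeft_apply]
    congr 2
    ring
  rw [h1]
  by_cases h : y = y'
  · subst h
    rw [if_pos rfl, sub_self]
    have h2 : ∑ u : ZMod p, quadraticChar (ZMod p) u * quadraticChar (ZMod p) (u + 0) =
        (p : ℤ) - 1 := by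
      rw [← Finset.add_sum_erase univ _ (mem_univ (0 : ZMod p)), quadraticChar_zero, zero_mul,
        zero_add]
      have h3 : ∀ u ∈ univ.erase (0 : ZMod p),
          quadraticChar (ZMod p) u * quadraticChar (ZMod p) (u + 0) = 1 := by
        intro u hu
        rw [add_zero, ← sq, quadraticChar_sq_one (Finset.mem_erase.1 hu).1]
      rw [Finset.sum_congr rfl h3, Finset.sum_const, Finset.card_erase_of_mem (mem_univ _),
        Finset.card_univ, ZMod.card]
      have := (Fact.out : p.Prime).one_le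
      simp [Nat.cast_sub this]
    rw [h2]
    push_cast
    ring
  · rw [if_neg h, jac p h4 _ (sub_ne_zero.2 (Ne.symm h))]
    push_cast
    ring

lemma psd (h4 : p % 4 = 1) (ε : ℝ) (hε : ε ^ 2 = 1) (z : ZMod p → ℝ) :
    (∑ x, z x) ^ 2 / Real.sqrt p ≤
      Real.sqrt p * ∑ x, z x ^ 2 + ∑ x, ∑ y, S p ε x y * z x * z y := by
  have hp0 : (0 : ℝ) < p := by exact_mod_cast (Fact.out : p.Prime).pos
  set t := Real.sqrt p with ht
  have ht0 : 0 < t := Real.sqrt_pos.2 hp0
  have htt : t ^ 2 = p := Real.sq_sqrt hp0.le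
  set Z := ∑ x, z x with hZ
  have hsum0 : ∑ x : ZMod p, ∑ y : ZMod p, S p ε x y * z y = 0 := by
    rw [Finset.sum_comm]
    refine Finset.sum_eq_zero fun y _ => ?_
    rw [← Finset.sum_mul, S_row p h4, zero_mul]
  have hsq : ∑ x : ZMod p, (∑ y : ZMod p, S p ε x y * z y) ^ 2 =
      p * ∑ x, z x ^ 2 - Z ^ 2 := by
    have e1 : ∀ x : ZMod p, (∑ y : ZMod p, S p ε x y * z y) ^ 2 =
        ∑ y : ZMod p, ∑ y' : ZMod p, (S p ε x y * S p ε x y') * (z y * z y') := by
      intro x
      rw [sq, Finset.sum_mul_sum]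
      refine Finset.sum_congr rfl fun y _ => Finset.sum_congr rfl fun y' _ => ?_
      ring
    rw [Finset.sum_congr rfl fun x _ => e1 x, Finset.sum_comm]
    have e2 : ∀ y : ZMod p, ∑ x : ZMod p, ∑ y' : ZMod p,
        (S p ε x y * S p ε x y') * (z y * z y') = p * z y ^ 2 - z y * Z := by
      intro y
      rw [Finset.sum_comm]
      have e3 : ∀ y' : ZMod p, ∑ x : ZMod p, (S p ε x y * S p ε x y') * (z y * z y') =
          (if y = y' then (p : ℝ) * (z y * z y') else 0) - z y * z y' := by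
        intro y'
        rw [← Finset.sum_mul, S_prod p h4 ε hε]
        split_ifs <;> ring
      rw [Finset.sum_congr rfl fun y' _ => e3 y', Finset.sum_sub_distrib,
        Finset.sum_ite_eq univ y (fun y' => (p : ℝ) * (z y * z y')), if_pos (mem_univ _),
        ← Finset.mul_sum]
      ring
    rw [Finset.sum_congr rfl fun y _ => e2 y, Finset.sum_sub_distrib, ← Finset.mul_sum,
      ← Finset.sum_mul]
    ring
  have hcross : ∑ x : ZMod p, z x * (∑ y : ZMod p, S p ε x y * z y) =
      ∑ x, ∑ y, S p ε x y * z x * z y := by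
    refine Finset.sum_congr rfl fun x _ => ?_
    rw [Finset.mul_sum]
    refine Finset.sum_congr rfl fun y _ => ?_
    ring
  have hnn : 0 ≤ ∑ x : ZMod p, (t * z x + (∑ y : ZMod p, S p ε x y * z y) - Z / t) ^ 2 :=
    Finset.sum_nonneg fun x _ => sq_nonneg _
  have hexp : ∑ x : ZMod p, (t * z x + (∑ y : ZMod p, S p ε x y * z y) - Z / t) ^ 2 =
      t ^ 2 * ∑ x, z x ^ 2 + (p * ∑ x, z x ^ 2 - Z ^ 2) + p * (Z / t) ^ 2 +
        2 * t * (∑ x, ∑ y, S p ε x y * z x * z y) - 2 * t * (Z / t) * Z := by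
    have e1 : ∀ x : ZMod p, (t * z x + (∑ y : ZMod p, S p ε x y * z y) - Z / t) ^ 2 =
        t ^ 2 * z x ^ 2 + (∑ y : ZMod p, S p ε x y * z y) ^ 2 + (Z / t) ^ 2 +
        2 * t * (z x * (∑ y : ZMod p, S p ε x y * z y)) - 2 * t * (Z / t) * z x -
        2 * (Z / t) * (∑ y : ZMod p, S p ε x y * z y) := by
      intro x
      ring
    rw [Finset.sum_congr rfl fun x _ => e1 x, Finset.sum_sub_distrib, Finset.sum_sub_distrib,
      Finset.sum_add_distrib, Finset.sum_add_distrib, Finset.sum_add_distrib, ← Finset.mul_sum,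
      ← Finset.mul_sum, ← Finset.mul_sum, ← Finset.mul_sum, hsq, hcross, hsum0, Finset.sum_const,
      Finset.card_univ, ZMod.card, nsmul_eq_mul]
    ring
  rw [hexp] at hnn
  have e4 : (p : ℝ) * (Z / t) ^ 2 = Z ^ 2 := by
    rw [← htt]
    field_simp
  have e5 : 2 * t * (Z / t) * Z = 2 * Z ^ 2 := by
    field_simp
  rw [e4, e5, ← htt] at hnn
  rw [div_le_iff₀ ht0]
  nlinarith [hnn]

/-- The Paley graph. -/
def pal (h4 : p % 4 = 1) : SimpleGraph (ZMod p) where
  Adj x y := quadraticChar (ZMod p) (y - x) = 1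
  symm := ⟨fun x y h => by
    rw [← neg_sub, chi_neg p h4]
    exact h⟩
  loopless := ⟨fun x h => by
    rw [sub_self, quadraticChar_zero] at h
    exact absurd h (by norm_num)⟩

lemma vec (h4 : p % 4 = 1) (G : SimpleGraph (ZMod p)) (ε : ℝ) (hε : ε ^ 2 = 1)
    (hG : ∀ x y, G.Adj x y → x ≠ y ∧ S p ε x y = -1) : Vec G (Real.sqrt p) := by
  have hp0 : (0 : ℝ) < p := by exact_mod_cast (Fact.out : p.Prime).pos
  have hpsd := psd p h4 ε hε
  set t := Real.sqrt p with ht
  have ht0 : 0 < t := Real.sqrt_pos.2 hp0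
  refine ⟨fun x y => t / (t + 1) * ((if x = y then t else 0) + S p ε x y + 1), ?_, ?_, ?_, ?_⟩
  · intro x y
    have h1 : S p ε x y = S p ε y x := by
      unfold S
      rw [← neg_sub x y, chi_neg p h4]
    have h2 : (if x = y then t else 0) = (if y = x then t else 0) := by
      by_cases h : x = y
      · rw [if_pos h, if_pos h.symm]
      · rw [if_neg h, if_neg (Ne.symm h)]
    simp only []
    rw [h1, h2]
  · intro z
    have h1 := hpsd z
    have h2 : ∑ x, ∑ y, t / (t + 1) * ((if x = y then t else 0) + S p ε x y + 1) * z x * z y =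
        t / (t + 1) * (t * ∑ x, z x ^ 2 + (∑ x, ∑ y, S p ε x y * z x * z y) + (∑ x, z x) ^ 2) := by
      have e1 : ∀ x y : ZMod p, t / (t + 1) * ((if x = y then t else 0) + S p ε x y + 1) * z x * z y =
          t / (t + 1) * ((if x = y then t * (z x * z y) else 0) + S p ε x y * z x * z y +
            z x * z y) := by
        intro x y
        split_ifs <;> ring
      have e2 : ∀ x : ZMod p, ∑ y, t / (t + 1) * ((if x = y then t else 0) + S p ε x y + 1) *
          z x * z y = t / (t + 1) * (t * z x ^ 2 + (∑ y, S p ε x y * z x * z y) +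
            z x * ∑ y, z y) := by
        intro x
        rw [Finset.sum_congr rfl fun y _ => e1 x y, ← Finset.mul_sum, Finset.sum_add_distrib,
          Finset.sum_add_distrib, Finset.sum_ite_eq univ x (fun y => t * (z x * z y)),
          if_pos (mem_univ _), ← Finset.mul_sum]
        ring
      rw [Finset.sum_congr rfl fun x _ => e2 x, ← Finset.mul_sum, Finset.sum_add_distrib,
        Finset.sum_add_distrib, ← Finset.mul_sum, ← Finset.sum_mul]
      ring
    rw [h2]
    have h3 : t / (t + 1) * ((∑ x, z x) ^ 2 / t + (∑ x, z x) ^ 2) = (∑ x, z x) ^ 2 := by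
      field_simp
      ring
    calc (∑ x, z x) ^ 2 = t / (t + 1) * ((∑ x, z x) ^ 2 / t + (∑ x, z x) ^ 2) := h3.symm
      _ ≤ _ := by
        refine mul_le_mul_of_nonneg_left ?_ (by positivity)
        linarith
  · intro x
    simp only [if_true]
    have h1 : S p ε x x = 0 := by
      unfold S
      rw [sub_self, quadraticChar_zero]
      simp
    rw [h1]
    refine le_of_eq ?_
    field_simp
    ring
  · intro x y hxy
    obtain ⟨h1, h2⟩ := hG x y hxy
    simp only []
    rw [if_neg h1, h2]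
    ring

end

end PkgPAL

open PkgPAL in
theorem pPAL : S_PAL := by
  intro p hp h4
  haveI : Fact p.Prime := ⟨hp⟩
  refine good_of (Fintype.equivFinOfCardEq (ZMod.card p)) (pal p h4) _ ?_ ?_
  · refine vec p h4 _ (-1) (by norm_num) ?_
    intro x y hxy
    refine ⟨hxy.ne, ?_⟩
    have h : quadraticChar (ZMod p) (y - x) = 1 := hxy
    unfold S
    rw [h]
    norm_num
  · refine vec p h4 _ 1 (by norm_num) ?_
    intro x y hxy
    rw [SimpleGraph.compl_adj] at hxy
    refine ⟨hxy.1, ?_⟩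
    have h : quadraticChar (ZMod p) (y - x) = -1 := by
      rcases quadraticChar_dichotomy (F := ZMod p) (a := y - x)
        (sub_ne_zero.2 (Ne.symm hxy.1)) with h | h
      · exact absurd h hxy.2
      · exact h
    unfold S
    rw [h]
    norm_num

end Pool.Agent.T2H87.CR
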