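import Pool.Agent.T2H87.CR.Stm

/-!
# CR package PROD: products and squares
-/

set_option autoImplicit false

open Finset

namespace Pool.Agent.T2H87.CR

namespace PkgPROD

lemma good_of {V : Type} [Fintype V] {n : ℕ} (e : V ≃ Fin n) (G : SimpleGraph V) (t : ℝ)
    (h1 : Vec G t) (h2 : Vec Gᶜ t) : Good n t := by
  refine ⟨G.comap e.symm, ?_, ?_⟩
  · obtain ⟨M, hs, hp, hd, ha⟩ := h1
    refine ⟨fun x y => M (e.symm x) (e.symm y), fun x y => hs _ _, fun z => ?_, fun x => hd _,
      fun x y hxy => ha _ _ hxy⟩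
    have h := hp (fun v => z (e v))
    rw [← Equiv.sum_comp e z, ← Equiv.sum_comp e]
    refine le_trans h (le_of_eq ?_)
    refine Finset.sum_congr rfl fun x _ => ?_
    rw [← Equiv.sum_comp e]
    refine Finset.sum_congr rfl fun y _ => ?_
    simp only [Equiv.symm_apply_apply]
  · obtain ⟨M, hs, hp, hd, ha⟩ := h2
    refine ⟨fun x y => M (e.symm x) (e.symm y), fun x y => hs _ _, fun z => ?_, fun x => hd _,
      fun x y hxy => ha _ _ ?_⟩
    · have h := hp (fun v => z (e v))
      rw [← Equiv.sum_comp e z, ← Equiv.sum_comp e]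
      refine le_trans h (le_of_eq ?_)
      refine Finset.sum_congr rfl fun x _ => ?_
      rw [← Equiv.sum_comp e]
      refine Finset.sum_congr rfl fun y _ => ?_
      simp only [Equiv.symm_apply_apply]
    · rw [SimpleGraph.compl_adj] at hxy ⊢
      exact ⟨fun h => hxy.1 (e.symm.injective h), hxy.2⟩

/-- rows are cliques -/
def rowG (m : ℕ) : SimpleGraph (Fin m × Fin m) where
  Adj p q := p.1 = q.1 ∧ p.2 ≠ q.2
  symm := ⟨fun _ _ h => ⟨h.1.symm, h.2.symm⟩⟩
  loopless := ⟨fun _ h => h.2 rfl⟩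

lemma psd2 (m : ℕ) (z : Fin m × Fin m → ℝ) : (∑ x, z x) ^ 2 ≤
    ∑ x : Fin m × Fin m, ∑ y : Fin m × Fin m, (if x.2 = y.2 then (m : ℝ) else 0) * z x * z y := by
  have h1 : ∑ x, z x = ∑ j : Fin m, ∑ i : Fin m, z (i, j) := by
    rw [Fintype.sum_prod_type, Finset.sum_comm]
  have h2 : ∑ x : Fin m × Fin m, ∑ y : Fin m × Fin m,
      (if x.2 = y.2 then (m : ℝ) else 0) * z x * z y =
      (m : ℝ) * ∑ j : Fin m, (∑ i : Fin m, z (i, j)) ^ 2 := by
    rw [Fintype.sum_prod_type, Finset.sum_comm, Finset.mul_sum]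
    refine Finset.sum_congr rfl fun j _ => ?_
    have h3 : ∀ i : Fin m, ∑ y : Fin m × Fin m,
        (if ((i, j) : Fin m × Fin m).2 = y.2 then (m : ℝ) else 0) * z (i, j) * z y =
        (m : ℝ) * z (i, j) * ∑ i' : Fin m, z (i', j) := by
      intro i
      rw [Fintype.sum_prod_type, Finset.mul_sum]
      refine Finset.sum_congr rfl fun i' _ => ?_
      simp only []
      rw [Finset.sum_eq_single j]
      · rw [if_pos rfl]
      · intro b _ hb
        rw [if_neg (Ne.symm hb)]
        ring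
      · intro h
        exact absurd (Finset.mem_univ _) h
    rw [Finset.sum_congr rfl fun i _ => h3 i, ← Finset.sum_mul, ← Finset.mul_sum]
    ring
  rw [h1, h2]
  have h4 := sq_sum_le_card_mul_sum_sq (s := (Finset.univ : Finset (Fin m)))
    (f := fun j => ∑ i : Fin m, z (i, j))
  simpa using h4

lemma psd1 (m : ℕ) (z : Fin m × Fin m → ℝ) : (∑ x, z x) ^ 2 ≤
    ∑ x : Fin m × Fin m, ∑ y : Fin m × Fin m, (if x.1 = y.1 then (m : ℝ) else 0) * z x * z y := by
  have h := psd2 m (fun p => z p.swap)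
  have h1 : ∑ x : Fin m × Fin m, z x.swap = ∑ x, z x :=
    Equiv.sum_comp (Equiv.prodComm (Fin m) (Fin m)) z
  rw [h1] at h
  refine le_trans h (le_of_eq ?_)
  rw [← Equiv.sum_comp (Equiv.prodComm (Fin m) (Fin m))]
  refine Finset.sum_congr rfl fun x _ => ?_
  rw [← Equiv.sum_comp (Equiv.prodComm (Fin m) (Fin m))]
  refine Finset.sum_congr rfl fun y _ => ?_
  rfl

end PkgPROD

open PkgPROD in
theorem pPROD (hSUB : S_SUB) : S_PROD := by
  constructor
  · intro a b s t hs ht hG hb
    obtain ⟨G, h1, h2⟩ := hG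
    have key : ∀ G : SimpleGraph (Fin a), Vec G s → VecW G (fun _ => t) (s * t) := by
      rintro G ⟨M, m1, m2, m3, m4⟩
      exact ⟨M, m1, m2, fun x => mul_le_mul_of_nonneg_right (m3 x) ht.le, m4⟩
    have h := hSUB a G (fun _ => b) (fun _ => t) (s * t) (fun _ => ht) (key _ h1) (key _ h2)
      (fun _ => hb)
    simpa using h
  · intro m hm
    refine good_of finProdFinEquiv (rowG m) m ?_ ?_
    · refine ⟨fun x y => if x.2 = y.2 then (m : ℝ) else 0, fun x y => ?_, psd2 m, fun x => ?_,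
        fun x y hxy => if_neg hxy.2⟩
      · show (if x.2 = y.2 then (m : ℝ) else 0) = (if y.2 = x.2 then (m : ℝ) else 0)
        by_cases h : x.2 = y.2
        · rw [if_pos h, if_pos h.symm]
        · rw [if_neg h, if_neg (Ne.symm h)]
      · show (if x.2 = x.2 then (m : ℝ) else 0) ≤ m
        rw [if_pos rfl]
    · refine ⟨fun x y => if x.1 = y.1 then (m : ℝ) else 0, fun x y => ?_, psd1 m, fun x => ?_,
        fun x y hxy => if_neg ?_⟩
      · show (if x.1 = y.1 then (m : ℝ) else 0) = (if y.1 = x.1 then (m : ℝ) else 0)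
        by_cases h : x.1 = y.1
        · rw [if_pos h, if_pos h.symm]
        · rw [if_neg h, if_neg (Ne.symm h)]
      · show (if x.1 = x.1 then (m : ℝ) else 0) ≤ m
        rw [if_pos rfl]
      · intro h
        rw [SimpleGraph.compl_adj] at hxy
        refine hxy.2 ⟨h, fun h' => hxy.1 (Prod.ext h h')⟩

end Pool.Agent.T2H87.CR
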