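import Pool.Agent.T2H87.CR.Stm
import Pool.Agent.H466R3.VD_Blow
import Pool.Agent.H866R4.VD.TNoHom
import Pool.Agent.H632R3.VD.Family
import Pool.Agent.H756R3.VD.Prod

/-! package REAL of project CR: realizable numbers from good graphs -/

set_option autoImplicit false

open Finset

namespace Pool.Agent.T2H87.CR

open Pool.Agent.H866R4.VD (Cert Gram Q)

namespace PkgREAL

/-- upper bound: if every graph on `N` vertices or its complement receives a homomorphism from
`H` then some `N`-colourable graph arrows `H` -/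
theorem upper {N m : ℕ} (H : SimpleGraph (Fin m))
    (h : ∀ F : SimpleGraph (Fin N), Nonempty (H →g F) ∨ Nonempty (H →g Fᶜ)) :
    ∃ (k : ℕ) (K : SimpleGraph (Fin k)), K.Colorable N ∧ Arrows K H := by
  classical
  obtain ⟨M, hM⟩ := Pool.Agent.H466R3.VDBlow.taskBlow N m
  set e : Fin N × Fin M ≃ Fin (N * M) := finProdFinEquiv with he
  refine ⟨N * M, ⟨fun a b => (e.symm a).1 ≠ (e.symm b).1, ⟨fun _ _ h => h.symm⟩,
    ⟨fun _ h => h rfl⟩⟩, ⟨SimpleGraph.Coloring.mk (fun a => (e.symm a).1) (fun h => h)⟩, ?_⟩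
  intro col
  obtain ⟨S, c, hc, hS, hSc⟩ := hM (fun p q => col s(e p, e q))
    (fun p q => by rw [Sym2.eq_swap])
  have hg : ∀ i, Nonempty (Fin m ≃ S i) := fun i =>
    ⟨(Fintype.equivFinOfCardEq (by simpa using hS i)).symm⟩
  choose g _ using fun i => exists_true_iff_nonempty.2 (hg i)
  have main : ∀ (φ : Fin m → Fin N) (b : Bool), (∀ x y, H.Adj x y → φ x ≠ φ y ∧
      c (φ x) (φ y) = b) → ∃ (f : Fin m → Fin (N * M)) (b : Bool), Function.Injective f ∧
          ∀ x y, H.Adj x y → (e.symm (f x)).1 ≠ (e.symm (f y)).1 ∧ col s(f x, f y) = b := by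
    intro φ b hφ
    refine ⟨fun x => e (φ x, (g (φ x) x : Fin M)), b, ?_, ?_⟩
    · intro x y hxy
      have h1 := e.injective hxy
      rw [Prod.mk.injEq] at h1
      obtain ⟨h2, h3⟩ := h1
      rw [h2] at h3
      exact (g (φ y)).injective (Subtype.ext h3)
    · intro x y hxy
      obtain ⟨h1, h2⟩ := hφ x y hxy
      refine ⟨by simpa using h1, ?_⟩
      rw [← h2]
      exact hSc (φ x) (φ y) h1 _ (g (φ x) x).2 _ (g (φ y) y).2
  set F : SimpleGraph (Fin N) := ⟨fun i j => i ≠ j ∧ c i j = true,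
    ⟨fun i j h => ⟨h.1.symm, by rw [hc]; exact h.2⟩⟩, ⟨fun _ h => h.1 rfl⟩⟩ with hF
  rcases h F with h' | h'
  · obtain ⟨φ⟩ := h'
    exact main φ true (fun x y hxy => φ.map_adj hxy)
  · obtain ⟨φ⟩ := h'
    refine main φ false (fun x y hxy => ?_)
    have h1 := φ.map_adj hxy
    rw [SimpleGraph.compl_adj] at h1
    refine ⟨h1.1, ?_⟩
    have h2 : ¬ (φ x ≠ φ y ∧ c (φ x) (φ y) = true) := h1.2
    simpa [h1.1] using h2

/-- lower bound: if neither `B` nor its complement receives a homomorphism from `H` then a graph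
which arrows `H` has more colours than `B` has vertices -/
theorem lower {m : ℕ} {V : Type} [Fintype V] (H : SimpleGraph (Fin m)) (B : SimpleGraph V)
    (h1 : ¬ Nonempty (H →g B)) (h2 : ¬ Nonempty (H →g Bᶜ)) {k N' : ℕ} (K : SimpleGraph (Fin k))
    (hK : K.Colorable N') (hR : Arrows K H) : Fintype.card V < N' := by
  classical
  by_contra hcon
  push Not at hcon
  obtain ⟨C⟩ := hK
  obtain ⟨ι⟩ : Nonempty (Fin N' ↪ V) :=
    Function.Embedding.nonempty_of_card_le (by simpa using hcon)
  set D : Fin k → V := fun x => ι (C x) with hD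
  have hDv : ∀ x y, K.Adj x y → D x ≠ D y := fun x y hxy hne => C.valid hxy (ι.injective hne)
  obtain ⟨f, b, -, hf⟩ := hR (Sym2.lift ⟨fun x y => decide (B.Adj (D x) (D y)), fun x y => by
    simp only [decide_eq_decide]
    exact ⟨fun h => h.symm, fun h => h.symm⟩⟩)
  simp only [Sym2.lift_mk] at hf
  cases b with
  | true =>
    exact h1 ⟨⟨fun x => D (f x), fun {x y} hxy => by simpa using (hf x y hxy).2⟩⟩
  | false =>
    refine h2 ⟨⟨fun x => D (f x), fun {x y} hxy => ?_⟩⟩
    have h3 := hf x y hxy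
    rw [SimpleGraph.compl_adj]
    exact ⟨hDv _ _ h3.1, by simpa using h3.2⟩

/-- the generic graph -/
theorem family (N : ℕ) (κ : ℝ) (hκ : 1 ≤ κ)
    (hF : ∀ F : SimpleGraph (Fin N), Cert F κ ∨ Cert Fᶜ κ) :
    ∃ (m : ℕ) (H : SimpleGraph (Fin m)), Cert H κ ∧
      ∀ F : SimpleGraph (Fin N), Cert F κ → Nonempty (H →g F) := by
  classical
  have key : ∀ L : Finset (SimpleGraph (Fin N)), (∀ F ∈ L, Cert F κ) →
      ∃ (V : Type) (_ : Fintype V) (H : SimpleGraph V), Cert H κ ∧
        ∀ F ∈ L, Nonempty (H →g F) := by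
    intro L
    induction L using Finset.induction_on with
    | empty =>
      intro _
      rcases hF ⊥ with h | h
      · exact ⟨Fin N, inferInstance, ⊥, h, by simp⟩
      · exact ⟨Fin N, inferInstance, ⊥ᶜ, h, by simp⟩
    | insert F0 L hnot ih =>
      intro hL
      obtain ⟨V, iV, H, hH, hhom⟩ := ih (fun F hF => hL F (Finset.mem_insert_of_mem hF))
      refine ⟨V × Fin N, inferInstance, Pool.Agent.H866R4.VD.catProd H F0,
        Pool.Agent.H866R4.VD.taskProd V (Fin N) H F0 κ hκ hH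
          (hL F0 (Finset.mem_insert_self _ _)), ?_⟩
      intro F hFm
      rw [Finset.mem_insert] at hFm
      rcases hFm with rfl | hFm
      · exact ⟨⟨Prod.snd, fun {a b} h => h.2⟩⟩
      · obtain ⟨f⟩ := hhom F hFm
        exact ⟨⟨fun q => f q.1, fun {a b} h => f.map_rel h.1⟩⟩
  obtain ⟨V, iV, H, hH, hhom⟩ := key (Finset.univ.filter (fun F => Cert F κ))
    (fun F hF => (Finset.mem_filter.mp hF).2)
  refine ⟨Fintype.card V, H.comap (Fintype.equivFin V).symm,
    Pool.Agent.H866R4.VD.Family632.cert_comap _ H κ hH, ?_⟩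
  intro F hFc
  obtain ⟨f⟩ := hhom F (Finset.mem_filter.mpr ⟨Finset.mem_univ _, hFc⟩)
  exact ⟨⟨fun x => f ((Fintype.equivFin V).symm x), fun {a b} h => f.map_rel (by simpa using h)⟩⟩

/-- a strict vector colouring in the form of a Gram matrix -/
theorem gram_of_vec {V : Type} [Fintype V] (G : SimpleGraph V) (t : ℝ) (ht : 1 < t)
    (h : Vec G t) : Gram G (t - 1) := by
  classical
  obtain ⟨M, hs, hJ, hd, h0⟩ := h
  have hκ : 0 < t - 1 := by linarith
  refine ⟨fun x y => if x = y then 1 else (M x y - 1) / (t - 1), ?_, ?_, ?_, ?_⟩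
  · intro x y
    dsimp only
    by_cases hxy : x = y
    · rw [hxy]
    · rw [if_neg hxy, if_neg (Ne.symm hxy), hs x y]
  · intro z
    have hQ : Q (fun x y => if x = y then (1 : ℝ) else (M x y - 1) / (t - 1)) z =
        ((∑ x, ∑ y, M x y * z x * z y) - (∑ x, z x) ^ 2 + ∑ x, (t - M x x) * z x ^ 2) / (t - 1) := by
      unfold Q
      have e1 : ∀ x y, (if x = y then (1 : ℝ) else (M x y - 1) / (t - 1)) * z x * z y =
          (M x y * z x * z y) / (t - 1) - z x * z y / (t - 1) +
            (if x = y then (t - M x x) * z x ^ 2 / (t - 1) else 0) := by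
        intro x y
        by_cases hxy : x = y
        · subst hxy
          rw [if_pos rfl, if_pos rfl]
          field_simp
          ring
        · rw [if_neg hxy, if_neg hxy]
          field_simp
          ring
      simp only [e1, Finset.sum_add_distrib, Finset.sum_sub_distrib, Finset.sum_ite_eq,
        Finset.mem_univ, if_true]
      rw [sq, Finset.sum_mul_sum]
      simp only [Finset.sum_div, sub_div, add_div]
    rw [hQ]
    refine div_nonneg ?_ hκ.le
    have h1 := hJ z
    have h2 : 0 ≤ ∑ x, (t - M x x) * z x ^ 2 :=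
      Finset.sum_nonneg fun x _ => mul_nonneg (by linarith [hd x]) (sq_nonneg _)
    linarith
  · intro x
    simp
  · intro x y hxy
    dsimp only
    rw [if_neg hxy.ne, h0 x y hxy]
    ring

end PkgREAL

open PkgREAL in
theorem pREAL (hD : S_DUAL) : S_REAL := by
  classical
  intro n t ht hn hG
  obtain ⟨G, hG1, hG2⟩ := hG
  have hκ : 1 ≤ t - 1 := by linarith
  have hκ0 : 0 < t - 1 := by linarith
  have hdual : ∀ F : SimpleGraph (Fin (n + 1)), Cert F (t - 1) ∨ Cert Fᶜ (t - 1) := by
    intro F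
    refine hD (n + 1) (t - 1) hκ0 ?_ F
    push_cast
    have : t - 1 + 1 = t := by ring
    rw [this]
    exact hn
  obtain ⟨k, H, hH, hgen⟩ := family (n + 1) (t - 1) hκ hdual
  have hg1 := gram_of_vec G t (by linarith) hG1
  have hg2 := gram_of_vec Gᶜ t (by linarith) hG2
  have hlow : ∀ {l N' : ℕ} (K : SimpleGraph (Fin l)), K.Colorable N' → Arrows K H → n + 1 ≤ N' := by
    intro l N' K hK hR
    have := lower H G
      (Pool.Agent.H866R4.VD.taskNoHom (Fin k) (Fin n) H G (t - 1) hκ0 hH hg1)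
      (Pool.Agent.H866R4.VD.taskNoHom (Fin k) (Fin n) H Gᶜ (t - 1) hκ0 hH hg2) K hK hR
    rw [Fintype.card_fin] at this
    exact this
  obtain ⟨l, K, hK, hR⟩ := upper (N := n + 1) H (fun F => by
    rcases hdual F with h | h
    · exact Or.inl (hgen F h)
    · exact Or.inr (hgen Fᶜ h))
  refine ⟨k, H, ?_, ⟨l, K, ?_, hR⟩, ?_⟩
  · rcases Nat.eq_zero_or_pos k with h0 | h0
    · subst h0
      obtain ⟨A, -, -, -, w, hw⟩ := hH
      simp [Q] at hw
    · exact h0
  · refine le_antisymm hK.chromaticNumber_le ?_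
    rw [SimpleGraph.le_chromaticNumber_iff_colorable]
    intro q hq
    exact hlow K hq hR
  · rintro N' ⟨l', K', hK', hR'⟩
    refine hlow K' ?_ hR'
    exact SimpleGraph.chromaticNumber_le_iff_colorable.1 hK'.le

end Pool.Agent.T2H87.CR
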