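import Pool.Agent.T2H87.CR.Stm

/-!
# Package SUB: substitution
-/

set_option autoImplicit false

open Finset

namespace Pool.Agent.T2H87.CR

namespace PkgSUB

/-- transport along a bijection -/
theorem vec_transport {V W : Type} [Fintype V] [Fintype W] (σ : V ≃ W) (G : SimpleGraph V)
    (G' : SimpleGraph W) (t : ℝ) (h : ∀ x y, G'.Adj (σ x) (σ y) → G.Adj x y) (hG : Vec G t) :
    Vec G' t := by
  obtain ⟨M, h1, h2, h3, h4⟩ := hG
  refine ⟨fun x y => M (σ.symm x) (σ.symm y), fun x y => h1 _ _, fun z => ?_, fun x => h3 _,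
    fun x y hxy => h4 _ _ (h _ _ (by simpa using hxy))⟩
  have e1 : ∑ x, z x = ∑ x, z (σ x) := (Equiv.sum_comp σ z).symm
  have e2 : ∑ x, ∑ y, M (σ.symm x) (σ.symm y) * z x * z y =
      ∑ x, ∑ y, M x y * z (σ x) * z (σ y) := by
    rw [← Equiv.sum_comp σ]
    refine Finset.sum_congr rfl fun x _ => ?_
    rw [← Equiv.sum_comp σ]
    refine Finset.sum_congr rfl fun y _ => ?_
    simp
  rw [e1, e2]
  exact h2 (fun x => z (σ x))

variable {k : ℕ} {h : Fin k → ℕ}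

/-- the matrix of the substitution -/
noncomputable def MM (T : Fin k → Fin k → ℝ) (M : (i : Fin k) → Fin (h i) → Fin (h i) → ℝ)
    (x y : Σ i, Fin (h i)) : ℝ :=
  if e : x.1 = y.1 then T x.1 x.1 * M x.1 x.2 (Fin.cast (congrArg h e.symm) y.2) else T x.1 y.1

theorem MM_same (T : Fin k → Fin k → ℝ) (M : (i : Fin k) → Fin (h i) → Fin (h i) → ℝ)
    (i : Fin k) (u v : Fin (h i)) : MM T M ⟨i, u⟩ ⟨i, v⟩ = T i i * M i u v := by
  unfold MM
  simp

theorem MM_ne (T : Fin k → Fin k → ℝ) (M : (i : Fin k) → Fin (h i) → Fin (h i) → ℝ)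
    {i j : Fin k} (hij : i ≠ j) (u : Fin (h i)) (v : Fin (h j)) : MM T M ⟨i, u⟩ ⟨j, v⟩ = T i j := by
  unfold MM
  simp [hij]

/-- one direction of the substitution -/
theorem vec_sub (T : SimpleGraph (Fin k)) (w : Fin k → ℝ) (t : ℝ) (hT : VecW T w t)
    (G : (i : Fin k) → SimpleGraph (Fin (h i))) (hG : ∀ i, Vec (G i) (w i))
    (H : SimpleGraph (Σ i, Fin (h i)))
    (h1 : ∀ (i j : Fin k) (u : Fin (h i)) (v : Fin (h j)), i ≠ j → H.Adj ⟨i, u⟩ ⟨j, v⟩ → T.Adj i j)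
    (h2 : ∀ (i : Fin k) (u v : Fin (h i)), H.Adj ⟨i, u⟩ ⟨i, v⟩ → (G i).Adj u v) : Vec H t := by
  classical
  obtain ⟨A, a1, a2, a3, a4⟩ := hT
  choose M m1 m2 m3 m4 using hG
  have hA1 : ∀ i, 1 ≤ A i i := by
    intro i
    have h := a2 (fun j => if j = i then 1 else 0)
    simpa using h
  refine ⟨MM A M, ?_, ?_, ?_, ?_⟩
  · rintro ⟨i, u⟩ ⟨j, v⟩
    by_cases hij : i = j
    · subst hij
      rw [MM_same, MM_same, m1 i u v]
    · rw [MM_ne _ _ hij, MM_ne _ _ (Ne.symm hij), a1]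
  · intro z
    set Z : Fin k → ℝ := fun i => ∑ u, z ⟨i, u⟩ with hZ
    have e1 : ∑ x, z x = ∑ i, Z i := by
      rw [Fintype.sum_sigma]
    have e2 : ∑ x, ∑ y, MM A M x y * z x * z y =
        ∑ i, ∑ j, ∑ u : Fin (h i), ∑ v : Fin (h j), MM A M ⟨i, u⟩ ⟨j, v⟩ * z ⟨i, u⟩ * z ⟨j, v⟩ := by
      rw [Fintype.sum_sigma]
      refine Finset.sum_congr rfl fun i _ => ?_
      have : ∀ u : Fin (h i), ∑ y, MM A M ⟨i, u⟩ y * z ⟨i, u⟩ * z y =
          ∑ j, ∑ v : Fin (h j), MM A M ⟨i, u⟩ ⟨j, v⟩ * z ⟨i, u⟩ * z ⟨j, v⟩ := fun u => by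
        rw [Fintype.sum_sigma]
      simp only [this]
      rw [Finset.sum_comm]
    rw [e1, e2]
    refine (a2 Z).trans ?_
    refine Finset.sum_le_sum fun i _ => Finset.sum_le_sum fun j _ => ?_
    by_cases hij : i = j
    · subst hij
      have e3 : ∑ u : Fin (h i), ∑ v : Fin (h i), MM A M ⟨i, u⟩ ⟨i, v⟩ * z ⟨i, u⟩ * z ⟨i, v⟩ =
          A i i * ∑ u : Fin (h i), ∑ v : Fin (h i), M i u v * z ⟨i, u⟩ * z ⟨i, v⟩ := by
        rw [Finset.mul_sum]
        refine Finset.sum_congr rfl fun u _ => ?_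
        rw [Finset.mul_sum]
        refine Finset.sum_congr rfl fun v _ => ?_
        rw [MM_same]
        ring
      rw [e3]
      have h3 := m2 i (fun u => z ⟨i, u⟩)
      have h4 : (0 : ℝ) ≤ A i i := zero_le_one.trans (hA1 i)
      have h5 := mul_le_mul_of_nonneg_left h3 h4
      refine le_trans (le_of_eq ?_) h5
      rw [hZ]
      ring
    · apply le_of_eq
      have e3 : ∀ (u : Fin (h i)) (v : Fin (h j)), MM A M ⟨i, u⟩ ⟨j, v⟩ * z ⟨i, u⟩ * z ⟨j, v⟩ =
          (A i j * z ⟨i, u⟩) * z ⟨j, v⟩ := fun u v => by rw [MM_ne _ _ hij]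
      simp only [e3]
      rw [hZ]
      simp only [← Finset.mul_sum, ← Finset.sum_mul]
  · rintro ⟨i, u⟩
    rw [MM_same]
    refine le_trans ?_ (a3 i)
    exact mul_le_mul_of_nonneg_left (m3 i u) (zero_le_one.trans (hA1 i))
  · rintro ⟨i, u⟩ ⟨j, v⟩ hadj
    by_cases hij : i = j
    · subst hij
      rw [MM_same, m4 i u v (h2 i u v hadj), mul_zero]
    · rw [MM_ne _ _ hij]
      exact a4 i j (h1 i j u v hij hadj)

end PkgSUB

open PkgSUB in
theorem pSUB : S_SUB := by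
  classical
  intro k T h w t _ hT hTc hgood
  choose G g1 g2 using hgood
  -- the substitution graph
  let H : SimpleGraph (Σ i, Fin (h i)) :=
    { Adj := fun x y => T.Adj x.1 y.1 ∨ ∃ e : x.1 = y.1,
        (G x.1).Adj x.2 (Fin.cast (congrArg h e.symm) y.2)
      symm := by
        constructor
        rintro ⟨i, u⟩ ⟨j, v⟩ (hh | ⟨e, hh⟩)
        · exact Or.inl hh.symm
        · simp only at e
          subst e
          exact Or.inr ⟨rfl, by simpa using hh.symm⟩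
      loopless := by
        constructor
        rintro ⟨i, u⟩ (hh | ⟨e, hh⟩)
        · exact T.loopless.irrefl i hh
        · simp at hh }
  have hH1 : ∀ (i j : Fin k) (u : Fin (h i)) (v : Fin (h j)), i ≠ j →
      (H.Adj ⟨i, u⟩ ⟨j, v⟩ ↔ T.Adj i j) := by
    intro i j u v hij
    constructor
    · rintro (hh | ⟨e, -⟩)
      · exact hh
      · exact absurd e hij
    · exact fun hh => Or.inl hh
  have hH2 : ∀ (i : Fin k) (u v : Fin (h i)), (H.Adj ⟨i, u⟩ ⟨i, v⟩ ↔ (G i).Adj u v) := by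
    intro i u v
    constructor
    · rintro (hh | ⟨e, hh⟩)
      · exact absurd hh (SimpleGraph.irrefl T)
      · simpa using hh
    · exact fun hh => Or.inr ⟨rfl, by simpa using hh⟩
  have v1 : Vec H t := vec_sub T w t hT G g1 H (fun i j u v hij hh => (hH1 i j u v hij).1 hh)
    (fun i u v hh => (hH2 i u v).1 hh)
  have v2 : Vec Hᶜ t := by
    refine vec_sub Tᶜ w t hTc (fun i => (G i)ᶜ) g2 Hᶜ ?_ ?_
    · intro i j u v hij hh
      rw [SimpleGraph.compl_adj] at hh ⊢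
      exact ⟨hij, fun h3 => hh.2 ((hH1 i j u v hij).2 h3)⟩
    · intro i u v hh
      rw [SimpleGraph.compl_adj] at hh ⊢
      refine ⟨fun h3 => hh.1 (by rw [h3]), fun h3 => hh.2 ((hH2 i u v).2 h3)⟩
  let σ : (Σ i, Fin (h i)) ≃ Fin (∑ i, h i) := finSigmaFinEquiv
  refine ⟨H.comap σ.symm, ?_, ?_⟩
  · refine vec_transport σ H _ t ?_ v1
    intro x y hxy
    simpa using hxy
  · refine vec_transport σ Hᶜ _ t ?_ v2
    intro x y hxy
    rw [SimpleGraph.compl_adj] at hxy ⊢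
    refine ⟨fun h3 => hxy.1 (by rw [h3]), fun h3 => hxy.2 ?_⟩
    simpa using h3

end Pool.Agent.T2H87.CR
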