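import Pool.Agent.T2H87.CR.Stm

set_option autoImplicit false

open Finset

namespace Pool.Agent.T2H87.CR

namespace PkgSUM2

/-- the property which is multiplicative -/
def P (n : ℕ) : Prop := Good n (Real.sqrt n)

lemma P_mul (h1 : S_PROD) {a b : ℕ} (ha0 : 0 < a) (hb0 : 0 < b) (ha : P a) (hb : P b) :
    P (a * b) := by
  have ha' : (0 : ℝ) < a := by exact_mod_cast ha0
  have hb' : (0 : ℝ) < b := by exact_mod_cast hb0
  have := h1.1 a b (Real.sqrt a) (Real.sqrt b) (Real.sqrt_pos.2 ha') (Real.sqrt_pos.2 hb') ha hb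
  unfold P
  rw [Nat.cast_mul, Real.sqrt_mul ha'.le]
  exact this

lemma P_sq (h1 : S_PROD) {m : ℕ} (hm : 0 < m) : P (m ^ 2) := by
  unfold P
  rw [Nat.cast_pow, Real.sqrt_sq (Nat.cast_nonneg m), sq]
  exact h1.2 m hm

lemma P_one (h1 : S_PROD) : P 1 := by
  have := P_sq h1 (m := 1) one_pos
  simpa using this

lemma P_primes (h1 : S_PROD) (h2 : S_PAL) : ∀ c : ℕ, 0 < c →
    (∀ q : ℕ, q.Prime → q ∣ c → q % 4 = 1) → P c := by
  intro c
  induction c using Nat.strong_induction_on with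
  | _ c ih =>
    intro hc h
    by_cases hc1 : c = 1
    · rw [hc1]; exact P_one h1
    · have hp := Nat.minFac_prime hc1
      obtain ⟨d, hd⟩ := Nat.minFac_dvd c
      have hd0 : 0 < d := by
        rcases Nat.eq_zero_or_pos d with h0 | h0
        · rw [h0, mul_zero] at hd; omega
        · exact h0
      have hlt : d < c := by
        rw [hd]
        exact lt_mul_of_one_lt_left hd0 hp.one_lt
      have hd' : P d := ih d hlt hd0 fun q hq hqd => h q hq (hqd.trans ⟨_, by rw [mul_comm]; exact hd⟩)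
      have hpP : P (Nat.minFac c) := h2 _ hp (h _ hp (Nat.minFac_dvd c))
      rw [hd]
      exact P_mul h1 hp.pos hd0 hpP hd'

end PkgSUM2

open PkgSUM2 in
theorem pSUM2 (h1 : S_PROD) (h2 : S_PAL) : S_SUM2 := by
  intro m a b hm hodd
  obtain ⟨k, c, hkc, hsq⟩ := Nat.eq_sq_add_sq_iff_eq_sq_mul.1 ⟨a, b, rfl⟩
  have hpos : 0 < a ^ 2 + b ^ 2 := by
    rcases Nat.eq_zero_or_pos (a ^ 2 + b ^ 2) with h0 | h0
    · rw [h0] at hodd; omega
    · exact h0
  have hk : 0 < k := by
    rcases Nat.eq_zero_or_pos k with h0 | h0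
    · rw [hkc, h0] at hpos; simp at hpos
    · exact h0
  have hc : 0 < c := by
    rcases Nat.eq_zero_or_pos c with h0 | h0
    · rw [hkc, h0] at hpos; simp at hpos
    · exact h0
  have hPc : P c := by
    refine P_primes h1 h2 c hc fun q hq hqc => ?_
    have h3 := Nat.mod_four_ne_three_of_mem_primeFactors_of_isSquare_neg_one
      (Nat.mem_primeFactors.2 ⟨hq, hqc, hc.ne'⟩) hsq
    have h4 : q % 2 = 1 := by
      rcases hq.eq_two_or_odd with h | h
      · exfalso
        rw [h] at hqc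
        have : 2 ∣ a ^ 2 + b ^ 2 := by
          rw [hkc]; exact hqc.mul_left _
        omega
      · exact h
    omega
  have : P ((m * k) ^ 2 * c) := P_mul h1 (by positivity) hc (P_sq h1 (Nat.mul_pos hm hk)) hPc
  have e : m ^ 2 * (a ^ 2 + b ^ 2) = (m * k) ^ 2 * c := by
    rw [hkc]; ring
  rw [e]
  exact this

end Pool.Agent.T2H87.CR
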