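import Pool.Agent.T2H87.CR.TabD

/-! Checks for package TAB (generated). -/

set_option autoImplicit false
set_option maxRecDepth 100000

namespace Pool.Agent.T2H87.CR.Tab

theorem chk0 : allB 0 1024 = true := by decide +kernel

theorem chk1 : allB 1024 1024 = true := by decide +kernel

theorem chk2 : allB 2048 1024 = true := by decide +kernel

theorem chk3 : allB 3072 1024 = true := by decide +kernel

theorem chk4 : allB 4096 1024 = true := by decide +kernel

theorem chk5 : allB 5120 1024 = true := by decide +kernel

theorem chk6 : allB 6144 1024 = true := by decide +kernel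

theorem chk7 : allB 7168 1024 = true := by decide +kernel

theorem chk8 : allB 8192 1024 = true := by decide +kernel

theorem chk9 : allB 9216 1024 = true := by decide +kernel

theorem chk10 : allB 10240 1024 = true := by decide +kernel

theorem chk11 : allB 11264 1024 = true := by decide +kernel

theorem chk12 : allB 12288 1024 = true := by decide +kernel

theorem chk13 : allB 13312 1024 = true := by decide +kernel

theorem chk14 : allB 14336 1024 = true := by decide +kernel

theorem chk15 : allB 15360 1024 = true := by decide +kernel

theorem chk16 : allB 16384 1024 = true := by decide +kernel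

theorem chk17 : allB 17408 1024 = true := by decide +kernel

theorem chk18 : allB 18432 1024 = true := by decide +kernel

theorem chk19 : allB 19456 1024 = true := by decide +kernel

theorem chk20 : allB 20480 1024 = true := by decide +kernel

theorem chk21 : allB 21504 1024 = true := by decide +kernel

theorem chk22 : allB 22528 1024 = true := by decide +kernel

theorem chk23 : allB 23552 1024 = true := by decide +kernel

theorem chk24 : allB 24576 1024 = true := by decide +kernel

theorem chk25 : allB 25600 1024 = true := by decide +kernel

theorem chk26 : allB 26624 1024 = true := by decide +kernel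

theorem chk27 : allB 27648 1024 = true := by decide +kernel

theorem chk28 : allB 28672 1024 = true := by decide +kernel

theorem chk29 : allB 29696 1024 = true := by decide +kernel

theorem chk30 : allB 30720 1024 = true := by decide +kernel

theorem chk31 : allB 31744 1024 = true := by decide +kernel

theorem chk32 : allB 32768 1024 = true := by decide +kernel

theorem chk33 : allB 33792 1024 = true := by decide +kernel

theorem chk34 : allB 34816 1024 = true := by decide +kernel

theorem chk35 : allB 35840 1024 = true := by decide +kernel

theorem chk36 : allB 36864 1024 = true := by decide +kernel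

theorem chk37 : allB 37888 1024 = true := by decide +kernel

theorem chk38 : allB 38912 1024 = true := by decide +kernel

theorem chk39 : allB 39936 1024 = true := by decide +kernel

theorem chk40 : allB 40960 40 = true := by decide +kernel

theorem allB_spec (s : ℕ) : ∀ k : ℕ, allB s k = true → ∀ n, s ≤ n → n < s + k → okB n = true ∧ bdB n = true := by
  intro k
  induction k with
  | zero => intro _ n h1 h2; omega
  | succ k ih =>
    intro h n h1 h2
    unfold allB at h
    rw [Bool.and_eq_true, Bool.and_eq_true] at h
    obtain ⟨ha, hb, hc⟩ := h
    by_cases hn : n = s + k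
    · subst hn; exact ⟨ha, hb⟩
    · exact ih hc n h1 (by omega)

theorem all_ok (n : ℕ) (h : n < 41000) : okB n = true ∧ bdB n = true := by
  by_cases h0 : n < 1024
  · exact allB_spec _ _ chk0 n (by omega) (by omega)
  by_cases h1 : n < 2048
  · exact allB_spec _ _ chk1 n (by omega) (by omega)
  by_cases h2 : n < 3072
  · exact allB_spec _ _ chk2 n (by omega) (by omega)
  by_cases h3 : n < 4096
  · exact allB_spec _ _ chk3 n (by omega) (by omega)
  by_cases h4 : n < 5120
  · exact allB_spec _ _ chk4 n (by omega) (by omega)
  by_cases h5 : n < 6144
  · exact allB_spec _ _ chk5 n (by omega) (by omega)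
  by_cases h6 : n < 7168
  · exact allB_spec _ _ chk6 n (by omega) (by omega)
  by_cases h7 : n < 8192
  · exact allB_spec _ _ chk7 n (by omega) (by omega)
  by_cases h8 : n < 9216
  · exact allB_spec _ _ chk8 n (by omega) (by omega)
  by_cases h9 : n < 10240
  · exact allB_spec _ _ chk9 n (by omega) (by omega)
  by_cases h10 : n < 11264
  · exact allB_spec _ _ chk10 n (by omega) (by omega)
  by_cases h11 : n < 12288
  · exact allB_spec _ _ chk11 n (by omega) (by omega)
  by_cases h12 : n < 13312
  · exact allB_spec _ _ chk12 n (by omega) (by omega)
  by_cases h13 : n < 14336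
  · exact allB_spec _ _ chk13 n (by omega) (by omega)
  by_cases h14 : n < 15360
  · exact allB_spec _ _ chk14 n (by omega) (by omega)
  by_cases h15 : n < 16384
  · exact allB_spec _ _ chk15 n (by omega) (by omega)
  by_cases h16 : n < 17408
  · exact allB_spec _ _ chk16 n (by omega) (by omega)
  by_cases h17 : n < 18432
  · exact allB_spec _ _ chk17 n (by omega) (by omega)
  by_cases h18 : n < 19456
  · exact allB_spec _ _ chk18 n (by omega) (by omega)
  by_cases h19 : n < 20480
  · exact allB_spec _ _ chk19 n (by omega) (by omega)
  by_cases h20 : n < 21504
  · exact allB_spec _ _ chk20 n (by omega) (by omega)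
  by_cases h21 : n < 22528
  · exact allB_spec _ _ chk21 n (by omega) (by omega)
  by_cases h22 : n < 23552
  · exact allB_spec _ _ chk22 n (by omega) (by omega)
  by_cases h23 : n < 24576
  · exact allB_spec _ _ chk23 n (by omega) (by omega)
  by_cases h24 : n < 25600
  · exact allB_spec _ _ chk24 n (by omega) (by omega)
  by_cases h25 : n < 26624
  · exact allB_spec _ _ chk25 n (by omega) (by omega)
  by_cases h26 : n < 27648
  · exact allB_spec _ _ chk26 n (by omega) (by omega)
  by_cases h27 : n < 28672
  · exact allB_spec _ _ chk27 n (by omega) (by omega)
  by_cases h28 : n < 29696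
  · exact allB_spec _ _ chk28 n (by omega) (by omega)
  by_cases h29 : n < 30720
  · exact allB_spec _ _ chk29 n (by omega) (by omega)
  by_cases h30 : n < 31744
  · exact allB_spec _ _ chk30 n (by omega) (by omega)
  by_cases h31 : n < 32768
  · exact allB_spec _ _ chk31 n (by omega) (by omega)
  by_cases h32 : n < 33792
  · exact allB_spec _ _ chk32 n (by omega) (by omega)
  by_cases h33 : n < 34816
  · exact allB_spec _ _ chk33 n (by omega) (by omega)
  by_cases h34 : n < 35840
  · exact allB_spec _ _ chk34 n (by omega) (by omega)
  by_cases h35 : n < 36864
  · exact allB_spec _ _ chk35 n (by omega) (by omega)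
  by_cases h36 : n < 37888
  · exact allB_spec _ _ chk36 n (by omega) (by omega)
  by_cases h37 : n < 38912
  · exact allB_spec _ _ chk37 n (by omega) (by omega)
  by_cases h38 : n < 39936
  · exact allB_spec _ _ chk38 n (by omega) (by omega)
  by_cases h39 : n < 40960
  · exact allB_spec _ _ chk39 n (by omega) (by omega)
  exact allB_spec _ _ chk40 n (by omega) (by omega)

end Pool.Agent.T2H87.CR.Tab
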