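import Pool.Agent.T2H87.CR.Seeds
import Pool.Agent.T2H87.CR.TabC

/-! Package TAB. -/

set_option autoImplicit false
set_option maxRecDepth 100000

namespace Pool.Agent.T2H87.CR

open Tab

namespace PkgTAB

theorem Vec.mono {V : Type} [Fintype V] {G : SimpleGraph V} {s t : ℝ} (h : Vec G s) (hst : s ≤ t) : Vec G t := by
  obtain ⟨M, h1, h2, h3, h4⟩ := h
  exact ⟨M, h1, h2, fun x => (h3 x).trans hst, h4⟩

theorem Good.mono {n : ℕ} {s t : ℝ} (h : Good n s) (hst : s ≤ t) : Good n t := by
  obtain ⟨G, h1, h2⟩ := h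
  exact ⟨G, Vec.mono h1 hst, Vec.mono h2 hst⟩

theorem star_scale (a b d t c : ℝ) (hc : 0 < c) (h : Star a b d t) : Star (a * c) (b * c) (d * c) (t * c) := by
  unfold Star at *
  have e1 : 2 * (a * c) * (b * c) * (t * c - d * c) + (b * c) * (t * c + 2 * (d * c)) * (t * c - a * c)
      - (t * c) ^ 2 * (t * c - a * c)
      = (2 * a * b * (t - d) + b * (t + 2 * d) * (t - a) - t ^ 2 * (t - a)) * c ^ 3 := by ring
  have e2 : 8 * (a * c) * (b * c) ^ 2 * (d * c) * (t * c - 2 * (d * c)) * (t * c - a * c)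
      = (8 * a * b ^ 2 * d * (t - 2 * d) * (t - a)) * c ^ 6 := by ring
  rw [e1, e2]
  rcases h with h | h
  · left
    exact mul_nonpos_of_nonpos_of_nonneg h (by positivity)
  · right
    have e3 : ((2 * a * b * (t - d) + b * (t + 2 * d) * (t - a) - t ^ 2 * (t - a)) * c ^ 3) ^ 2
      = (2 * a * b * (t - d) + b * (t + 2 * d) * (t - a) - t ^ 2 * (t - a)) ^ 2 * c ^ 6 := by ring
    rw [e3]
    exact mul_le_mul_of_nonneg_right h (by positivity)

theorem star_of (w0 w1 w2 t : ℕ) (h0 : w0 < t) (h2 : 2 * w2 < t) (h : starB w0 w1 w2 t = true) :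
    Star (w0 : ℝ) w1 w2 t := by
  unfold starB at h
  have h' := Nat.le_of_ble_eq_true h
  have c1 : ((t - w2 : ℕ) : ℝ) = t - w2 := by rw [Nat.cast_sub (by omega)]
  have c2 : ((t - w0 : ℕ) : ℝ) = t - w0 := by rw [Nat.cast_sub (by omega)]
  have c3 : ((t - 2 * w2 : ℕ) : ℝ) = t - 2 * w2 := by rw [Nat.cast_sub (by omega)]; push_cast; ring
  unfold Star
  by_cases hPN : 2 * w0 * w1 * (t - w2) + w1 * (t + 2 * w2) * (t - w0) ≤ t * t * (t - w0)
  · left
    have h1 : ((2 * w0 * w1 * (t - w2) + w1 * (t + 2 * w2) * (t - w0) : ℕ) : ℝ) ≤ ((t * t * (t - w0) : ℕ) : ℝ) := by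
      exact_mod_cast hPN
    push_cast [c1, c2] at h1
    nlinarith [h1]
  · right
    have h1 : (((2 * w0 * w1 * (t - w2) + w1 * (t + 2 * w2) * (t - w0) - t * t * (t - w0)) ^ 2 : ℕ) : ℝ) ≤
        ((8 * w0 * w1 * w1 * w2 * (t - 2 * w2) * (t - w0) : ℕ) : ℝ) := by exact_mod_cast h'
    rw [Nat.cast_pow, Nat.cast_sub (by omega)] at h1
    push_cast [c1, c2, c3] at h1
    refine le_trans (le_of_eq ?_) (le_trans h1 (le_of_eq ?_)) <;> ring

theorem small (hC : S_CIRC) (hM : S_MAT) (n : ℕ) (h : n < 49) (h1 : tag n ≠ 1) (h2 : tag n ≠ 2)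
    (hW : Wt n ≠ 0) : Good n (((Wt n : ℕ) : ℝ) / 10 ^ 8) := by
  interval_cases n
  · exact absurd (by decide +kernel : Wt 0 = 0) hW
  · exact absurd (by decide +kernel : tag 1 = 1) h1
  · exact absurd (by decide +kernel : Wt 2 = 0) hW
  · exact absurd (by decide +kernel : Wt 3 = 0) hW
  · exact absurd (by decide +kernel : tag 4 = 1) h1
  · exact absurd (by decide +kernel : tag 5 = 1) h1
  · exact absurd (by decide +kernel : Wt 6 = 0) hW
  · exact absurd (by decide +kernel : Wt 7 = 0) hW
  · exact absurd (by decide +kernel : Wt 8 = 0) hW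
  · exact absurd (by decide +kernel : tag 9 = 1) h1
  · have e : Wt 10 = 316718428 := by decide +kernel
    rw [e]; exact seed10 hC
  · have e : Wt 11 = 345178648 := by decide +kernel
    rw [e]; exact seed11 hC
  · have e : Wt 12 = 346410162 := by decide +kernel
    rw [e]; exact seed12 hC
  · exact absurd (by decide +kernel : tag 13 = 1) h1
  · have e : Wt 14 = 378338667 := by decide +kernel
    rw [e]; exact seed14 hM
  · have e : Wt 15 = 388490015 := by decide +kernel
    rw [e]; exact seed15 hM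
  · exact absurd (by decide +kernel : tag 16 = 1) h1
  · exact absurd (by decide +kernel : tag 17 = 1) h1
  · have e : Wt 18 = 427806616 := by decide +kernel
    rw [e]; exact seed18 hC
  · have e : Wt 19 = 439303169 := by decide +kernel
    rw [e]; exact seed19 hC
  · exact absurd (by decide +kernel : tag 20 = 1) h1
  · have e : Wt 21 = 458257571 := by decide +kernel
    rw [e]; exact seed21 hC
  · have e : Wt 22 = 469763511 := by decide +kernel
    rw [e]; exact seed22 hC
  · have e : Wt 23 = 482477067 := by decide +kernel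
    rw [e]; exact seed23 hC
  · have e : Wt 24 = 489897950 := by decide +kernel
    rw [e]; exact seed24 hC
  · exact absurd (by decide +kernel : tag 25 = 1) h1
  · have e : Wt 26 = 509904837 := by decide +kernel
    rw [e]; exact seed26 hC
  · have e : Wt 27 = 520302233 := by decide +kernel
    rw [e]; exact seed27 hC
  · have e : Wt 28 = 529150264 := by decide +kernel
    rw [e]; exact seed28 hC
  · exact absurd (by decide +kernel : tag 29 = 1) h1
  · have e : Wt 30 = 547757391 := by decide +kernel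
    rw [e]; exact seed30 hC
  · have e : Wt 31 = 556777362 := by decide +kernel
    rw [e]; exact seed31 hC
  · have e : Wt 32 = 565685427 := by decide +kernel
    rw [e]; exact seed32 hC
  · have e : Wt 33 = 574456267 := by decide +kernel
    rw [e]; exact seed33 hC
  · have e : Wt 34 = 583113863 := by decide +kernel
    rw [e]; exact seed34 hC
  · have e : Wt 35 = 591759218 := by decide +kernel
    rw [e]; exact seed35 hC
  · exact absurd (by decide +kernel : tag 36 = 1) h1
  · exact absurd (by decide +kernel : tag 37 = 1) h1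
  · have e : Wt 38 = 616455689 := by decide +kernel
    rw [e]; exact seed38 hC
  · have e : Wt 39 = 624520172 := by decide +kernel
    rw [e]; exact seed39 hC
  · have e : Wt 40 = 632455535 := by decide +kernel
    rw [e]; exact seed40 hC
  · exact absurd (by decide +kernel : tag 41 = 1) h1
  · have e : Wt 42 = 648079177 := by decide +kernel
    rw [e]; exact seed42 hC
  · have e : Wt 43 = 655756163 := by decide +kernel
    rw [e]; exact seed43 hC
  · have e : Wt 44 = 663324961 := by decide +kernel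
    rw [e]; exact seed44 hC
  · exact absurd (by decide +kernel : tag 45 = 1) h1
  · have e : Wt 46 = 678233408 := by decide +kernel
    rw [e]; exact seed46 hC
  · have e : Wt 47 = 685566569 := by decide +kernel
    rw [e]; exact seed47 hC
  · have e : Wt 48 = 692820327 := by decide +kernel
    rw [e]; exact seed48 hC

theorem perf (hS : S_SUM2) (n m a b w : ℕ) (h : perfB n m a b w = true) : Good n ((w : ℝ) / 10 ^ 8) := by
  unfold perfB at h
  rw [Bool.and_eq_true, Bool.and_eq_true, Bool.and_eq_true] at h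
  obtain ⟨h1, h2, h3, h4⟩ := h
  have h1' : 0 < m := Nat.lt_of_lt_of_le (Nat.lt_succ_self 0) (Nat.le_of_ble_eq_true h1)
  have h2' : m * m * (a * a + b * b) = n := Nat.eq_of_beq_eq_true h2
  have h3' : (a * a + b * b) % 2 = 1 := Nat.eq_of_beq_eq_true h3
  have h4' : n * 10 ^ 16 ≤ w * w := Nat.le_of_ble_eq_true h4
  have hn : m ^ 2 * (a ^ 2 + b ^ 2) = n := by rw [← h2']; ring
  have h5 := hS m a b h1' (by rw [← h3']; ring_nf)
  rw [hn] at h5
  refine Good.mono h5 ?_
  rw [Real.sqrt_le_left (by positivity)]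
  have h6 : ((n * 10 ^ 16 : ℕ) : ℝ) ≤ ((w * w : ℕ) : ℝ) := by exact_mod_cast h4'
  push_cast at h6
  rw [div_pow, le_div_iff₀ (by positivity)]
  nlinarith [h6]

theorem pat (hG : S_C5G) (h0 h1 h2 : ℕ) (w0 w1 w2 t : ℕ) (h : patB w0 w1 w2 t = true)
    (g0 : Good h0 ((w0 : ℝ) / 10 ^ 8)) (g1 : Good h1 ((w1 : ℝ) / 10 ^ 8)) (g2 : Good h2 ((w2 : ℝ) / 10 ^ 8)) :
    Good (h0 + 2 * h1 + 2 * h2) ((t : ℝ) / 10 ^ 8) := by
  unfold patB at h
  simp only [Bool.and_eq_true] at h
  obtain ⟨a0, a1, a2, b0, b1, b2, s1, s2⟩ := h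
  have a0' : 0 < w0 := Nat.le_of_ble_eq_true a0
  have a1' : 0 < w1 := Nat.le_of_ble_eq_true a1
  have a2' : 0 < w2 := Nat.le_of_ble_eq_true a2
  have b0' : w0 < t := Nat.le_of_ble_eq_true b0
  have b1' : 2 * w1 < t := Nat.le_of_ble_eq_true b1
  have b2' : 2 * w2 < t := Nat.le_of_ble_eq_true b2
  have c0 : (0 : ℝ) < w0 := by exact_mod_cast a0'
  have c1 : (0 : ℝ) < w1 := by exact_mod_cast a1'
  have c2 : (0 : ℝ) < w2 := by exact_mod_cast a2'
  have d0 : (w0 : ℝ) < t := by exact_mod_cast b0'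
  have d1 : 2 * (w1 : ℝ) < t := by exact_mod_cast b1'
  have d2 : 2 * (w2 : ℝ) < t := by exact_mod_cast b2'
  have e1 := star_scale _ _ _ _ (1 / 10 ^ 8) (by positivity) (star_of w0 w1 w2 t b0' b2' s1)
  have e2 := star_scale _ _ _ _ (1 / 10 ^ 8) (by positivity) (star_of w0 w2 w1 t b0' b1' s2)
  simp only [mul_one_div] at e1 e2
  refine hG h0 h1 h2 _ _ _ _ (by positivity) (by positivity) (by positivity) ?_ ?_ ?_ e1 e2 g0 g1 g2
  · exact div_lt_div_of_pos_right d0 (by positivity)
  · rw [← mul_div_assoc]; exact div_lt_div_of_pos_right d1 (by positivity)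
  · rw [← mul_div_assoc]; exact div_lt_div_of_pos_right d2 (by positivity)

theorem main (hG : S_C5G) (hS : S_SUM2) (hC : S_CIRC) (hM : S_MAT) (n : ℕ) :
    n < 41000 → Wt n ≠ 0 → Good n (((Wt n : ℕ) : ℝ) / 10 ^ 8) := by
  induction n using Nat.strong_induction_on with
  | _ n ih =>
    intro hn hW
    have hok := (all_ok n hn).1
    unfold okB at hok
    by_cases t1 : tag n = 1
    · rw [show Nat.beq (tag n) 1 = true from by rw [t1]; rfl, cond_true] at hok
      exact perf hS _ _ _ _ _ hok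
    · have e1 : Nat.beq (tag n) 1 = false := by
        rw [Bool.eq_false_iff]; intro h; exact t1 (Nat.eq_of_beq_eq_true h)
      rw [e1, cond_false] at hok
      by_cases t2 : tag n = 2
      · rw [show Nat.beq (tag n) 2 = true from by rw [t2]; rfl, cond_true] at hok
        rw [Bool.and_eq_true, Bool.and_eq_true, Bool.and_eq_true] at hok
        obtain ⟨x1, x2, x3, x4⟩ := hok
        have y1 : 0 < xx n := Nat.le_of_ble_eq_true x1
        have y2 : 0 < yy n := Nat.le_of_ble_eq_true x2
        have y3 : 2 * xx n + 2 * yy n < n := Nat.le_of_ble_eq_true x3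
        have x4' := x4
        unfold patB at x4'
        simp only [Bool.and_eq_true] at x4'
        obtain ⟨a0, a1, a2, -⟩ := x4'
        have a0' : 0 < Wt (n - (2 * xx n + 2 * yy n)) := Nat.le_of_ble_eq_true a0
        have a1' : 0 < Wt (xx n) := Nat.le_of_ble_eq_true a1
        have a2' : 0 < Wt (yy n) := Nat.le_of_ble_eq_true a2
        have g := pat hG _ (xx n) (yy n) _ _ _ _ x4
          (ih (n - (2 * xx n + 2 * yy n)) (by omega) (by omega) (by omega))
          (ih (xx n) (by omega) (by omega) (by omega))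
          (ih (yy n) (by omega) (by omega) (by omega))
        have e : n - (2 * xx n + 2 * yy n) + 2 * xx n + 2 * yy n = n := by omega
        rwa [e] at g
      · have e2 : Nat.beq (tag n) 2 = false := by
          rw [Bool.eq_false_iff]; intro h; exact t2 (Nat.eq_of_beq_eq_true h)
        rw [e2, cond_false] at hok
        have y : n < 49 := Nat.le_of_ble_eq_true hok
        exact small hC hM n y t1 t2 hW

end PkgTAB

open PkgTAB in
theorem pTAB (hG : S_C5G) (_h5 : S_C5) (hS : S_SUM2) (hC : S_CIRC) (hM : S_MAT) : S_TAB := by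
  have bd : ∀ n : ℕ, 12 ≤ n → n < 41000 → Wt n * Wt n < (n + 1) * 10 ^ 16 ∧ 2 * 10 ^ 8 ≤ Wt n ∧
      (7900 ≤ n → 20 * (Wt n * Wt n) ≤ (20 * n + 9) * 10 ^ 16) := by
    intro n h1 h2
    have h := (all_ok n h2).2
    unfold bdB at h
    have e1 : Nat.blt n 12 = false := by
      rw [Bool.eq_false_iff]; intro h3
      have : n < 12 := Nat.le_of_ble_eq_true h3
      omega
    rw [e1, cond_false, Bool.and_eq_true, Bool.and_eq_true] at h
    obtain ⟨h3, h4, h5⟩ := h
    refine ⟨Nat.le_of_ble_eq_true h3, Nat.le_of_ble_eq_true h4, fun h6 => ?_⟩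
    have e2 : Nat.blt n 7900 = false := by
      rw [Bool.eq_false_iff]; intro h7
      have : n < 7900 := Nat.le_of_ble_eq_true h7
      omega
    rw [e2, cond_false] at h5
    exact Nat.le_of_ble_eq_true h5
  constructor
  · intro n h1 h2
    obtain ⟨b1, b2, -⟩ := bd n h1 h2
    refine ⟨((Wt n : ℕ) : ℝ) / 10 ^ 8, ?_, ?_, PkgTAB.main hG hS hC hM n h2 (by omega)⟩
    · rw [le_div_iff₀ (by positivity)]
      exact_mod_cast b2
    · have b1' : ((Wt n * Wt n : ℕ) : ℝ) < (((n + 1) * 10 ^ 16 : ℕ) : ℝ) := by exact_mod_cast b1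
      push_cast at b1'
      rw [div_pow, div_lt_iff₀ (by positivity)]
      nlinarith [b1']
  · intro n h1 h2
    obtain ⟨-, b2, b3⟩ := bd n (by omega) h2
    refine Good.mono (PkgTAB.main hG hS hC hM n h2 (by omega)) ?_
    apply Real.le_sqrt_of_sq_le
    have b3' : ((20 * (Wt n * Wt n) : ℕ) : ℝ) ≤ (((20 * n + 9) * 10 ^ 16 : ℕ) : ℝ) := by exact_mod_cast b3 h1
    push_cast at b3'
    rw [div_pow, div_le_iff₀ (by positivity)]
    nlinarith [b3']

end Pool.Agent.T2H87.CR
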