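import Pool.Agent.T2H87.CR.Frac

/-!
# Extremal graphs for the fractional chromatic number (for MP_8666b3_co)
-/

set_option autoImplicit false

open Finset

namespace Pool.Agent.T2H87.CR

/-- a large independent set or small weights: every graph on `m ^ 2 + j ≤ m ^ 2 + m` vertices or its
complement has fractional chromatic number at least `m + j / m` -/
theorem dich (m N : ℕ) (hm : 1 ≤ m) (hN : N ≤ m ^ 2 + m) (B : SimpleGraph (Fin N)) :
    Frac B ((N : ℝ) / m) ∨ Frac Bᶜ ((N : ℝ) / m) := by
  classical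
  have hm0 : (0 : ℝ) < m := by exact_mod_cast hm
  by_cases h : ∃ I : Finset (Fin N), (∀ x ∈ I, ∀ y ∈ I, ¬ B.Adj x y) ∧ m + 1 ≤ I.card
  · obtain ⟨I, hI, hc⟩ := h
    right
    refine ⟨fun v => if v ∈ I then 1 else 0, ⟨fun v => by dsimp only; split_ifs <;> norm_num, ?_⟩, ?_⟩
    · intro J hJ
      rw [← Finset.sum_filter, Finset.sum_const, nsmul_eq_mul, mul_one]
      have h1 : (J.filter (fun v => v ∈ I)).card ≤ 1 := by
        rw [Finset.card_le_one]
        intro a ha b hb
        rw [Finset.mem_filter] at ha hb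
        by_contra hab
        refine hJ a ha.1 b hb.1 ?_
        rw [SimpleGraph.compl_adj]
        exact ⟨hab, hI a ha.2 b hb.2⟩
      exact_mod_cast h1
    · rw [← Finset.sum_filter, Finset.sum_const, nsmul_eq_mul, mul_one, div_le_iff₀ hm0]
      have h2 : univ.filter (fun v => v ∈ I) = I := by ext v; simp
      rw [h2]
      have h3 : ((m : ℝ) + 1) * m ≤ I.card * m := by
        have : ((m : ℝ) + 1) ≤ I.card := by exact_mod_cast hc
        exact mul_le_mul_of_nonneg_right this hm0.le
      have h4 : (N : ℝ) ≤ m ^ 2 + m := by exact_mod_cast hN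
      nlinarith
  · left
    push Not at h
    refine ⟨fun _ => 1 / m, ⟨fun v => by positivity, ?_⟩, ?_⟩
    · intro I hI
      have h1 := h I hI
      rw [Finset.sum_const, nsmul_eq_mul, mul_one_div, div_le_one hm0]
      have : I.card ≤ m := by omega
      exact_mod_cast this
    · rw [Finset.sum_const, nsmul_eq_mul, Finset.card_univ, Fintype.card_fin, mul_one_div]

/-- the `(m - 1)`-st power of the cycle of length `n` -/
def cyc (m n : ℕ) : SimpleGraph (ZMod n) where
  Adj x y := x ≠ y ∧ ∃ k : ℕ, k < m ∧ (y = x + k ∨ x = y + k)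
  symm := ⟨fun _ _ h => ⟨h.1.symm, by
    obtain ⟨-, k, hk, h1 | h1⟩ := h
    · exact ⟨k, hk, Or.inr h1⟩
    · exact ⟨k, hk, Or.inl h1⟩⟩⟩
  loopless := ⟨fun _ h => h.1 rfl⟩

lemma cast_inj {n a b : ℕ} (ha : a < n) (hb : b < n) (h : (a : ZMod n) = b) : a = b := by
  rw [ZMod.natCast_eq_natCast_iff'] at h
  rwa [Nat.mod_eq_of_lt ha, Nat.mod_eq_of_lt hb] at h

lemma sum_shift {n : ℕ} [NeZero n] (m : ℕ) (c : ℕ → ZMod n) (g : ZMod n → ℝ)
    (h : ∀ x, ∑ i ∈ range m, g (x + c i) ≤ 1) : m * ∑ v, g v ≤ n := by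
  have h1 : ∑ x, ∑ i ∈ range m, g (x + c i) ≤ ∑ _x : ZMod n, (1 : ℝ) :=
    Finset.sum_le_sum fun x _ => h x
  rw [Finset.sum_comm] at h1
  have h2 : ∀ i, ∑ x, g (x + c i) = ∑ v, g v := fun i =>
    Equiv.sum_comp (Equiv.addRight (c i)) g
  simp only [h2, Finset.sum_const, Finset.card_range, nsmul_eq_mul, Finset.card_univ,
    ZMod.card, mul_one] at h1
  exact h1

lemma not_frac {n m : ℕ} [NeZero n] (hm : 1 ≤ m) (G : SimpleGraph (ZMod n)) (c : ℕ → ZMod n)
    (hinj : ∀ i < m, ∀ k < m, c i = c k → i = k)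
    (hind : ∀ x, ∀ i < m, ∀ k < m, ¬ G.Adj (x + c i) (x + c k)) :
    ¬ Frac G (((n + 1 : ℕ) : ℝ) / m) := by
  classical
  rintro ⟨g, hg, ht⟩
  have hm0 : (0 : ℝ) < m := by exact_mod_cast hm
  have h1 : (m : ℝ) * ∑ v, g v ≤ n := by
    refine sum_shift m c g fun x => ?_
    have h2 := hg.2 ((range m).image fun i => x + c i) (by
      intro a ha b hb
      rw [Finset.mem_image] at ha hb
      obtain ⟨i, hi, rfl⟩ := ha
      obtain ⟨k, hk, rfl⟩ := hb
      exact hind x i (Finset.mem_range.1 hi) k (Finset.mem_range.1 hk))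
    rwa [Finset.sum_image] at h2
    intro i hi k hk hik
    exact hinj i (Finset.mem_range.1 (by simpa using hi)) k
      (Finset.mem_range.1 (by simpa using hk)) (add_left_cancel hik)
  rw [div_le_iff₀ hm0] at ht
  push_cast at ht
  linarith

/-- the graph `cyc m n`, `n ≥ m ^ 2`, and its complement have fractional chromatic number at most
`n / m` -/
theorem cyc_not (m n : ℕ) [NeZero n] (hm : 1 ≤ m) (hn : m ^ 2 ≤ n) :
    ¬ Frac (cyc m n) (((n + 1 : ℕ) : ℝ) / m) ∧ ¬ Frac (cyc m n)ᶜ (((n + 1 : ℕ) : ℝ) / m) := by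
  have hmn : ∀ i < m, i * m + m ≤ n := by
    intro i hi
    have : (i + 1) * m ≤ m * m := Nat.mul_le_mul_right m hi
    nlinarith
  have hmn' : m ≤ n := by nlinarith
  constructor
  · refine not_frac hm _ (fun i => ((i * m : ℕ) : ZMod n)) ?_ ?_
    · intro i hi k hk h
      have h1 := cast_inj (by have := hmn i hi; omega) (by have := hmn k hk; omega) h
      exact Nat.eq_of_mul_eq_mul_right hm h1
    · intro x i hi k hk h
      obtain ⟨hne, r, hr, h1 | h1⟩ := h
      · rw [add_assoc, add_right_inj] at h1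
        have h2 : ((k * m : ℕ) : ZMod n) = ((i * m + r : ℕ) : ZMod n) := by
          rw [h1]; push_cast; ring
        have h3 := cast_inj (by have := hmn k hk; omega) (by have := hmn i hi; omega) h2
        apply hne
        have h4 : k = i := by
          rcases Nat.lt_trichotomy k i with h | h | h
          · have : (k + 1) * m ≤ i * m := Nat.mul_le_mul_right m h
            nlinarith
          · exact h
          · have : (i + 1) * m ≤ k * m := Nat.mul_le_mul_right m h
            nlinarith
        rw [h4]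
      · rw [add_assoc, add_right_inj] at h1
        have h2 : ((i * m : ℕ) : ZMod n) = ((k * m + r : ℕ) : ZMod n) := by
          rw [h1]; push_cast; ring
        have h3 := cast_inj (by have := hmn i hi; omega) (by have := hmn k hk; omega) h2
        apply hne
        have h4 : k = i := by
          rcases Nat.lt_trichotomy k i with h | h | h
          · have : (k + 1) * m ≤ i * m := Nat.mul_le_mul_right m h
            nlinarith
          · exact h
          · have : (i + 1) * m ≤ k * m := Nat.mul_le_mul_right m h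
            nlinarith
        rw [h4]
  · refine not_frac hm _ (fun i => ((i : ℕ) : ZMod n)) ?_ ?_
    · intro i hi k hk h
      exact cast_inj (by omega) (by omega) h
    · intro x i hi k hk h
      rw [SimpleGraph.compl_adj] at h
      refine h.2 ⟨h.1, ?_⟩
      rcases le_total i k with hik | hik
      · refine ⟨k - i, by omega, Or.inl ?_⟩
        rw [Nat.cast_sub hik]; ring
      · refine ⟨i - k, by omega, Or.inr ?_⟩
        rw [Nat.cast_sub hik]; ring

/-- the generic graph -/
theorem family (n : ℕ) (t : ℝ) (ht : 0 < t) :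
    ∃ (m : ℕ) (H : SimpleGraph (Fin m)), Frac H t ∧
      ∀ F : SimpleGraph (Fin n), Frac F t → Nonempty (H →g F) := by
  classical
  have key : ∀ L : Finset (SimpleGraph (Fin n)), (∀ F ∈ L, Frac F t) →
      ∃ (V : Type) (_ : Fintype V) (H : SimpleGraph V), Frac H t ∧
        ∀ F ∈ L, Nonempty (H →g F) := by
    intro L
    induction L using Finset.induction_on with
    | empty =>
      intro _
      obtain ⟨k, hk⟩ := exists_nat_ge t
      refine ⟨Fin k, inferInstance, ⊤, ⟨fun _ => 1, ⟨fun _ => zero_le_one, ?_⟩, ?_⟩, by simp⟩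
      · intro I hI
        rw [Finset.sum_const, nsmul_eq_mul, mul_one]
        have : I.card ≤ 1 := by
          rw [Finset.card_le_one]
          intro a ha b hb
          by_contra hab
          exact hI a ha b hb (by simpa using hab)
        exact_mod_cast this
      · simpa using hk
    | insert F0 L hnot ih =>
      intro hL
      obtain ⟨V, iV, H, hH, hhom⟩ := ih (fun F hF => hL F (Finset.mem_insert_of_mem hF))
      refine ⟨V × Fin n, inferInstance, catProd H F0,
        Frac.prod ht hH (hL F0 (Finset.mem_insert_self _ _)), ?_⟩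
      intro F hFm
      rw [Finset.mem_insert] at hFm
      rcases hFm with rfl | hFm
      · exact ⟨⟨Prod.snd, fun {a b} h => h.2⟩⟩
      · obtain ⟨f⟩ := hhom F hFm
        exact ⟨⟨fun q => f q.1, fun {a b} h => f.map_rel h.1⟩⟩
  obtain ⟨V, iV, H, hH, hhom⟩ := key (Finset.univ.filter (fun F => Frac F t))
    (fun F hF => (Finset.mem_filter.mp hF).2)
  refine ⟨Fintype.card V, H.comap (Fintype.equivFin V).symm,
    Frac.hom hH ⟨fun v => Fintype.equivFin V v, fun {a b} h => by simpa using h⟩, ?_⟩
  intro F hFc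
  obtain ⟨f⟩ := hhom F (Finset.mem_filter.mpr ⟨Finset.mem_univ _, hFc⟩)
  exact ⟨⟨fun x => f ((Fintype.equivFin V).symm x), fun {a b} h => f.map_rel (by simpa using h)⟩⟩

end Pool.Agent.T2H87.CR
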