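import Pool.Agent.T2H87.CR.Stm

set_option autoImplicit false

open Finset

namespace Pool.Agent.T2H87.CR

open Pool.Agent.H866R4.VD (Cert Gram Q)

namespace PkgDUAL

variable {N : ℕ}

/-- primal bound, positive diagonal -/
lemma primal0 {F : SimpleGraph (Fin N)} {κ : ℝ} (hno : ¬ Cert F κ) (M : Fin N → Fin N → ℝ)
    (hsym : ∀ x y, M x y = M y x) (hpsd : ∀ z, 0 ≤ Q M z) (hz : ∀ x y, x ≠ y → ¬ F.Adj x y → M x y = 0)
    (hd : ∀ x, 0 < M x x) : ∑ x, ∑ y, M x y ≤ (κ + 1) * ∑ x, M x x := by
  classical
  by_contra hlt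
  push Not at hlt
  apply hno
  set w : Fin N → ℝ := fun x => Real.sqrt (M x x) with hw
  have hw0 : ∀ x, 0 < w x := fun x => Real.sqrt_pos.mpr (hd x)
  have hw2 : ∀ x, w x * w x = M x x := fun x => Real.mul_self_sqrt (hd x).le
  refine ⟨fun x y => if F.Adj x y then M x y / (w x * w y) else 0, ?_, ?_, ?_, w, ?_⟩
  · intro x y
    beta_reduce
    by_cases h : F.Adj x y
    · rw [if_pos h, if_pos h.symm, hsym x y, mul_comm (w x)]
    · rw [if_neg h, if_neg (fun h' => h h'.symm)]
  · intro x y h
    beta_reduce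
    rw [if_neg h]
  · intro z
    have h := hpsd (fun x => z x / w x)
    have e : Q M (fun x => z x / w x) = ∑ x, z x ^ 2 +
        Q (fun x y => if F.Adj x y then M x y / (w x * w y) else 0) z := by
      unfold Q
      rw [← Finset.sum_add_distrib]
      refine Finset.sum_congr rfl fun x _ => ?_
      have : z x ^ 2 = ∑ y, if x = y then z x ^ 2 else 0 := by simp
      rw [this, ← Finset.sum_add_distrib]
      refine Finset.sum_congr rfl fun y _ => ?_
      beta_reduce
      have h1 := (hw0 x).ne'
      have h2 := (hw0 y).ne'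
      by_cases hxy : x = y
      · subst hxy
        rw [if_pos rfl, if_neg (F.loopless.irrefl x), ← hw2 x]
        field_simp
        ring
      · rw [if_neg hxy]
        by_cases ha : F.Adj x y
        · rw [if_pos ha]
          field_simp
          ring
        · rw [if_neg ha, hz x y hxy ha]
          ring
    rw [e] at h
    linarith
  · have e : Q (fun x y => if F.Adj x y then M x y / (w x * w y) else 0) w =
        ∑ x, ∑ y, M x y - ∑ x, M x x := by
      unfold Q
      rw [← Finset.sum_sub_distrib]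
      refine Finset.sum_congr rfl fun x _ => ?_
      have : M x x = ∑ y, if x = y then M x x else 0 := by simp
      rw [this, ← Finset.sum_sub_distrib]
      refine Finset.sum_congr rfl fun y _ => ?_
      beta_reduce
      have h1 := (hw0 x).ne'
      have h2 := (hw0 y).ne'
      by_cases hxy : x = y
      · subst hxy
        rw [if_pos rfl, if_neg (F.loopless.irrefl x)]
        ring
      · rw [if_neg hxy]
        by_cases ha : F.Adj x y
        · rw [if_pos ha]
          field_simp
          ring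
        · rw [if_neg ha, hz x y hxy ha]
          ring
    rw [e]
    have e2 : ∑ x, w x ^ 2 = ∑ x, M x x := Finset.sum_congr rfl fun x _ => by rw [sq, hw2]
    rw [e2]
    linarith

/-- primal bound -/
lemma primal {F : SimpleGraph (Fin N)} {κ : ℝ} (hκ : 0 < κ) (hno : ¬ Cert F κ) (M : Fin N → Fin N → ℝ)
    (hsym : ∀ x y, M x y = M y x) (hpsd : ∀ z, 0 ≤ Q M z) (hz : ∀ x y, x ≠ y → ¬ F.Adj x y → M x y = 0) :
    ∑ x, ∑ y, M x y ≤ (κ + 1) * ∑ x, M x x := by
  classical
  have hd : ∀ x, 0 ≤ M x x := by
    intro x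
    have h := hpsd (Pi.single x 1)
    have e : Q M (Pi.single x 1) = M x x := by
      unfold Q
      rw [Finset.sum_eq_single x, Finset.sum_eq_single x]
      · simp
      · intro b _ hb
        simp [Pi.single_apply, hb]
      · simp
      · intro b _ hb
        refine Finset.sum_eq_zero fun y _ => ?_
        simp [Pi.single_apply, hb]
      · simp
    rwa [e] at h
  have key : ∀ δ : ℝ, 0 < δ → ∑ x, ∑ y, M x y ≤ (κ + 1) * ∑ x, M x x + κ * N * δ := by
    intro δ hδ
    have h := primal0 hno (fun x y => M x y + if x = y then δ else 0) ?_ ?_ ?_ ?_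
    · have e1 : ∑ x, ∑ y, (M x y + if x = y then δ else 0) = ∑ x, ∑ y, M x y + N * δ := by
        simp only [Finset.sum_add_distrib]
        simp
      have e2 : ∑ x, (M x x + if x = x then δ else 0) = ∑ x, M x x + N * δ := by
        simp [Finset.sum_add_distrib]
      rw [e1, e2] at h
      nlinarith
    · intro x y
      rw [hsym x y]
      by_cases hxy : x = y
      · rw [hxy]
      · rw [if_neg hxy, if_neg (Ne.symm hxy)]
    · intro z
      have e : Q (fun x y => M x y + if x = y then δ else 0) z = Q M z + δ * ∑ x, z x ^ 2 := by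
        unfold Q
        rw [Finset.mul_sum, ← Finset.sum_add_distrib]
        refine Finset.sum_congr rfl fun x _ => ?_
        have : δ * z x ^ 2 = ∑ y, if x = y then δ * z x ^ 2 else 0 := by simp
        rw [this, ← Finset.sum_add_distrib]
        refine Finset.sum_congr rfl fun y _ => ?_
        by_cases hxy : x = y
        · subst hxy
          simp only [if_true]
          ring
        · simp only [if_neg hxy]
          ring
      rw [e]
      have := hpsd z
      positivity
    · intro x y hxy ha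
      rw [if_neg hxy, hz x y hxy ha, add_zero]
    · intro x
      have := hd x
      simp only [if_true]
      linarith
  rcases Nat.eq_zero_or_pos N with h0 | h0
  · subst h0
    simp
  · by_contra hlt
    push Not at hlt
    have hN : (0 : ℝ) < N := by exact_mod_cast h0
    set d := ∑ x, ∑ y, M x y - (κ + 1) * ∑ x, M x x with hd'
    have hd0 : 0 < d := by linarith
    have h := key (d / (2 * (κ * N))) (by positivity)
    have e : κ * N * (d / (2 * (κ * N))) = d / 2 := by field_simp
    rw [e] at h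
    linarith

/-- the unit rank one matrices -/
def S (N : ℕ) : Set (Fin N → Fin N → ℝ) :=
  (fun z : Fin N → ℝ => fun x y => z x * z y) '' {z | ∑ x, z x ^ 2 = 1}

lemma S_compact : IsCompact (S N) := by
  refine IsCompact.image ?_ ?_
  · refine Metric.isCompact_of_isClosed_isBounded ?_ ?_
    · exact isClosed_eq (by fun_prop) continuous_const
    · refine (Metric.isBounded_closedBall (x := (0 : Fin N → ℝ)) (r := 1)).subset ?_
      intro z hz
      rw [mem_closedBall_zero_iff, pi_norm_le_iff_of_nonneg zero_le_one]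
      intro x
      have h1 : z x ^ 2 ≤ ∑ y, z y ^ 2 :=
        Finset.single_le_sum (f := fun y => z y ^ 2) (fun y _ => sq_nonneg _) (Finset.mem_univ x)
      have h2 : z x ^ 2 ≤ 1 := h1.trans_eq hz
      rw [Real.norm_eq_abs]
      exact abs_le_one_iff_mul_self_le_one.mpr (by nlinarith)
  · fun_prop

/-- density matrices -/
def Dn (N : ℕ) : Set (Fin N → Fin N → ℝ) :=
  {M | (∀ x y, M x y = M y x) ∧ (∀ z, 0 ≤ Q M z) ∧ ∑ x, M x x = 1}

lemma hull_sub : convexHull ℝ (S N) ⊆ Dn N := by
  refine convexHull_min ?_ ?_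
  · rintro _ ⟨z, hz, rfl⟩
    refine ⟨fun x y => mul_comm _ _, fun v => ?_, ?_⟩
    · have : Q (fun x y => z x * z y) v = (∑ x, z x * v x) ^ 2 := by
        unfold Q
        rw [sq, Finset.sum_mul_sum]
        exact Finset.sum_congr rfl fun x _ => Finset.sum_congr rfl fun y _ => by ring
      rw [this]
      positivity
    · rw [← hz]
      exact Finset.sum_congr rfl fun x _ => (sq _).symm
  · rintro M ⟨h1, h2, h3⟩ M' ⟨h1', h2', h3'⟩ a b ha hb hab
    refine ⟨fun x y => ?_, fun z => ?_, ?_⟩
    · simp only [Pi.add_apply, Pi.smul_apply, smul_eq_mul]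
      rw [h1 x y, h1' x y]
    · have e : Q (a • M + b • M') z = a * Q M z + b * Q M' z := by
        unfold Q
        rw [Finset.mul_sum, Finset.mul_sum, ← Finset.sum_add_distrib]
        refine Finset.sum_congr rfl fun x _ => ?_
        rw [Finset.mul_sum, Finset.mul_sum, ← Finset.sum_add_distrib]
        refine Finset.sum_congr rfl fun y _ => ?_
        simp only [Pi.add_apply, Pi.smul_apply, smul_eq_mul]
        ring
      rw [e]
      have := h2 z
      have := h2' z
      positivity
    · simp only [Pi.add_apply, Pi.smul_apply, smul_eq_mul]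
      rw [Finset.sum_add_distrib, ← Finset.mul_sum, ← Finset.mul_sum, h3, h3', mul_one, mul_one, hab]

lemma Dn_closed : IsClosed (Dn N) := by
  have h1 : IsClosed {M : Fin N → Fin N → ℝ | ∀ x y, M x y = M y x} := by
    have : {M : Fin N → Fin N → ℝ | ∀ x y, M x y = M y x} = ⋂ x, ⋂ y, {M | M x y = M y x} := by
      ext M
      simp
    rw [this]
    exact isClosed_iInter fun x => isClosed_iInter fun y => isClosed_eq (by fun_prop) (by fun_prop)
  have h2 : IsClosed {M : Fin N → Fin N → ℝ | ∀ z, 0 ≤ Q M z} := by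
    have : {M : Fin N → Fin N → ℝ | ∀ z, 0 ≤ Q M z} = ⋂ z, {M | 0 ≤ Q M z} := by
      ext M
      simp
    rw [this]
    refine isClosed_iInter fun z => isClosed_le continuous_const ?_
    unfold Q
    fun_prop
  have h3 : IsClosed {M : Fin N → Fin N → ℝ | ∑ x, M x x = 1} := isClosed_eq (by fun_prop) continuous_const
  exact h1.inter (h2.inter h3)

/-- the closed convex hull -/
def CH (N : ℕ) : Set (Fin N → Fin N → ℝ) := closure (convexHull ℝ (S N))

lemma CH_sub : CH N ⊆ Dn N := closure_minimal hull_sub Dn_closed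

lemma CH_compact : IsCompact (CH N) :=
  Metric.isCompact_of_isClosed_isBounded isClosed_closure
    ((isBounded_convexHull.mpr S_compact.isBounded).closure)

lemma CH_convex : Convex ℝ (CH N) := (convex_convexHull ℝ (S N)).closure

/-- the entries of the pairs which are not edges -/
def NA (F : SimpleGraph (Fin N)) (x y : Fin N) : Prop := x ≠ y ∧ ¬ F.Adj x y

open Classical in
/-- the linear map of the separation argument -/
noncomputable def Lm (F : SimpleGraph (Fin N)) (t : ℝ) :
    (Fin N → Fin N → ℝ) →ₗ[ℝ] (Fin N → Fin N → ℝ) × ℝ where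
  toFun M := (fun x y => if NA F x y then M x y else 0, ∑ x, ∑ y, M x y - t * ∑ x, M x x)
  map_add' M M' := by
    refine Prod.ext ?_ ?_
    · funext x y
      simp only [Pi.add_apply, Prod.mk_add_mk]
      split_ifs <;> simp
    · simp only [Pi.add_apply, Prod.mk_add_mk, Finset.sum_add_distrib]
      ring
  map_smul' c M := by
    refine Prod.ext ?_ ?_
    · funext x y
      simp only [Pi.smul_apply, smul_eq_mul, RingHom.id_apply, Prod.smul_mk]
      split_ifs <;> simp
    · simp only [Pi.smul_apply, smul_eq_mul, RingHom.id_apply, Prod.smul_mk, ← Finset.mul_sum]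
      ring

lemma decomp (P : Fin N → Fin N → ℝ) (g : (Fin N → Fin N → ℝ) →ₗ[ℝ] ℝ) :
    g P = ∑ x, ∑ y, P x y * g (Pi.single x (Pi.single y 1)) := by
  classical
  have e : P = ∑ x, ∑ y, P x y • (Pi.single x (Pi.single y 1) : Fin N → Fin N → ℝ) := by
    funext a b
    simp only [Finset.sum_apply, Pi.smul_apply, smul_eq_mul]
    rw [Finset.sum_eq_single a, Finset.sum_eq_single b]
    · simp
    · intro y _ hy
      simp [Pi.single_apply, Ne.symm hy]
    · simp
    · intro x _ hx
      refine Finset.sum_eq_zero fun y _ => ?_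
      simp [Pi.single_apply, Ne.symm hx]
    · simp
  conv_lhs => rw [e]
  simp only [map_sum, map_smul, smul_eq_mul]

/-- the dual matrix -/
lemma dual {F : SimpleGraph (Fin N)} {κ t : ℝ} (hκ : 0 < κ) (ht : κ + 1 < t) (hN : 0 < N)
    (hno : ¬ Cert F κ) : ∃ Z : Fin N → Fin N → ℝ, (∀ x y, Z x y = Z y x) ∧ (∀ x y, ¬ NA F x y → Z x y = 0) ∧
      ∀ z : Fin N → ℝ, (∑ x, z x) ^ 2 + Q Z z ≤ t * ∑ x, z x ^ 2 := by
  classical
  set K : Set ((Fin N → Fin N → ℝ) × ℝ) := Lm F t '' (CH N) with hK
  have hLc : Continuous (Lm F t) := LinearMap.continuous_of_finiteDimensional _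
  have hKc : IsCompact K := CH_compact.image hLc
  have hKx : Convex ℝ K := CH_convex.linear_image (Lm F t)
  set C : Set ((Fin N → Fin N → ℝ) × ℝ) := {p | p.1 = 0 ∧ 0 ≤ p.2} with hC
  have hCx : Convex ℝ C := by
    rintro p ⟨h1, h2⟩ q ⟨h3, h4⟩ a b ha hb hab
    refine ⟨?_, ?_⟩
    · rw [Prod.fst_add, Prod.smul_fst, Prod.smul_fst, h1, h3]
      simp
    · rw [Prod.snd_add, Prod.smul_snd, Prod.smul_snd, smul_eq_mul, smul_eq_mul]
      positivity
  have hCc : IsClosed C := by
    have h1 : IsClosed {p : (Fin N → Fin N → ℝ) × ℝ | p.1 = 0} := isClosed_eq continuous_fst continuous_const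
    have h2 : IsClosed {p : (Fin N → Fin N → ℝ) × ℝ | 0 ≤ p.2} := isClosed_le continuous_const continuous_snd
    exact h1.inter h2
  have hdis : Disjoint K C := by
    rw [Set.disjoint_left]
    rintro _ ⟨M, hM, rfl⟩ ⟨h1, h2⟩
    obtain ⟨m1, m2, m3⟩ := CH_sub hM
    have h3 := primal hκ hno M m1 m2 (fun x y hxy ha => by
      have := congrFun (congrFun h1 x) y
      simp only [Lm, LinearMap.coe_mk, AddHom.coe_mk, Pi.zero_apply] at this
      rwa [if_pos ⟨hxy, ha⟩] at this)
    simp only [Lm, LinearMap.coe_mk, AddHom.coe_mk] at h2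
    rw [m3] at h2 h3
    linarith
  obtain ⟨f, u, v, hf1, huv, hf2⟩ := geometric_hahn_banach_compact_closed hKx hKc hCx hCc hdis
  have hv : v < 0 := by
    have := hf2 0 ⟨rfl, le_rfl⟩
    simpa using this
  set c := f (0, 1) with hc
  have hc0 : 0 ≤ c := by
    by_contra h
    push Not at h
    have h2 := hf2 (0, v / c) ⟨rfl, (div_pos_of_neg_of_neg hv h).le⟩
    have e : f (0, v / c) = v / c * c := by
      have : ((0 : Fin N → Fin N → ℝ), v / c) = (v / c) • ((0 : Fin N → Fin N → ℝ), (1 : ℝ)) := by
        rw [Prod.smul_mk, smul_zero, smul_eq_mul, mul_one]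
      rw [this, map_smul, smul_eq_mul]
    rw [e, div_mul_cancel₀ _ h.ne] at h2
    exact lt_irrefl _ h2
  set g : (Fin N → Fin N → ℝ) →ₗ[ℝ] ℝ := (f : ((Fin N → Fin N → ℝ) × ℝ) →ₗ[ℝ] ℝ).comp
    (LinearMap.inl ℝ (Fin N → Fin N → ℝ) ℝ) with hg
  set Y : Fin N → Fin N → ℝ := fun x y => g (Pi.single x (Pi.single y 1)) with hY
  have hf : ∀ p : (Fin N → Fin N → ℝ) × ℝ, f p = ∑ x, ∑ y, p.1 x y * Y x y + p.2 * c := by
    intro p
    have e : p = (p.1, 0) + p.2 • ((0 : Fin N → Fin N → ℝ), (1 : ℝ)) := by
      refine Prod.ext ?_ ?_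
      · simp
      · simp
    have e2 : f (p.1, 0) = g p.1 := rfl
    conv_lhs => rw [e]
    rw [map_add, map_smul, smul_eq_mul, e2, decomp p.1 g]
  have hunit : ∀ z : Fin N → ℝ, ∑ x, z x ^ 2 = 1 →
      ∑ x, ∑ y, (if NA F x y then z x * z y else 0) * Y x y + ((∑ x, z x) ^ 2 - t) * c < 0 := by
    intro z hz
    have h := hf1 (Lm F t (fun x y => z x * z y)) ⟨_, subset_closure (subset_convexHull ℝ _ ⟨z, hz, rfl⟩), rfl⟩
    rw [hf] at h
    simp only [Lm, LinearMap.coe_mk, AddHom.coe_mk] at h
    have e1 : ∑ x, ∑ y, z x * z y = (∑ x, z x) ^ 2 := by rw [sq, Finset.sum_mul_sum]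
    have e2 : ∑ x, z x * z x = 1 := by rw [← hz]; exact Finset.sum_congr rfl fun x _ => (sq _).symm
    rw [e1, e2, mul_one] at h
    linarith
  have hcpos : 0 < c := by
    rcases hc0.eq_or_lt with h | h
    · exfalso
      have h2 := hunit (Pi.single ⟨0, hN⟩ 1) (by
        rw [Finset.sum_eq_single ⟨0, hN⟩]
        · simp
        · intro b _ hb
          simp [Pi.single_apply, hb]
        · simp)
      rw [← h, mul_zero, add_zero] at h2
      have e : ∑ x, ∑ y, (if NA F x y then (Pi.single (⟨0, hN⟩ : Fin N) (1 : ℝ) : Fin N → ℝ) x *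
          (Pi.single (⟨0, hN⟩ : Fin N) (1 : ℝ) : Fin N → ℝ) y else 0) * Y x y = 0 := by
        refine Finset.sum_eq_zero fun x _ => Finset.sum_eq_zero fun y _ => ?_
        by_cases hna : NA F x y
        · have : x ≠ y := hna.1
          rw [if_pos hna, Pi.single_apply, Pi.single_apply]
          by_cases hx : x = ⟨0, hN⟩
          · have hy : y ≠ ⟨0, hN⟩ := fun hy => this (hx.trans hy.symm)
            rw [if_neg hy, mul_zero, zero_mul]
          · rw [if_neg hx, zero_mul, zero_mul]
        · rw [if_neg hna, zero_mul]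
      rw [e] at h2
      exact lt_irrefl _ h2
    · exact h
  have hNAs : ∀ x y, NA F x y ↔ NA F y x := fun x y =>
    ⟨fun h => ⟨h.1.symm, fun h' => h.2 h'.symm⟩, fun h => ⟨h.1.symm, fun h' => h.2 h'.symm⟩⟩
  refine ⟨fun x y => if NA F x y then (Y x y + Y y x) / (2 * c) else 0, ?_, ?_, ?_⟩
  · intro x y
    beta_reduce
    by_cases h : NA F x y
    · rw [if_pos h, if_pos ((hNAs x y).mp h), add_comm]
    · rw [if_neg h, if_neg (fun h' => h ((hNAs x y).mpr h'))]
  · intro x y h
    beta_reduce
    rw [if_neg h]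
  · have hQ : ∀ z : Fin N → ℝ, c * Q (fun x y => if NA F x y then (Y x y + Y y x) / (2 * c) else 0) z =
        ∑ x, ∑ y, (if NA F x y then z x * z y else 0) * Y x y := by
      intro z
      have h1 : ∑ x, ∑ y, (if NA F x y then z x * z y else 0) * Y x y =
          ∑ x, ∑ y, (if NA F x y then z x * z y else 0) * Y y x := by
        rw [Finset.sum_comm]
        refine Finset.sum_congr rfl fun x _ => Finset.sum_congr rfl fun y _ => ?_
        by_cases h : NA F x y
        · rw [if_pos h, if_pos ((hNAs x y).mp h), mul_comm (z y)]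
        · rw [if_neg h, if_neg (fun h' => h ((hNAs x y).mpr h'))]
      have h2 : c * Q (fun x y => if NA F x y then (Y x y + Y y x) / (2 * c) else 0) z =
          1 / 2 * (∑ x, ∑ y, (if NA F x y then z x * z y else 0) * Y x y) +
            1 / 2 * ∑ x, ∑ y, (if NA F x y then z x * z y else 0) * Y y x := by
        unfold Q
        rw [Finset.mul_sum, Finset.mul_sum, Finset.mul_sum, ← Finset.sum_add_distrib]
        refine Finset.sum_congr rfl fun x _ => ?_
        rw [Finset.mul_sum, Finset.mul_sum, Finset.mul_sum, ← Finset.sum_add_distrib]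
        refine Finset.sum_congr rfl fun y _ => ?_
        by_cases h : NA F x y
        · simp only [if_pos h]
          field_simp
        · simp only [if_neg h]
          ring
      rw [h2, ← h1]
      ring
    intro z
    set W : Fin N → Fin N → ℝ := fun x y => if NA F x y then (Y x y + Y y x) / (2 * c) else 0 with hW
    have hu : ∀ e : Fin N → ℝ, ∑ x, e x ^ 2 = 1 → (∑ x, e x) ^ 2 + Q W e ≤ t := by
      intro e he
      have h1 := hunit e he
      rw [← hQ e] at h1
      have h2 : c * ((∑ x, e x) ^ 2 + Q W e - t) < 0 := by linarith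
      by_contra h3
      push Not at h3
      have h4 : 0 ≤ c * ((∑ x, e x) ^ 2 + Q W e - t) := mul_nonneg hcpos.le (by linarith)
      linarith
    by_cases hz : ∑ x, z x ^ 2 = 0
    · have hz0 : ∀ x, z x = 0 := by
        intro x
        have := (Finset.sum_eq_zero_iff_of_nonneg (fun x _ => sq_nonneg (z x))).mp hz x (Finset.mem_univ x)
        exact pow_eq_zero_iff (two_ne_zero) |>.mp this
      have e1 : ∑ x, z x = 0 := Finset.sum_eq_zero fun x _ => hz0 x
      have e2 : Q W z = 0 := Finset.sum_eq_zero fun x _ => Finset.sum_eq_zero fun y _ => by rw [hz0 x]; ring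
      rw [hz, e1, e2]
      simp
    · have hpos : 0 < ∑ x, z x ^ 2 := lt_of_le_of_ne (Finset.sum_nonneg fun x _ => sq_nonneg _) (Ne.symm hz)
      set r := Real.sqrt (∑ x, z x ^ 2) with hr
      have hr0 : 0 < r := Real.sqrt_pos.mpr hpos
      have hr2 : r ^ 2 = ∑ x, z x ^ 2 := Real.sq_sqrt hpos.le
      have h1 := hu (fun x => z x / r) (by
        have : ∀ x, (z x / r) ^ 2 = z x ^ 2 / r ^ 2 := fun x => div_pow _ _ _
        simp only [this]
        rw [← Finset.sum_div, ← hr2, div_self (by positivity)])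
      have e1 : ∑ x, z x / r = (∑ x, z x) / r := (Finset.sum_div _ _ _).symm
      have e2 : Q W (fun x => z x / r) = Q W z / r ^ 2 := by
        unfold Q
        rw [Finset.sum_div]
        refine Finset.sum_congr rfl fun x _ => ?_
        rw [Finset.sum_div]
        refine Finset.sum_congr rfl fun y _ => ?_
        field_simp
      rw [e1, e2, div_pow, ← add_div, div_le_iff₀ (by positivity), hr2] at h1
      exact h1

end PkgDUAL

open PkgDUAL in
theorem pDUAL : S_DUAL := by
  intro N κ hκ hN F
  by_contra hcon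
  push Not at hcon
  obtain ⟨hno, hno'⟩ := hcon
  have hN0 : 0 < N := by
    rcases Nat.eq_zero_or_pos N with h | h
    · subst h
      simp only [Nat.cast_zero] at hN
      nlinarith [sq_nonneg (κ + 1)]
    · exact h
  have hNr : (0 : ℝ) < N := by exact_mod_cast hN0
  have hκ1 : 0 < κ + 1 := by linarith
  obtain ⟨t, ht1, ht2⟩ : ∃ t, κ + 1 < t ∧ t < N / (κ + 1) := by
    refine exists_between ?_
    rw [lt_div_iff₀ hκ1, ← sq]
    exact hN
  have ht0 : 0 < t := by linarith
  have ht3 : t * (κ + 1) < N := by rwa [lt_div_iff₀ hκ1] at ht2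
  obtain ⟨Z, h1, h2, h3⟩ := dual hκ ht1 hN0 hno
  apply hno'
  have hQ : ∀ z, Q (fun x y => -(Z x y / t)) z = -(Q Z z / t) := by
    intro z
    unfold Q
    rw [Finset.sum_div, ← Finset.sum_neg_distrib]
    refine Finset.sum_congr rfl fun x _ => ?_
    rw [Finset.sum_div, ← Finset.sum_neg_distrib]
    refine Finset.sum_congr rfl fun y _ => ?_
    ring
  refine ⟨fun x y => -(Z x y / t), fun x y => ?_, fun x y hxy => ?_, fun z => ?_, fun _ => 1, ?_⟩
  · beta_reduce
    rw [h1 x y]
  · beta_reduce
    rw [h2 x y, zero_div, neg_zero]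
    rintro ⟨h4, h5⟩
    exact hxy ((SimpleGraph.compl_adj _ _ _).mpr ⟨h4, h5⟩)
  · rw [hQ]
    have h4 := h3 z
    have h5 : Q Z z ≤ t * ∑ x, z x ^ 2 := by nlinarith [sq_nonneg (∑ x, z x)]
    have h6 : Q Z z / t ≤ ∑ x, z x ^ 2 := by
      rw [div_le_iff₀ ht0]
      linarith
    linarith
  · rw [hQ]
    have h4 := h3 (fun _ => 1)
    simp only [one_pow, Finset.sum_const, Finset.card_univ, Fintype.card_fin, nsmul_eq_mul, mul_one] at h4 ⊢
    have h5 : Q Z (fun _ => 1) / t ≤ N - N ^ 2 / t := by
      rw [div_le_iff₀ ht0]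
      have : (N - N ^ 2 / t : ℝ) * t = t * N - N ^ 2 := by field_simp
      rw [this]
      linarith
    have h6 : κ * N < N ^ 2 / t - N := by
      have : (N : ℝ) ^ 2 / t - N = N * (N / t - 1) := by ring
      rw [this, mul_comm]
      refine mul_lt_mul_of_pos_left ?_ hNr
      rw [lt_sub_iff_add_lt, lt_div_iff₀ ht0, mul_comm]
      exact ht3
    linarith

end Pool.Agent.T2H87.CR
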