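import Mathlib

/-!
# Fractional cliques and categorical products (for MP_8666b3_co)

`Frac G t`: the fractional chromatic number of `G` is at least `t` (in the dual form: there is a
fractional clique of total weight at least `t`).  The class `{G : Frac G t}` is closed under
homomorphic images (`Frac.hom`) and under categorical products (`Frac.prod`, Zhu's theorem).
-/

set_option autoImplicit false

open Finset

namespace Pool.Agent.T2H87.CR

/-- fractional cliques: nonnegative weights, at most `1` on every independent set -/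
def IsCl {V : Type} [Fintype V] (G : SimpleGraph V) (g : V → ℝ) : Prop :=
  (∀ v, 0 ≤ g v) ∧ ∀ I : Finset V, (∀ x ∈ I, ∀ y ∈ I, ¬ G.Adj x y) → ∑ x ∈ I, g x ≤ 1

/-- there is a fractional clique of weight at least `t` -/
def Frac {V : Type} [Fintype V] (G : SimpleGraph V) (t : ℝ) : Prop :=
  ∃ g : V → ℝ, IsCl G g ∧ t ≤ ∑ v, g v

/-- categorical product -/
def catProd {V W : Type} (F : SimpleGraph V) (F' : SimpleGraph W) : SimpleGraph (V × W) where
  Adj p q := F.Adj p.1 q.1 ∧ F'.Adj p.2 q.2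
  symm := ⟨fun _ _ h => ⟨h.1.symm, h.2.symm⟩⟩
  loopless := ⟨fun _ h => h.1.ne rfl⟩

section

variable {V W : Type} [Fintype V] [Fintype W]

lemma exists_max (G : SimpleGraph V) {t : ℝ} (h : Frac G t) :
    ∃ g : V → ℝ, IsCl G g ∧ t ≤ ∑ v, g v ∧ ∀ g', IsCl G g' → ∑ v, g' v ≤ ∑ v, g v := by
  classical
  obtain ⟨g₀, hg₀, ht⟩ := h
  have hclosed : IsClosed {g : V → ℝ | IsCl G g} := by
    simp only [IsCl, Set.ofPred_and, Set.ofPred_forall]
    refine IsClosed.inter (isClosed_iInter fun v => ?_)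
      (isClosed_iInter fun I => isClosed_iInter fun _ => ?_)
    · exact isClosed_le continuous_const (continuous_apply v)
    · exact isClosed_le (continuous_finsetSum _ fun x _ => continuous_apply x) continuous_const
  have hsub : {g : V → ℝ | IsCl G g} ⊆ Set.univ.pi fun _ => Set.Icc (0 : ℝ) 1 := by
    intro g hg v _
    refine ⟨hg.1 v, ?_⟩
    have := hg.2 {v} (by
      intro x hx y hy
      rw [Finset.mem_singleton] at hx hy
      rw [hx, hy]
      exact G.loopless.irrefl v)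
    simpa using this
  have hcomp : IsCompact {g : V → ℝ | IsCl G g} :=
    (isCompact_univ_pi fun _ => isCompact_Icc).of_isClosed_subset hclosed hsub
  obtain ⟨g, hg, hmax⟩ := hcomp.exists_isMaxOn ⟨g₀, hg₀⟩
    (f := fun g : V → ℝ => ∑ v, g v)
    (continuous_finsetSum _ fun x _ => continuous_apply x).continuousOn
  exact ⟨g, hg, ht.trans (hmax hg₀), fun g' hg' => hmax hg'⟩

/-- closed neighbourhood of a set -/
noncomputable def nb (G : SimpleGraph V) (X : Finset V) : Finset V := by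
  classical
  exact univ.filter fun v => v ∈ X ∨ ∃ x ∈ X, G.Adj x v

lemma mem_nb (G : SimpleGraph V) (X : Finset V) (v : V) :
    v ∈ nb G X ↔ v ∈ X ∨ ∃ x ∈ X, G.Adj x v := by
  classical
  simp [nb]

/-- a maximum fractional clique expands: closed neighbourhoods of independent sets are large -/
lemma expand (G : SimpleGraph V) (g : V → ℝ) (hg : IsCl G g)
    (hmax : ∀ g', IsCl G g' → ∑ v, g' v ≤ ∑ v, g v) (X : Finset V)
    (hX : ∀ x ∈ X, ∀ y ∈ X, ¬ G.Adj x y) :
    (∑ v, g v) * ∑ x ∈ X, g x ≤ ∑ v ∈ nb G X, g v := by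
  classical
  set N := nb G X with hN
  set g1 : V → ℝ := fun v => if v ∈ N then 0 else g v with hg1
  have hXN : X ⊆ N := fun x hx => (mem_nb G X x).2 (Or.inl hx)
  have hsumI : ∀ I : Finset V, ∑ x ∈ I, g1 x = ∑ x ∈ I \ N, g x := by
    intro I
    rw [Finset.sdiff_eq_filter, Finset.sum_filter]
    refine Finset.sum_congr rfl fun x _ => ?_
    simp only [hg1]
    by_cases h : x ∈ N <;> simp [h]
  have hI : ∀ I : Finset V, (∀ x ∈ I, ∀ y ∈ I, ¬ G.Adj x y) →
      ∑ x ∈ I, g1 x ≤ 1 - ∑ x ∈ X, g x := by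
    intro I hI
    rw [hsumI]
    have hd : Disjoint (I \ N) X := by
      rw [Finset.disjoint_left]
      intro x hx hxX
      exact (Finset.mem_sdiff.1 hx).2 (hXN hxX)
    have h1 := hg.2 ((I \ N) ∪ X) (by
      intro x hx y hy hxy
      rw [Finset.mem_union, Finset.mem_sdiff] at hx hy
      rcases hx with hx | hx <;> rcases hy with hy | hy
      · exact hI x hx.1 y hy.1 hxy
      · exact hx.2 ((mem_nb G X x).2 (Or.inr ⟨y, hy, hxy.symm⟩))
      · exact hy.2 ((mem_nb G X y).2 (Or.inr ⟨x, hx, hxy⟩))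
      · exact hX x hx y hy hxy)
    rw [Finset.sum_union hd] at h1
    linarith
  have hg10 : ∀ v, 0 ≤ g1 v := by
    intro v
    simp only [hg1]
    split_ifs
    · exact le_rfl
    · exact hg.1 v
  have htot : ∑ v, g1 v = ∑ v, g v - ∑ v ∈ N, g v := by
    rw [hsumI, Finset.sdiff_eq_filter]
    have := Finset.sum_filter_add_sum_filter_not univ (fun v => v ∈ N) g
    have h2 : ∑ v ∈ univ.filter (fun v => v ∈ N), g v = ∑ v ∈ N, g v := by
      congr 1
      ext v
      simp
    linarith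
  have hgX := hg.2 X hX
  rcases lt_or_eq_of_le hgX with hlt | heq
  · have hpos : 0 < 1 - ∑ x ∈ X, g x := by linarith
    have h2 := hmax (fun v => g1 v / (1 - ∑ x ∈ X, g x)) (by
      refine ⟨fun v => div_nonneg (hg10 v) hpos.le, fun I hI' => ?_⟩
      rw [← Finset.sum_div, div_le_one hpos]
      exact hI I hI')
    rw [← Finset.sum_div, div_le_iff₀ hpos, htot] at h2
    nlinarith
  · rw [heq, mul_one]
    have h3 : ∀ v, g1 v = 0 := by
      intro v
      refine le_antisymm ?_ (hg10 v)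
      have := hI {v} (by
        intro x hx y hy
        rw [Finset.mem_singleton] at hx hy
        rw [hx, hy]
        exact G.loopless.irrefl v)
      rw [heq] at this
      simpa using this
    have h4 : ∑ v, g1 v = 0 := Finset.sum_eq_zero fun v _ => h3 v
    linarith

lemma sum_right (T : Finset (V × W)) (F : V × W → ℝ) [DecidableEq V] [DecidableEq W] :
    ∑ p ∈ T, F p = ∑ y, ∑ x ∈ univ.filter (fun x => (x, y) ∈ T), F (x, y) := by
  have h1 : ∑ p ∈ T, F p = ∑ p, if p ∈ T then F p else 0 := by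
    rw [Finset.sum_ite_mem, Finset.univ_inter]
  rw [h1, Fintype.sum_prod_type_right]
  refine Finset.sum_congr rfl fun y _ => ?_
  rw [Finset.sum_filter]

lemma sum_left (T : Finset (V × W)) (F : V × W → ℝ) [DecidableEq V] [DecidableEq W] :
    ∑ p ∈ T, F p = ∑ x, ∑ y ∈ univ.filter (fun y => (x, y) ∈ T), F (x, y) := by
  have h1 : ∑ p ∈ T, F p = ∑ p, if p ∈ T then F p else 0 := by
    rw [Finset.sum_ite_mem, Finset.univ_inter]
  rw [h1, Fintype.sum_prod_type]
  refine Finset.sum_congr rfl fun y _ => ?_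
  rw [Finset.sum_filter]

/-- **Zhu's theorem**: fractional version of Hedetniemi's conjecture -/
theorem Frac.prod {G : SimpleGraph V} {H : SimpleGraph W} {t : ℝ} (ht : 0 < t)
    (hG : Frac G t) (hH : Frac H t) : Frac (catProd G H) t := by
  classical
  obtain ⟨g, hg, hgt, hgm⟩ := exists_max G hG
  obtain ⟨h, hh, hht, hhm⟩ := exists_max H hH
  set Wg := ∑ v, g v with hWg
  set Wh := ∑ v, h v with hWh
  have hWg0 : 0 < Wg := lt_of_lt_of_le ht hgt
  have hWh0 : 0 < Wh := lt_of_lt_of_le ht hht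
  have htotal : ∑ p : V × W, g p.1 * h p.2 = Wg * Wh := by
    rw [Fintype.sum_prod_type, hWg, hWh, Finset.sum_mul_sum]
  have hk0 : ∀ p : V × W, 0 ≤ g p.1 * h p.2 := fun p => mul_nonneg (hg.1 _) (hh.1 _)
  have key : ∀ U : Finset (V × W), (∀ x ∈ U, ∀ y ∈ U, ¬ (catProd G H).Adj x y) →
      ∑ p ∈ U, g p.1 * h p.2 ≤ max Wg Wh := by
    intro U hU
    set A := U.filter (fun p => ∀ x', G.Adj p.1 x' → (x', p.2) ∉ U) with hA
    set B := U.filter (fun p => ¬ ∀ x', G.Adj p.1 x' → (x', p.2) ∉ U) with hB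
    set Ay : W → Finset V := fun y => univ.filter (fun x => (x, y) ∈ A) with hAy
    set Bx : V → Finset W := fun x => univ.filter (fun y => (x, y) ∈ B) with hBx
    have memA : ∀ x y, (x, y) ∈ A ↔ (x, y) ∈ U ∧ ∀ x', G.Adj x x' → (x', y) ∉ U := by
      intro x y; simp [hA]
    have memB : ∀ x y, (x, y) ∈ B ↔ (x, y) ∈ U ∧ ∃ x', G.Adj x x' ∧ (x', y) ∈ U := by
      intro x y; simp [hB]
    have hAyi : ∀ y, ∀ x ∈ Ay y, ∀ x' ∈ Ay y, ¬ G.Adj x x' := by
      intro y x hx x' hx' hadj
      simp only [hAy, Finset.mem_filter, Finset.mem_univ, true_and] at hx hx'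
      exact ((memA _ _).1 hx).2 x' hadj ((memA _ _).1 hx').1
    have hBxi : ∀ x, ∀ y ∈ Bx x, ∀ y' ∈ Bx x, ¬ H.Adj y y' := by
      intro x y hy y' hy' hadj
      simp only [hBx, Finset.mem_filter, Finset.mem_univ, true_and] at hy hy'
      obtain ⟨-, x', hx', hx'U⟩ := (memB _ _).1 hy
      exact hU (x', y) hx'U (x, y') ((memB _ _).1 hy').1 ⟨hx'.symm, hadj⟩
    set P := univ.filter (fun p : V × W => p.1 ∈ nb G (Ay p.2)) with hP
    set R := univ.filter (fun p : V × W => p.2 ∈ nb H (Bx p.1)) with hR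
    have hPR : Disjoint P R := by
      rw [Finset.disjoint_left]
      rintro ⟨x, y⟩ h1 h2
      simp only [hP, hR, Finset.mem_filter, Finset.mem_univ, true_and, mem_nb] at h1 h2
      simp only [hAy, hBx, Finset.mem_filter, Finset.mem_univ, true_and] at h1 h2
      rcases h1 with h1 | ⟨x', h1, h1'⟩ <;> rcases h2 with h2 | ⟨y', h2, h2'⟩
      · obtain ⟨-, x', hx', hx'U⟩ := (memB _ _).1 h2
        exact ((memA _ _).1 h1).2 x' hx' hx'U
      · obtain ⟨-, x', hx', hx'U⟩ := (memB _ _).1 h2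
        exact hU (x', y') hx'U (x, y) ((memA _ _).1 h1).1 ⟨hx'.symm, h2'⟩
      · exact ((memA _ _).1 h1).2 x h1' ((memB _ _).1 h2).1
      · exact hU (x', y) ((memA _ _).1 h1).1 (x, y') ((memB _ _).1 h2).1 ⟨h1', h2'.symm⟩
    have hsum : ∑ p ∈ P, g p.1 * h p.2 + ∑ p ∈ R, g p.1 * h p.2 ≤ Wg * Wh := by
      rw [← Finset.sum_union hPR, ← htotal]
      exact Finset.sum_le_sum_of_subset_of_nonneg (Finset.subset_univ _) fun p _ _ => hk0 p
    have hPA : Wg * ∑ p ∈ A, g p.1 * h p.2 ≤ ∑ p ∈ P, g p.1 * h p.2 := by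
      rw [sum_right, sum_right, Finset.mul_sum]
      refine Finset.sum_le_sum fun y _ => ?_
      have h1 : univ.filter (fun x => (x, y) ∈ P) = nb G (Ay y) := by
        ext x; simp [hP]
      rw [h1]
      simp only
      rw [← Finset.sum_mul, ← Finset.sum_mul, ← mul_assoc]
      exact mul_le_mul_of_nonneg_right (expand G g hg hgm (Ay y) (hAyi y)) (hh.1 y)
    have hRB : Wh * ∑ p ∈ B, g p.1 * h p.2 ≤ ∑ p ∈ R, g p.1 * h p.2 := by
      rw [sum_left, sum_left, Finset.mul_sum]
      refine Finset.sum_le_sum fun x _ => ?_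
      have h1 : univ.filter (fun y => (x, y) ∈ R) = nb H (Bx x) := by
        ext y; simp [hR]
      rw [h1]
      simp only
      rw [← Finset.mul_sum, ← Finset.mul_sum]
      calc Wh * (g x * ∑ i ∈ univ.filter (fun y => (x, y) ∈ B), h i)
          = g x * (Wh * ∑ i ∈ Bx x, h i) := by simp only [hBx]; ring
        _ ≤ g x * ∑ i ∈ nb H (Bx x), h i :=
            mul_le_mul_of_nonneg_left (expand H h hh hhm (Bx x) (hBxi x)) (hg.1 x)
    have hAB : ∑ p ∈ U, g p.1 * h p.2 = ∑ p ∈ A, g p.1 * h p.2 + ∑ p ∈ B, g p.1 * h p.2 :=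
      (Finset.sum_filter_add_sum_filter_not U _ _).symm
    have ha0 : 0 ≤ ∑ p ∈ A, g p.1 * h p.2 := Finset.sum_nonneg fun p _ => hk0 p
    have hb0 : 0 ≤ ∑ p ∈ B, g p.1 * h p.2 := Finset.sum_nonneg fun p _ => hk0 p
    rw [hAB]
    set a := ∑ p ∈ A, g p.1 * h p.2
    set b := ∑ p ∈ B, g p.1 * h p.2
    rcases le_total Wg Wh with hle | hle
    · rw [max_eq_right hle]
      have h1 : Wg * (a + b) ≤ Wg * Wh := by nlinarith
      exact le_of_mul_le_mul_left h1 hWg0
    · rw [max_eq_left hle]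
      have h1 : Wh * (a + b) ≤ Wh * Wg := by nlinarith
      exact le_of_mul_le_mul_left h1 hWh0
  have hM : 0 < max Wg Wh := lt_max_of_lt_left hWg0
  refine ⟨fun p => g p.1 * h p.2 / max Wg Wh, ⟨fun p => div_nonneg (hk0 p) hM.le, ?_⟩, ?_⟩
  · intro U hU
    rw [← Finset.sum_div, div_le_one hM]
    exact key U hU
  · rw [← Finset.sum_div, htotal, le_div_iff₀ hM]
    rcases le_total Wg Wh with hle | hle
    · rw [max_eq_right hle]
      exact mul_le_mul_of_nonneg_right hgt hWh0.le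
    · rw [max_eq_left hle, mul_comm Wg]
      exact mul_le_mul_of_nonneg_right hht hWg0.le

theorem Frac.hom {G : SimpleGraph V} {H : SimpleGraph W} {t : ℝ} (hG : Frac G t) (φ : G →g H) :
    Frac H t := by
  classical
  obtain ⟨g, hg, hgt⟩ := hG
  have hsum : ∀ I : Finset W, ∑ w ∈ I, ∑ v, (if φ v = w then g v else 0) =
      ∑ v ∈ univ.filter (fun v => φ v ∈ I), g v := by
    intro I
    rw [Finset.sum_comm, Finset.sum_filter]
    refine Finset.sum_congr rfl fun v _ => ?_
    rw [Finset.sum_ite_eq]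
  refine ⟨fun w => ∑ v, if φ v = w then g v else 0, ⟨?_, ?_⟩, ?_⟩
  · intro w
    refine Finset.sum_nonneg fun v _ => ?_
    split_ifs
    · exact hg.1 v
    · exact le_rfl
  · intro I hI
    rw [hsum]
    refine hg.2 _ fun x hx y hy hxy => ?_
    simp only [Finset.mem_filter, Finset.mem_univ, true_and] at hx hy
    exact hI _ hx _ hy (φ.map_adj hxy)
  · rw [hsum]
    simpa using hgt

theorem Frac.mono {G : SimpleGraph V} {t s : ℝ} (h : Frac G t) (hst : s ≤ t) : Frac G s := by
  obtain ⟨g, hg, hgt⟩ := h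
  exact ⟨g, hg, hst.trans hgt⟩

end

end Pool.Agent.T2H87.CR
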