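import Pool.Agent.T2H87.CR.Circ
import Pool.Agent.H466R3.VD_Blow

/-!
# At least half of all positive integers are chromatic Ramsey numbers (MP_8666b3_co)

`Realizable N`: `N` is the chromatic Ramsey number `R_χ(G)` of some graph `G`.  We prove that all
integers `m ^ 2 + j` with `1 ≤ j ≤ m` are realizable, so that at most half of the integers up to `n`
(up to an error of at most `√n / 2`) are not realizable.
-/

set_option autoImplicit false

open Finset

namespace Pool.Agent.T2H87.CR.HalfRealizable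

open Pool.Agent.T2H87.CR

/-- every colouring of the pairs of vertices of `F` with two colours has a copy of `G` in `F` (not
necessarily induced) all of whose edges have the same colour -/
def Arrows {m n : ℕ} (F : SimpleGraph (Fin m)) (G : SimpleGraph (Fin n)) : Prop :=
  ∀ col : Sym2 (Fin m) → Bool, ∃ (f : Fin n → Fin m) (b : Bool), Function.Injective f ∧
    ∀ x y, G.Adj x y → F.Adj (f x) (f y) ∧ col s(f x, f y) = b

/-- `N` is the chromatic Ramsey number of `G`: the least chromatic number of a graph `F` such that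
every colouring of the edges of `F` with two colours has a monochromatic copy of `G` -/
def IsChromaticRamsey {n : ℕ} (G : SimpleGraph (Fin n)) (N : ℕ) : Prop :=
  IsLeast {N : ℕ | ∃ (m : ℕ) (F : SimpleGraph (Fin m)), F.chromaticNumber = N ∧ Arrows F G} N

/-- `N` is the chromatic Ramsey number of some graph with at least one vertex -/
def Realizable (N : ℕ) : Prop :=
  ∃ (n : ℕ) (G : SimpleGraph (Fin n)), 0 < n ∧ IsChromaticRamsey G N

/-- upper bound: if every graph on `N` vertices or its complement receives a homomorphism from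
`H` then some `N`-colourable graph arrows `H` -/
theorem upper {N m : ℕ} (H : SimpleGraph (Fin m))
    (h : ∀ F : SimpleGraph (Fin N), Nonempty (H →g F) ∨ Nonempty (H →g Fᶜ)) :
    ∃ (k : ℕ) (K : SimpleGraph (Fin k)), K.Colorable N ∧ Arrows K H := by
  classical
  obtain ⟨M, hM⟩ := Pool.Agent.H466R3.VDBlow.taskBlow N m
  set e : Fin N × Fin M ≃ Fin (N * M) := finProdFinEquiv with he
  refine ⟨N * M, ⟨fun a b => (e.symm a).1 ≠ (e.symm b).1, ⟨fun _ _ h => h.symm⟩,
    ⟨fun _ h => h rfl⟩⟩, ⟨SimpleGraph.Coloring.mk (fun a => (e.symm a).1) (fun h => h)⟩, ?_⟩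
  intro col
  obtain ⟨S, c, hc, hS, hSc⟩ := hM (fun p q => col s(e p, e q))
    (fun p q => by rw [Sym2.eq_swap])
  have hg : ∀ i, Nonempty (Fin m ≃ S i) := fun i =>
    ⟨(Fintype.equivFinOfCardEq (by simpa using hS i)).symm⟩
  choose g _ using fun i => exists_true_iff_nonempty.2 (hg i)
  have main : ∀ (φ : Fin m → Fin N) (b : Bool), (∀ x y, H.Adj x y → φ x ≠ φ y ∧
      c (φ x) (φ y) = b) → ∃ (f : Fin m → Fin (N * M)) (b : Bool), Function.Injective f ∧
          ∀ x y, H.Adj x y → (e.symm (f x)).1 ≠ (e.symm (f y)).1 ∧ col s(f x, f y) = b := by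
    intro φ b hφ
    refine ⟨fun x => e (φ x, (g (φ x) x : Fin M)), b, ?_, ?_⟩
    · intro x y hxy
      have h1 := e.injective hxy
      rw [Prod.mk.injEq] at h1
      obtain ⟨h2, h3⟩ := h1
      rw [h2] at h3
      exact (g (φ y)).injective (Subtype.ext h3)
    · intro x y hxy
      obtain ⟨h1, h2⟩ := hφ x y hxy
      refine ⟨by simpa using h1, ?_⟩
      rw [← h2]
      exact hSc (φ x) (φ y) h1 _ (g (φ x) x).2 _ (g (φ y) y).2
  set F : SimpleGraph (Fin N) := ⟨fun i j => i ≠ j ∧ c i j = true,
    ⟨fun i j h => ⟨h.1.symm, by rw [hc]; exact h.2⟩⟩, ⟨fun _ h => h.1 rfl⟩⟩ with hF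
  rcases h F with h' | h'
  · obtain ⟨φ⟩ := h'
    exact main φ true (fun x y hxy => φ.map_adj hxy)
  · obtain ⟨φ⟩ := h'
    refine main φ false (fun x y hxy => ?_)
    have h1 := φ.map_adj hxy
    rw [SimpleGraph.compl_adj] at h1
    refine ⟨h1.1, ?_⟩
    have h2 : ¬ (φ x ≠ φ y ∧ c (φ x) (φ y) = true) := h1.2
    simpa [h1.1] using h2

/-- lower bound: if neither `B` nor its complement receives a homomorphism from `H` then a graph
which arrows `H` has more colours than `B` has vertices -/
theorem lower {m : ℕ} {V : Type} [Fintype V] (H : SimpleGraph (Fin m)) (B : SimpleGraph V)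
    (h1 : ¬ Nonempty (H →g B)) (h2 : ¬ Nonempty (H →g Bᶜ)) {k N' : ℕ} (K : SimpleGraph (Fin k))
    (hK : K.Colorable N') (hR : Arrows K H) : Fintype.card V < N' := by
  classical
  by_contra hcon
  push Not at hcon
  obtain ⟨C⟩ := hK
  obtain ⟨ι⟩ : Nonempty (Fin N' ↪ V) :=
    Function.Embedding.nonempty_of_card_le (by simpa using hcon)
  set D : Fin k → V := fun x => ι (C x) with hD
  have hDv : ∀ x y, K.Adj x y → D x ≠ D y := fun x y hxy hne => C.valid hxy (ι.injective hne)
  obtain ⟨f, b, -, hf⟩ := hR (Sym2.lift ⟨fun x y => decide (B.Adj (D x) (D y)), fun x y => by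
    simp only [decide_eq_decide]
    exact ⟨fun h => h.symm, fun h => h.symm⟩⟩)
  simp only [Sym2.lift_mk] at hf
  cases b with
  | true =>
    exact h1 ⟨⟨fun x => D (f x), fun {x y} hxy => by simpa using (hf x y hxy).2⟩⟩
  | false =>
    refine h2 ⟨⟨fun x => D (f x), fun {x y} hxy => ?_⟩⟩
    have h3 := hf x y hxy
    rw [SimpleGraph.compl_adj]
    exact ⟨hDv _ _ h3.1, by simpa using h3.2⟩

/-- **All integers `m ^ 2 + j` with `1 ≤ j ≤ m` are chromatic Ramsey numbers.** -/
theorem realizable (m j : ℕ) (hj : 1 ≤ j) (hjm : j ≤ m) : Realizable (m ^ 2 + j) := by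
  classical
  have hm : 1 ≤ m := hj.trans hjm
  have hm0 : (0 : ℝ) < m := by exact_mod_cast hm
  obtain ⟨n, hn⟩ : ∃ n, m ^ 2 + j = n + 1 := ⟨m ^ 2 + j - 1, by omega⟩
  have hn0 : m ^ 2 ≤ n := by omega
  have hnpos : 0 < n := lt_of_lt_of_le (by positivity) hn0
  have : NeZero n := ⟨hnpos.ne'⟩
  have ht : (0 : ℝ) < ((n + 1 : ℕ) : ℝ) / m := by positivity
  obtain ⟨k, H, hH, hgen⟩ := family (n + 1) (((n + 1 : ℕ) : ℝ) / m) ht
  obtain ⟨hc1, hc2⟩ := cyc_not m n hm hn0
  have hlow : ∀ {l N' : ℕ} (K : SimpleGraph (Fin l)), K.Colorable N' → Arrows K H → n + 1 ≤ N' := by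
    intro l N' K hK hR
    have := lower H (cyc m n) (fun ⟨φ⟩ => hc1 (hH.hom φ)) (fun ⟨φ⟩ => hc2 (hH.hom φ)) K hK hR
    rw [ZMod.card] at this
    exact this
  obtain ⟨l, K, hK, hR⟩ := upper (N := n + 1) H (fun F => by
    rcases dich m (n + 1) hm (by omega) F with h | h
    · exact Or.inl (hgen F h)
    · exact Or.inr (hgen Fᶜ h))
  refine ⟨k, H, ?_, ⟨l, K, ?_, hR⟩, ?_⟩
  · rcases Nat.eq_zero_or_pos k with h0 | h0
    · subst h0
      obtain ⟨g, -, hg⟩ := hH
      simp only [Finset.univ_eq_empty, Finset.sum_empty] at hg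
      linarith
    · exact h0
  · rw [hn]
    refine le_antisymm hK.chromaticNumber_le ?_
    rw [SimpleGraph.le_chromaticNumber_iff_colorable]
    intro q hq
    exact hlow K hq hR
  · rintro N' ⟨l', K', hK', hR'⟩
    rw [hn]
    refine hlow K' ?_ hR'
    exact SimpleGraph.chromaticNumber_le_iff_colorable.1 hK'.le

/-- **Main theorem.** All integers `m ^ 2 + j` with `1 ≤ j ≤ m` are chromatic Ramsey numbers; hence
for every `n` at least `(n - √n) / 2` of the integers `1, ..., n` are chromatic Ramsey numbers. -/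
theorem result :
    (∀ m j : ℕ, 1 ≤ j → j ≤ m → Realizable (m ^ 2 + j)) ∧
    ∀ n : ℕ, n ≤ 2 * {k : ℕ | 1 ≤ k ∧ k ≤ n ∧ Realizable k}.ncard + Nat.sqrt n := by
  classical
  refine ⟨realizable, fun n => ?_⟩
  set S : Set ℕ := {k : ℕ | 1 ≤ k ∧ k ≤ n ∧ Realizable k} with hS
  have hfin : S.Finite := (Set.finite_Icc 1 n).subset fun k hk => ⟨hk.1, hk.2.1⟩
  -- count by blocks
  have hblock : ∀ m : ℕ, ∀ r : ℕ, r ≤ m → m ^ 2 + r ≤ n →
      ∃ T : Finset ℕ, (T : Set ℕ) ⊆ S ∧ (∀ k ∈ T, k ≤ m ^ 2 + r) ∧
        2 * T.card = m * m - m + 2 * r := by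
    intro m
    induction m with
    | zero =>
      intro r hr _
      refine ⟨∅, by simp, by simp, ?_⟩
      have : r = 0 := by omega
      simp [this]
    | succ m ih =>
      intro r hr hn
      obtain ⟨T, hT1, hT2, hT3⟩ := ih m le_rfl (by nlinarith)
      refine ⟨T ∪ (Finset.Icc 1 r).image (fun j => (m + 1) ^ 2 + j), ?_, ?_, ?_⟩
      · intro k hk
        rw [Finset.coe_union, Set.mem_union] at hk
        rcases hk with hk | hk
        · exact hT1 hk
        · rw [Finset.mem_coe, Finset.mem_image] at hk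
          obtain ⟨j, hj, rfl⟩ := hk
          rw [Finset.mem_Icc] at hj
          exact ⟨by omega, by omega, realizable (m + 1) j hj.1 (by omega)⟩
      · intro k hk
        rw [Finset.mem_union] at hk
        rcases hk with hk | hk
        · have := hT2 k hk
          nlinarith
        · rw [Finset.mem_image] at hk
          obtain ⟨j, hj, rfl⟩ := hk
          rw [Finset.mem_Icc] at hj
          omega
      · rw [Finset.card_union_of_disjoint, Finset.card_image_of_injective, Nat.card_Icc]
        · have h1 : m ≤ m * m := by nlinarith [Nat.zero_le m, sq_nonneg m, Nat.le_mul_self m]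
          have h2 : (m + 1) * (m + 1) = m * m + 2 * m + 1 := by ring
          omega
        · intro a b hab
          simpa using hab
        · rw [Finset.disjoint_left]
          intro k hk hk'
          rw [Finset.mem_image] at hk'
          obtain ⟨j, hj, rfl⟩ := hk'
          have := hT2 _ hk
          nlinarith
  set m := Nat.sqrt n with hm
  have hm1 : m * m ≤ n := Nat.sqrt_le n
  have hm2 : n < (m + 1) * (m + 1) := Nat.lt_succ_sqrt n
  obtain ⟨T, hT1, -, hT3⟩ := hblock m (min m (n - m * m)) (min_le_left _ _) (by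
    have := min_le_right m (n - m * m)
    have h3 : m ^ 2 = m * m := sq m
    omega)
  have hcard : T.card ≤ S.ncard := by
    rw [← Set.ncard_coe_finset]
    exact Set.ncard_le_ncard hT1 hfin
  have h1 : m ≤ m * m := Nat.le_mul_self m
  have h2 : (m + 1) * (m + 1) = m * m + 2 * m + 1 := by ring
  rcases le_total m (n - m * m) with h | h
  · rw [min_eq_left h] at hT3
    omega
  · rw [min_eq_right h] at hT3
    omega

end Pool.Agent.T2H87.CR.HalfRealizable
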