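import Pool.Agent.H866R4.VD.Stmts

/-!
# Project CR (MP_8666b3_co): every positive integer except 3, 4, 7, 8, 9 is a chromatic Ramsey number

## Proof in short

`R_χ(H) = N` iff every graph `F` on `N` vertices or its complement receives a homomorphism from `H`, and
some graph `B` on `N - 1` vertices does not and neither does its complement. Let `F_κ` be the class of graphs
with a Hoffman certificate `Cert G κ` (that is `θ(complement of G) > κ + 1`): closed under homomorphic images
and categorical products (start library, `taskProd`, `taskNoHom`). Sharp duality `θ(G) θ(Gᶜ) ≥ N` (package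
DUAL) gives: if `(κ+1)² < N` then every `F` on `N` vertices has `Cert F κ` or `Cert Fᶜ κ`. So `N = n + 1` is
realizable as soon as some graph `G` on `n` vertices has strict vector colourings with value `t`, `t² < n + 1`,
of `G` and of `Gᶜ`: `Good n t` (package REAL). Such graphs are built for all `n ≥ 12`: Paley graphs, substitution
(`SUB`), squares, and the substitution of `H, H, H, H, H'` in a pentagon, which gives
`Good h w → Good h' w' → Good (4h + h') √(4w² + w'² + (w' - w)²)` (package C5). With `h` a sum of two squares near `n/5`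
the error `t² - n` grows by a convergent series.

Rules: package `X` proves `theorem pX (deps as hypotheses in the order given) : S_X` in the file
`Pool/Agent/T2H87/CR/X.lean` (import `Pool.Agent.T2H87.CR.Stm`, namespace `Pool.Agent.T2H87.CR`, your own lemmas
in the namespace `Pool.Agent.T2H87.CR.PkgX`). No sorry, no straight double quote characters.
-/

set_option autoImplicit false

open Finset

namespace Pool.Agent.T2H87.CR

open Pool.Agent.H866R4.VD (Cert Gram Q)

/-- every colouring of the pairs of vertices of `F` with two colours has a copy of `G` in `F` (not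
necessarily induced) all of whose edges have the same colour -/
def Arrows {m n : ℕ} (F : SimpleGraph (Fin m)) (G : SimpleGraph (Fin n)) : Prop :=
  ∀ col : Sym2 (Fin m) → Bool, ∃ (f : Fin n → Fin m) (b : Bool), Function.Injective f ∧
    ∀ x y, G.Adj x y → F.Adj (f x) (f y) ∧ col s(f x, f y) = b

/-- `N` is the chromatic Ramsey number of `G`: the least chromatic number of a graph `F` such that
every colouring of the edges of `F` with two colours has a monochromatic copy of `G` -/
def IsChromaticRamsey {n : ℕ} (G : SimpleGraph (Fin n)) (N : ℕ) : Prop :=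
  IsLeast {N : ℕ | ∃ (m : ℕ) (F : SimpleGraph (Fin m)), F.chromaticNumber = N ∧ Arrows F G} N

/-- `N` is the chromatic Ramsey number of some graph with at least one vertex -/
def Realizable (N : ℕ) : Prop :=
  ∃ (n : ℕ) (G : SimpleGraph (Fin n)), 0 < n ∧ IsChromaticRamsey G N

/-- strict vector colouring of value `t` (as `M = J + K`, `K` positive semidefinite with `-1` on the edges):
`M ≥ J`, `M = 0` on the edges, `M ≤ t` on the diagonal -/
def Vec {V : Type} [Fintype V] (G : SimpleGraph V) (t : ℝ) : Prop :=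
  ∃ M : V → V → ℝ, (∀ x y, M x y = M y x) ∧
    (∀ z : V → ℝ, (∑ x, z x) ^ 2 ≤ ∑ x, ∑ y, M x y * z x * z y) ∧
    (∀ x, M x x ≤ t) ∧ ∀ x y, G.Adj x y → M x y = 0

/-- the same with weights `w` -/
def VecW {V : Type} [Fintype V] (G : SimpleGraph V) (w : V → ℝ) (t : ℝ) : Prop :=
  ∃ M : V → V → ℝ, (∀ x y, M x y = M y x) ∧
    (∀ z : V → ℝ, (∑ x, z x) ^ 2 ≤ ∑ x, ∑ y, M x y * z x * z y) ∧
    (∀ x, M x x * w x ≤ t) ∧ ∀ x y, G.Adj x y → M x y = 0

/-- a graph on `n` vertices such that the graph and its complement have strict vector colourings of value `t` -/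
def Good (n : ℕ) (t : ℝ) : Prop := ∃ G : SimpleGraph (Fin n), Vec G t ∧ Vec Gᶜ t

/-! ### package DUAL : sharp duality (no hypotheses)

Suppose `¬ Cert F κ`. (1) For all symmetric positive semidefinite `M` with `M x y = 0` for `x ≠ y` not adjacent:
`1ᵀM1 ≤ (κ+1) tr M` (otherwise `A x y = M x y / √(M x x * M y y)` on the edges, `0` if a diagonal entry vanishes, and
`w x = √(M x x)` is a certificate: `Q A w = 1ᵀM1 - tr M > κ tr M`). (2) Let `κ + 1 < t`, `t (κ+1) < N`. The set `D` of positive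
semidefinite `M` with trace `1` is compact convex; its image under `M ↦ ((M x y)_{x ≠ y not adjacent}, 1ᵀM1 - t)` is disjoint
from `{0} × [0,∞)`; separate (`geometric_hahn_banach_compact_closed`): there are `Z` symmetric supported on the
pairs `x ≠ y` not adjacent in `F` and `c ≥ 0` with `⟨Z,M⟩ + c (1ᵀM1 - t) < 0` on `D`; `c > 0` as `Z` has zero diagonal, so
`c = 1` by scaling: `t I - J - Z ≥ 0`. (3) `A' = -Z / t` is a certificate for `Fᶜ`: `I + A' ≥ J / t ≥ 0` and
`Q A' 1 = -1ᵀZ1 / t ≥ (N² - t N) / t = N (N/t - 1) > κ N`. -/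
def S_DUAL : Prop := ∀ (N : ℕ) (κ : ℝ), 0 < κ → (κ + 1) ^ 2 < N →
  ∀ F : SimpleGraph (Fin N), Cert F κ ∨ Cert Fᶜ κ

/-! ### package REAL (uses S_DUAL; from the start library `taskProd`, `taskNoHom`, `taskBlow`)

`κ = t - 1 ≥ 1`. Copy `upper`, `lower`, `realizable` from `Pool/Agent/Results/MP_8666b3_co/HalfRealizable.lean` and `family` from
`Pool/Agent/T2H87/CR/Circ.lean` (with `Cert . κ` in place of `Frac . t`; the base case of `family` uses
`S_DUAL` for `⊥` as in `Pool.Agent.H632R3.VD.Family`). `Vec G t` gives `Gram G κ`: `U = (M - J) / κ` off the diagonal, `1` on it. -/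
def S_REAL : Prop := ∀ (n : ℕ) (t : ℝ), 2 ≤ t → t ^ 2 < n + 1 → Good n t → Realizable (n + 1)

/-! ### package SUB : substitution (no hypotheses)

Graph on `Σ i, Fin (h i)` (then transport to `Fin (∑ i, h i)`, e.g. by `finSigmaFinEquiv`): `(i,u) ~ (j,v)` iff `T.Adj i j` or
`i = j` and `u ~ v` in the graph of `Good (h i) (w i)`. `M (i,u) (j,v) = T i j` if `i ≠ j`, `T i i * M_i u v` if `i = j` (`T` the matrix
of `VecW T w t`; `T i i ≥ 1`). With `Z_i = ∑ u, z (i,u)`: `Q ≥ ∑_ij T i j Z_i Z_j ≥ (∑ Z_i)²`. The complement is the same construction. -/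
def S_SUB : Prop := ∀ (k : ℕ) (T : SimpleGraph (Fin k)) (h : Fin k → ℕ) (w : Fin k → ℝ) (t : ℝ),
  (∀ i, 0 < w i) → VecW T w t → VecW Tᶜ w t → (∀ i, Good (h i) (w i)) → Good (∑ i, h i) t

/-! ### packages C5G and C5 : the pentagon (use S_SUB)

The pentagon `0 1 2 3 4` with weights `(w0, w1, w2, w2, w1)`. Let `p, u > 0`, `v = √(u²+1)`, `q = (1 - u/p) / v` and
`y 0 = (p, 0)`, `y 1 = (-1/p, q)`, `y 4 = (-1/p, -q)`, `y 2 = (u, -v)`, `y 3 = (u, v)` in the plane. Then `y i · y (i+1) = -1`, so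
`M i j = 1 + y i · y j` is `0` on the edges, `≥ J`, with diagonal `1 + p²`, `1 + 1/p² + q²` (at 1, 4), `2 + 2u²` (at 2, 3).
C5G: take `p² = t/w0 - 1`, `u² = t/(2 w2) - 1`; then `(1 + 1/p² + q²) w1 ≤ t` is equivalent to `A ≤ 4 w1 w2 (t - w0) u / p`,
`(4 w1 w2 (t - w0) u / p)² = 8 w0 w1² w2 (t - 2 w2) (t - w0)`: `Star`. The complement of the pentagon is the pentagon
`0 2 4 1 3` with the weights `(w0, w2, w1, w1, w2)`, so `Star w0 w2 w1 t` is used for it.
C5: weights `(w', w, w, w, w)` (the same for the complement). With `U = u²` and `1/p = u (2U+3) / (2U+1)`: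
`1 + 1/p² + q² = 2 + 2U` and `1 + p² = (U+1) (4U²+12U+1) / (U (2U+3)²)`. By the intermediate value theorem choose `U > 0` with
`2U (2U+3)² / (4U²+12U+1) = w'/w` and put `t = 2 w (U+1) = w' (1 + p²)`. Then
`t² = 4w² + w'² + 8U/(2U+1)² (w' - w)²` (identity: `w'/w - 1 = (4U²+8U-1) (2U+1) / (4U²+12U+1)`) and `8U ≤ (2U+1)²`. -/
def Star (w0 w1 w2 t : ℝ) : Prop :=
  2 * w0 * w1 * (t - w2) + w1 * (t + 2 * w2) * (t - w0) - t ^ 2 * (t - w0) ≤ 0 ∨
    (2 * w0 * w1 * (t - w2) + w1 * (t + 2 * w2) * (t - w0) - t ^ 2 * (t - w0)) ^ 2 ≤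
      8 * w0 * w1 ^ 2 * w2 * (t - 2 * w2) * (t - w0)

def S_C5G : Prop := ∀ (h0 h1 h2 : ℕ) (w0 w1 w2 t : ℝ), 0 < w0 → 0 < w1 → 0 < w2 → w0 < t →
  2 * w1 < t → 2 * w2 < t → Star w0 w1 w2 t → Star w0 w2 w1 t →
  Good h0 w0 → Good h1 w1 → Good h2 w2 → Good (h0 + 2 * h1 + 2 * h2) t

def S_C5 : Prop := ∀ (h h' : ℕ) (w w' : ℝ), 0 < w → 0 < w' → Good h w → Good h' w' →
  Good (4 * h + h') (Real.sqrt (4 * w ^ 2 + w' ^ 2 + (w' - w) ^ 2))

/-! ### package PROD : products and squares (uses S_SUB)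

First part: S_SUB with the graph of `Good a s`, `h = b`, `w = t` constant (`VecW` with matrix `M`: `M x x * t ≤ s t`).
Second part: on `Fin m × Fin m` (transport by `finProdFinEquiv`) rows are cliques; `M = m` at equal second coordinate and
`0` otherwise for the graph, `M = m` at equal first coordinate for the complement (Cauchy-Schwarz). -/
def S_PROD : Prop := (∀ (a b : ℕ) (s t : ℝ), 0 < s → 0 < t → Good a s → Good b t → Good (a * b) (s * t)) ∧
  ∀ m : ℕ, 0 < m → Good (m * m) m

/-! ### package PAL : Paley graphs (no hypotheses)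

On `ZMod p` (transport to `Fin p`): `x ~ y` iff `quadraticChar (ZMod p) (y - x) = 1`. With `t = √p`, `S x y = - χ (y - x)`,
`S 1 = 0`, `S² = p I - J` (Jacobsthal: `∑_z χ (z) χ (z + c) = -1` for `c ≠ 0`): `M = t/(t+1) (t I + S + J)` has `M = 0` on the edges, diagonal
`t`, and `M - J = t/(t+1) (t I + S - J/t)`, `(t I + S - J/t)² = 2 t (t I + S - J/t)`, so it is positive semidefinite. Complement:
`-χ` in place of `χ`. -/
def S_PAL : Prop := ∀ p : ℕ, p.Prime → p % 4 = 1 → Good p (Real.sqrt p)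

/-! ### package SUM2 : sums of two squares (uses S_PROD S_PAL)

`Good n √n` is closed under products, holds for squares and primes `1` mod `4`. `Nat.eq_sq_add_sq_iff` : primes `3` mod `4`
occur to even powers; strong induction on the odd number `a² + b²` in this form. -/
def S_SUM2 : Prop := ∀ m a b : ℕ, 0 < m → (a ^ 2 + b ^ 2) % 2 = 1 →
  Good (m ^ 2 * (a ^ 2 + b ^ 2)) (Real.sqrt ((m ^ 2 * (a ^ 2 + b ^ 2) : ℕ) : ℝ))

/-! ### package CIRC : certificates for circulant graphs (no hypotheses)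

`s` is the connection list (`i ~ j` iff `s[(j - i) mod n]`), `c d = ∑_k g_k g_(k+d)` (indices mod `n`). Matrix
`M i j = 1 + c(j-i)/D²` if `i ≠ j` are not adjacent, `0` if adjacent, `1 + c(0)/D² + ∑_{edges d} |D² + c d| / D²` on the diagonal:
`M - J` is the sum of the positive semidefinite `c(j-i)/D²` and a diagonally dominant matrix. -/
def ac (g : List ℤ) (d : ℕ) : ℤ := (List.zipWith (fun a b => a * b) g (g.rotate d)).sum

def circOK (n D W : ℕ) (s : List Bool) (g : List ℤ) : Bool :=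
  decide (g.length = n) && decide (s.length = n) &&
  ((List.range n).all fun d => decide (d = 0) || (s.getD d false == s.getD (n - d) false)) &&
  decide (((D : ℤ) ^ 2 + ac g 0 + ((List.range n).map fun d =>
    if d ≠ 0 ∧ s.getD d false = true then |(D : ℤ) ^ 2 + ac g d| else 0).sum) * 10 ^ 8 ≤ W * D ^ 2)

def S_CIRC : Prop := ∀ (n D W : ℕ) (s : List Bool) (g g' : List ℤ), 0 < n → 0 < D →
  circOK n D W s g = true → circOK n D W (s.map (fun b => !b)) g' = true → Good n ((W : ℝ) / 10 ^ 8)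

/-! ### package MAT : certificates for general graphs (no hypotheses)

`s` is the list of the rows of the adjacency matrix, `G` a list of vectors (rows), `c i j = G_i · G_j`; the same as CIRC. -/
def dotL (a b : List ℤ) : ℤ := (List.zipWith (fun x y => x * y) a b).sum

def matOK (n D W : ℕ) (s : ℕ → ℕ → Bool) (G : List (List ℤ)) : Bool :=
  ((List.range n).all fun i => (List.range n).all fun j => s i j == s j i) &&
  ((List.range n).all fun i => decide (((D : ℤ) ^ 2 + dotL (G.getD i []) (G.getD i []) +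
    ((List.range n).map fun j =>
      if j ≠ i ∧ s i j = true then |(D : ℤ) ^ 2 + dotL (G.getD i []) (G.getD j [])| else 0).sum) * 10 ^ 8
        ≤ W * D ^ 2))

def S_MAT : Prop := ∀ (n D W : ℕ) (s : ℕ → ℕ → Bool) (G G' : List (List ℤ)), 0 < n → 0 < D →
  (∀ i, (G.getD i []).length = (G.getD 0 []).length ∨ n ≤ i) →
  (∀ i, (G'.getD i []).length = (G'.getD 0 []).length ∨ n ≤ i) →
  matOK n D W s G = true → matOK n D W (fun i j => !(s i j)) G' = true → Good n ((W : ℝ) / 10 ^ 8)

/-! ### package GAP : sums of two squares are dense (no hypotheses)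

`a = ⌊√x⌋`, `b` of the other parity with `b²` nearest to `x - a² ≤ 2a`: `|x - a² - b²| ≤ 2 √(2a) + 2`, so
`(5 |x - p| + 5)² ≤ (10 √(2a) + 15)² ≤ 225 a` for `a ≥ 447`. -/
def S_GAP : Prop := ∀ x : ℕ, 200000 ≤ x → ∃ a b : ℕ, (a ^ 2 + b ^ 2) % 2 = 1 ∧
  (5 * |(x : ℝ) - ((a ^ 2 + b ^ 2 : ℕ) : ℝ)| + 5) ^ 2 ≤ 225 * Real.sqrt x

/-! ### package LIST (by computation, no hypotheses)

From 8000 to 200000 there is a chain of numbers `p = m² (a² + b²)`, `a² + b²` odd, such that every `x` is near enough to one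
of them (checked numerically). Generate witnesses `(m, a, b)` with a program, encode them as lists or big natural number
literals, check them with `decide +kernel` in chunks (consecutive `p < p'`: the condition for the `x` in between, nearest end). -/
def S_LIST : Prop := ∀ x : ℕ, 8000 ≤ x → x < 200000 → ∃ m a b : ℕ, 0 < m ∧ (a ^ 2 + b ^ 2) % 2 = 1 ∧
  20 * (5 * |(x : ℤ) - ((m ^ 2 * (a ^ 2 + b ^ 2) : ℕ) : ℤ)| + 5) ^ 2 ≤ 11 * x

/-! ### package TAB (by computation, uses S_C5G S_C5 S_SUM2 S_CIRC S_MAT): helper87 -/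
def S_TAB : Prop := (∀ n : ℕ, 12 ≤ n → n < 41000 → ∃ t : ℝ, 2 ≤ t ∧ t ^ 2 < n + 1 ∧ Good n t) ∧
  ∀ n : ℕ, 7900 ≤ n → n < 41000 → Good n (Real.sqrt (n + 9 / 20))

/-! ### package MID (uses S_C5 S_SUM2 S_LIST S_TAB)

Let `x = n / 5` (rounded down), `p = m² (a² + b²)` from S_LIST, `h = p`, `h' = n - 4 p`. `|n - 5p| ≤ 5 |x - p| + 4`. `Good p √p`,
`Good h' √(h' + E)`; S_C5 gives `t² = 4p + h' + E + (√(h'+E) - √p)²` and `(√s' - √s)² = (s' - s)² / (√s' + √s)² ≤
(s' - s)² / (4 min s s')`, `|s' - s| ≤ |n - 5p| + E ≤ 5 |x - p| + 5`. So the error grows by at most `11 x / (80 min) ≤ 0.139`.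
(a) `41000 ≤ n < 201000`: `x < 40200`, `|x - p| ≤ 29`, `7900 ≤ h' < 41000`, `E = 0.45`: error `≤ 0.589`. (b) `201000 ≤ n < 10^6`:
`x < 200000`, `|x - p| ≤ 65`, `39000 ≤ h' < 201000`: `E ≤ 0.589` by (a) or S_TAB: error `≤ 0.728`. (`Vec` and so `Good` are monotone in `t`.) -/
def S_MID : Prop := ∀ n : ℕ, 41000 ≤ n → n < 1000000 → Good n (Real.sqrt (n + 73 / 100))

/-! ### package ASY (uses S_C5 S_SUM2 S_GAP S_MID)

Claim by strong induction: for `n ≥ 195000` `Good n √(n + 0.98 - 110/√n)`. For `n < 10^6` this follows from S_MID (`0.98 - 110/√195000 >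
0.73`). For `n ≥ 10^6` as in MID with `x = n/5 ≥ 200000`, `p = a² + b²` from S_GAP (`m = 1` in S_SUM2): `|x - p| ≤ 3 x^(1/4)`, `min p h' ≥ x -
12 x^(1/4)`, the new error is at most `225 √x / (4 (x - 12 x^(1/4))) ≤ 56.4 / √x ≤ 126.2 / √n`, and `h' ≤ x + 4 + 12 x^(1/4)`, so
`110 / √h' ≥ 245 / √n`; `245 - 126.2 ≥ 110`. -/
def S_ASY : Prop := ∀ n : ℕ, 41000 ≤ n → Good n (Real.sqrt (n + 49 / 50))

end Pool.Agent.T2H87.CR
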